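import Pool.Agent.helper26.CK.Defs

/-!
# CK-Bd1: a piecewise linear norm on a separable Banach space is locally linear on a dense set

PROOF of `dense_linear`.  `N` is convex, continuous (Lipschitz with constant `C`).
(1) Let `(y k)` be a dense sequence.  For `k, m` let
`A k m = {x | ∀ t > 0, t / (m+1) ≤ N (x + t • y k) + N (x - t • y k) - 2 * N x}`.  It is closed, and has
empty interior: if the ball of radius `r` at `x` is contained in it, put `g s = N (x + s • y k)`; for
`τ > 0` small (`(M + 1) τ ‖y k‖ < r`) and `s = j τ`, `j = 1, …, M`, we get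
`g (s + τ) + g (s - τ) - 2 g s ≥ τ / (m+1)`; sum over `j` (telescoping):
`M τ / (m+1) ≤ (g ((M+1)τ) - g (M τ)) - (g τ - g 0) ≤ 2 C ‖y k‖ τ`, a contradiction for large `M`.
By Baire (`dense_iInter_of_isOpen` / `dense_iInter_of_isOpen_nat`) the set `G = ⋂ (A k m)ᶜ` is dense.
(2) Let `x ∈ G`.  By `hPL` for every `y` there are `ε > 0` and a number `D y` (the one-sided derivative)
with `N (x + t • y) = N x + t * D y` for `0 ≤ t ≤ ε`.  `D` is positively homogeneous, subadditive
(convexity of `N`), `D y ≤ N y`, and Lipschitz; `D (y k) + D (-y k) = 0` as `x ∉ A k m` for all `m`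
(the difference quotients decrease to `D (y k) + D (- y k)` when `t` decreases to `0`), so by density
`D y + D (-y) = 0` for all `y`; hence `D` is linear, a functional `f` with `f ≤ N`, `f x = N x`.
(3) Local linearity: `F = {u | N u = f u}` is a closed set closed under addition (as `f ≤ N`) and under
positive multiples.  `Y = ⋃ n, {y | ∀ t ∈ [-1/n, 1/n], x + t • y ∈ F}`, closed sets, so by Baire
(`nonempty_interior_of_iUnion_of_closed`) one of them contains a ball `B(y0, r)`.  For `‖w‖ < r`: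
`x - (1/n) • y0 ∈ F`, `x + (1/n) • (y0 + w) ∈ F`, so their sum `2 x + (1/n) w ∈ F`, so
`x + (1/(2n)) • w ∈ F`: `x` is an interior point of `F`.
-/

set_option autoImplicit false

open Set Topology Filter

namespace Pool.Agent.helper26.CK

section aux

variable {Y : Type*} [NormedAddCommGroup Y] [NormedSpace ℝ Y] {N : Y → ℝ}

private theorem N_zero (hN : EqNorm Y N) : N 0 = 0 := by
  have h := hN.smul 0 0
  simpa using h

private theorem N_neg (hN : EqNorm Y N) (y : Y) : N (-y) = N y := by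
  have h := hN.smul (-1) y
  simpa using h

private theorem N_sub_le (hN : EqNorm Y N) {C : ℝ} (hC : ∀ f, N f ≤ C * ‖f‖) (x y : Y) :
    N x - N y ≤ C * ‖x - y‖ := by
  have h1 := hN.add_le (x - y) y
  rw [sub_add_cancel] at h1
  linarith [hC (x - y)]

private theorem N_cont (hN : EqNorm Y N) : Continuous N := by
  obtain ⟨c, C, hc, hC, h⟩ := hN.equiv
  have hL : LipschitzWith (Real.toNNReal C) N := by
    refine LipschitzWith.of_dist_le_mul fun x y => ?_
    rw [Real.coe_toNNReal C hC.le, Real.dist_eq, dist_eq_norm, abs_le]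
    have h1 := N_sub_le hN (fun f => (h f).2) x y
    have h2 := N_sub_le hN (fun f => (h f).2) y x
    rw [norm_sub_rev] at h2
    constructor <;> linarith
  exact hL.continuous

/-- midpoint convexity -/
private theorem N_mid (hN : EqNorm Y N) (u v : Y) :
    N ((1 / 2 : ℝ) • u + (1 / 2 : ℝ) • v) ≤ (N u + N v) / 2 := by
  have h := hN.add_le ((1 / 2 : ℝ) • u) ((1 / 2 : ℝ) • v)
  rw [hN.smul, hN.smul] at h
  rw [abs_of_pos (by norm_num : (0 : ℝ) < 1 / 2)] at h
  linarith

/-- convexity along a ray -/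
private theorem N_ray (hN : EqNorm Y N) (x y : Y) {s t : ℝ} (hs : 0 < s) (hst : s ≤ t) :
    N (x + s • y) - N x ≤ (s / t) * (N (x + t • y) - N x) := by
  have ht : 0 < t := lt_of_lt_of_le hs hst
  have e : x + s • y = (1 - s / t) • x + (s / t) • (x + t • y) := by
    rw [smul_add, smul_smul, div_mul_cancel₀ s ht.ne', sub_smul, one_smul]
    abel
  have h := hN.add_le ((1 - s / t) • x) ((s / t) • (x + t • y))
  rw [← e, hN.smul, hN.smul] at h
  have h0 : 0 ≤ s / t := by positivity
  have h1 : 0 ≤ 1 - s / t := by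
    have : s / t ≤ 1 := (div_le_one ht).2 hst
    linarith
  rw [abs_of_nonneg h0, abs_of_nonneg h1] at h
  linarith

/-- the set of points which are rough in the direction `y` -/
private def Rg (N : Y → ℝ) (y : Y) (m : ℕ) : Set Y :=
  {x | ∀ t : ℝ, 0 < t → t / (m + 1) ≤ N (x + t • y) + N (x - t • y) - 2 * N x}

private theorem Rg_closed (hN : EqNorm Y N) (y : Y) (m : ℕ) : IsClosed (Rg N y m) := by
  have hc := N_cont hN
  have e : Rg N y m = ⋂ t : ℝ, ⋂ _ : 0 < t,
      {x | t / (m + 1) ≤ N (x + t • y) + N (x - t • y) - 2 * N x} := by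
    ext x
    simp [Rg]
  rw [e]
  refine isClosed_iInter fun t => isClosed_iInter fun _ => ?_
  refine isClosed_le continuous_const ?_
  fun_prop

private theorem Rg_dense (hN : EqNorm Y N) (y : Y) (m : ℕ) : Dense (Rg N y m)ᶜ := by
  obtain ⟨c, C, hc, hC, hCN⟩ := hN.equiv
  rw [← interior_eq_empty_iff_dense_compl, Set.eq_empty_iff_forall_notMem]
  intro x hx
  rw [mem_interior_iff_mem_nhds, Metric.mem_nhds_iff] at hx
  obtain ⟨r, hr, hball⟩ := hx
  obtain ⟨M, hM⟩ := exists_nat_gt (2 * C * ‖y‖ * (m + 1))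
  set τ : ℝ := r / ((M + 1) * (‖y‖ + 1)) with hτ
  have hy0 : 0 ≤ ‖y‖ := norm_nonneg y
  have hden : 0 < ((M : ℝ) + 1) * (‖y‖ + 1) := by positivity
  have hτ0 : 0 < τ := div_pos hr hden
  have key : ∀ j : ℕ, j + 1 ≤ M → τ / (m + 1) ≤
      (N (x + (((j + 2 : ℕ) : ℝ) * τ) • y) - N (x + (((j + 1 : ℕ) : ℝ) * τ) • y)) -
      (N (x + (((j + 1 : ℕ) : ℝ) * τ) • y) - N (x + ((j : ℝ) * τ) • y)) := by
    intro j hj
    have hmem : x + (((j + 1 : ℕ) : ℝ) * τ) • y ∈ Metric.ball x r := by
      rw [Metric.mem_ball, dist_eq_norm, add_sub_cancel_left, norm_smul, Real.norm_eq_abs,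
        abs_of_nonneg (by positivity)]
      have h1 : ((j + 1 : ℕ) : ℝ) ≤ M := by exact_mod_cast hj
      have h2 : ((j + 1 : ℕ) : ℝ) * τ * ‖y‖ ≤ M * τ * ‖y‖ := by gcongr
      have h3 : (M : ℝ) * τ * ‖y‖ < ((M + 1) * (‖y‖ + 1)) * τ := by nlinarith [hτ0, hy0, (Nat.cast_nonneg M : (0:ℝ) ≤ M)]
      have h4 : ((M + 1) * (‖y‖ + 1)) * τ = r := by
        rw [hτ]; field_simp
      linarith
    have h := hball hmem τ hτ0
    have e1 : x + (((j + 1 : ℕ) : ℝ) * τ) • y + τ • y = x + (((j + 2 : ℕ) : ℝ) * τ) • y := by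
      rw [add_assoc, ← add_smul]; congr 2; push_cast; ring
    have e2 : x + (((j + 1 : ℕ) : ℝ) * τ) • y - τ • y = x + ((j : ℝ) * τ) • y := by
      rw [add_sub_assoc, ← sub_smul]; congr 2; push_cast; ring
    rw [e1, e2] at h
    linarith
  have tel : ∀ j : ℕ, j ≤ M → (j : ℝ) * (τ / (m + 1)) ≤
      (N (x + (((j + 1 : ℕ) : ℝ) * τ) • y) - N (x + ((j : ℝ) * τ) • y)) -
      (N (x + (((1 : ℕ) : ℝ) * τ) • y) - N x) := by
    intro j
    induction j with
    | zero => intro _; simp
    | succ j ih =>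
      intro hj
      have h1 := ih (by omega)
      have h2 := key j hj
      push_cast at h1 h2 ⊢
      have e : ((j : ℝ) + 1 + 1) = (j : ℝ) + 2 := by ring
      rw [e]
      linarith
  have h := tel M le_rfl
  have b1 : N (x + (((M + 1 : ℕ) : ℝ) * τ) • y) - N (x + ((M : ℝ) * τ) • y) ≤ C * (τ * ‖y‖) := by
    refine le_trans (N_sub_le hN (fun f => (hCN f).2) _ _) ?_
    have e : x + (((M + 1 : ℕ) : ℝ) * τ) • y - (x + ((M : ℝ) * τ) • y) = τ • y := by
      rw [add_sub_add_left_eq_sub, ← sub_smul]; congr 1; push_cast; ring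
    rw [e, norm_smul, Real.norm_eq_abs, abs_of_pos hτ0]
  have b2 : N x - N (x + (((1 : ℕ) : ℝ) * τ) • y) ≤ C * (τ * ‖y‖) := by
    refine le_trans (N_sub_le hN (fun f => (hCN f).2) _ _) ?_
    have e : x - (x + (((1 : ℕ) : ℝ) * τ) • y) = -(τ • y) := by
      simp
    rw [e, norm_neg, norm_smul, Real.norm_eq_abs, abs_of_pos hτ0]
  have h5 : (M : ℝ) * (τ / (m + 1)) ≤ 2 * C * ‖y‖ * τ := by
    have e : 2 * C * ‖y‖ * τ = C * (τ * ‖y‖) + C * (τ * ‖y‖) := by ring
    rw [e]
    generalize N (x + (((M + 1 : ℕ) : ℝ) * τ) • y) = a1 at h b1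
    generalize N (x + (((1 : ℕ) : ℝ) * τ) • y) = a2 at h b2
    linarith
  have hm : (0 : ℝ) < m + 1 := by positivity
  have h6 : (M : ℝ) * τ ≤ 2 * C * ‖y‖ * (m + 1) * τ := by
    have := mul_le_mul_of_nonneg_right h5 hm.le
    have e : (M : ℝ) * (τ / (m + 1)) * (m + 1) = M * τ := by field_simp
    rw [e] at this
    linarith
  have h7 := mul_lt_mul_of_pos_right hM hτ0
  linarith

end aux

theorem dense_linear {Y : Type*} [NormedAddCommGroup Y] [NormedSpace ℝ Y] [CompleteSpace Y]
    [TopologicalSpace.SeparableSpace Y] {N : Y → ℝ} (hN : EqNorm Y N)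
    (hPL : ∀ x y : Y, ∃ ε > 0, ∃ c : ℝ, ∀ t ∈ Icc (0 : ℝ) ε, N (x + t • y) = N x + t * c) :
    Dense {x | ∃ f : Y →L[ℝ] ℝ, (∀ y, f y ≤ N y) ∧ x ∈ interior {u | N u = f u}} := by
  obtain ⟨c, C, hc, hC, hCN⟩ := hN.equiv
  have hcont := N_cont hN
  set d := TopologicalSpace.denseSeq Y with hd
  have hdr : DenseRange d := TopologicalSpace.denseRange_denseSeq Y
  have hG : Dense (⋂ p : ℕ × ℕ, (Rg N (d p.1) p.2)ᶜ) :=
    dense_iInter_of_isOpen (fun p => (Rg_closed hN _ _).isOpen_compl) (fun p => Rg_dense hN _ _)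
  refine hG.mono fun x hx => ?_
  rw [mem_iInter] at hx
  -- the one-sided derivative
  choose ε hε D hD using hPL x
  have hDge : ∀ y, ∀ t : ℝ, 0 < t → t * D y ≤ N (x + t • y) - N x := by
    intro y t ht
    have hs : 0 < min (ε y) t := lt_min (hε y) ht
    have h1 := hD y (min (ε y) t) ⟨hs.le, min_le_left _ _⟩
    have h2 := N_ray hN x y hs (min_le_right (ε y) t)
    rw [h1] at h2
    have h3 : min (ε y) t * D y ≤ min (ε y) t * ((N (x + t • y) - N x) / t) := by
      have e : min (ε y) t * ((N (x + t • y) - N x) / t) =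
        min (ε y) t / t * (N (x + t • y) - N x) := by ring
      rw [e]; linarith
    have h4 := le_of_mul_le_mul_left h3 hs
    rw [le_div_iff₀ ht] at h4
    linarith
  have hDhom : ∀ y, ∀ a : ℝ, 0 < a → D (a • y) = a * D y := by
    intro y a ha
    have hs : 0 < min (ε (a • y)) (ε y / a) := lt_min (hε _) (div_pos (hε y) ha)
    set s := min (ε (a • y)) (ε y / a) with hsdef
    have h1 := hD (a • y) s ⟨hs.le, min_le_left _ _⟩
    have h2 := hD y (s * a) ⟨by positivity, by
      have : s ≤ ε y / a := min_le_right _ _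
      rwa [le_div_iff₀ ha] at this⟩
    rw [smul_smul, h2] at h1
    have h3 : s * D (a • y) = s * (a * D y) := by linarith
    exact mul_left_cancel₀ hs.ne' h3
  have hDsub : ∀ y z, D (y + z) ≤ D y + D z := by
    intro y z
    set s := min (ε (y + z)) (min (ε y / 2) (ε z / 2)) with hsdef
    have hs : 0 < s := lt_min (hε _) (lt_min (half_pos (hε y)) (half_pos (hε z)))
    have h1 := hD (y + z) s ⟨hs.le, min_le_left _ _⟩
    have h2 := hD y (2 * s) ⟨by positivity, by
      have : s ≤ ε y / 2 := (min_le_right _ _).trans (min_le_left _ _)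
      linarith⟩
    have h3 := hD z (2 * s) ⟨by positivity, by
      have : s ≤ ε z / 2 := (min_le_right _ _).trans (min_le_right _ _)
      linarith⟩
    have h4 := N_mid hN (x + (2 * s) • y) (x + (2 * s) • z)
    have e : (1 / 2 : ℝ) • (x + (2 * s) • y) + (1 / 2 : ℝ) • (x + (2 * s) • z) =
        x + s • (y + z) := by
      module
    rw [e, h1, h2, h3] at h4
    have h5 : s * D (y + z) ≤ s * (D y + D z) := by linarith
    exact le_of_mul_le_mul_left h5 hs
  have hDN : ∀ y, D y ≤ N y := by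
    intro y
    have h1 := hD y (ε y) ⟨(hε y).le, le_rfl⟩
    have h2 := hN.add_le x (ε y • y)
    rw [h1, hN.smul, abs_of_pos (hε y)] at h2
    have h3 : ε y * D y ≤ ε y * N y := by linarith
    exact le_of_mul_le_mul_left h3 (hε y)
  have hD0 : D 0 = 0 := by
    have h1 := hD 0 (ε 0) ⟨(hε 0).le, le_rfl⟩
    rw [smul_zero, add_zero] at h1
    have h2 : ε 0 * D 0 = 0 := by linarith
    exact (mul_eq_zero.1 h2).resolve_left (hε 0).ne'
  have hDlip : ∀ y z, |D y - D z| ≤ C * ‖y - z‖ := by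
    intro y z
    have h1 := hDsub (y - z) z
    have h2 := hDsub (z - y) y
    rw [sub_add_cancel] at h1 h2
    have h3 := (hDN (y - z)).trans (hCN _).2
    have h4 := (hDN (z - y)).trans (hCN _).2
    rw [norm_sub_rev] at h4
    rw [abs_le]
    constructor <;> linarith
  have hDcont : Continuous D := by
    have hL : LipschitzWith (Real.toNNReal C) D := by
      refine LipschitzWith.of_dist_le_mul fun y z => ?_
      rw [Real.coe_toNNReal C hC.le, Real.dist_eq, dist_eq_norm]
      exact hDlip y z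
    exact hL.continuous
  have hDneg : ∀ y, D y + D (-y) = 0 := by
    have hcl : IsClosed {y | D y + D (-y) = 0} :=
      isClosed_eq (hDcont.add (hDcont.comp continuous_neg)) continuous_const
    have hsub : range d ⊆ {y | D y + D (-y) = 0} := by
      rintro _ ⟨k, rfl⟩
      refine le_antisymm ?_ ?_
      · refine le_of_forall_pos_lt_add fun η hη => ?_
        obtain ⟨m, hm⟩ := exists_nat_one_div_lt hη
        have hxm := hx (k, m)
        simp only [Rg, mem_compl_iff, mem_ofPred_eq, not_forall, not_le] at hxm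
        obtain ⟨t, ht, hlt⟩ := hxm
        have h1 := hDge (d k) t ht
        have h2 := hDge (-d k) t ht
        rw [smul_neg, ← sub_eq_add_neg] at h2
        have h3 : t * (D (d k) + D (-d k)) < t * (1 / ((m : ℝ) + 1)) := by
          rw [mul_one_div]; linarith
        have h4 := lt_of_mul_lt_mul_left h3 ht.le
        linarith
      · have h1 := hDsub (d k) (-d k)
        rw [add_neg_cancel, hD0] at h1
        exact h1
    have hcl2 : closure (range d) ⊆ {y | D y + D (-y) = 0} := hcl.closure_subset_iff.2 hsub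
    intro y
    exact hcl2 (hdr y)
  have hDadd : ∀ y z, D (y + z) = D y + D z := by
    intro y z
    refine le_antisymm (hDsub y z) ?_
    have h1 := hDsub (-y) (-z)
    have h2 := hDneg (y + z)
    rw [neg_add] at h2
    linarith [hDneg y, hDneg z]
  have hDsmul : ∀ (a : ℝ) y, D (a • y) = a * D y := by
    intro a y
    rcases lt_trichotomy a 0 with ha | ha | ha
    · have h1 := hDhom y (-a) (by linarith)
      have h2 := hDneg (a • y)
      rw [← neg_smul] at h2
      linarith
    · rw [ha, zero_smul, hD0, zero_mul]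
    · exact hDhom y a ha
  let fl : Y →ₗ[ℝ] ℝ :=
    { toFun := D
      map_add' := hDadd
      map_smul' := fun a y => by simpa using hDsmul a y }
  let f : Y →L[ℝ] ℝ := ⟨fl, hDcont⟩
  have hf : ∀ y, f y = D y := fun y => rfl
  have hfN : ∀ y, f y ≤ N y := fun y => hDN y
  have hfx : f x = N x := by
    have h1 := hD x (ε x) ⟨(hε x).le, le_rfl⟩
    have e : x + ε x • x = (1 + ε x) • x := by rw [add_smul, one_smul]
    rw [e, hN.smul, abs_of_pos (by linarith [hε x])] at h1
    have h2 : ε x * N x = ε x * D x := by linarith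
    exact (mul_left_cancel₀ (hε x).ne' h2).symm
  set F : Set Y := {u | N u = f u} with hF
  have hFcl : IsClosed F := isClosed_eq hcont f.continuous
  have hFadd : ∀ u ∈ F, ∀ v ∈ F, u + v ∈ F := by
    intro u hu v hv
    have hu' : N u = f u := hu
    have hv' : N v = f v := hv
    have h1 := hN.add_le u v
    have h2 := hfN (u + v)
    have h3 : f (u + v) = f u + f v := map_add f u v
    change N (u + v) = f (u + v)
    linarith
  have hFsmul : ∀ u ∈ F, ∀ a : ℝ, 0 ≤ a → a • u ∈ F := by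
    intro u hu a ha
    have hu' : N u = f u := hu
    change N (a • u) = f (a • u)
    rw [hN.smul, abs_of_nonneg ha, hu', map_smul, smul_eq_mul]
  have hcov : (⋃ n : ℕ, {y | ∀ t ∈ Icc (-(1 / ((n : ℝ) + 1))) (1 / ((n : ℝ) + 1)), x + t • y ∈ F})
      = univ := by
    rw [eq_univ_iff_forall]
    intro y
    obtain ⟨n, hn⟩ := exists_nat_one_div_lt (lt_min (hε y) (hε (-y)))
    refine mem_iUnion.2 ⟨n, fun t ht => ?_⟩
    change N (x + t • y) = f (x + t • y)
    rw [map_add, map_smul, hfx, hf, smul_eq_mul]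
    rcases le_total 0 t with h0 | h0
    · exact hD y t ⟨h0, ht.2.trans (hn.le.trans (min_le_left _ _))⟩
    · have h1 := hD (-y) (-t) ⟨by linarith, by
        have := hn.le.trans (min_le_right _ _)
        linarith [ht.1]⟩
      rw [smul_neg, neg_smul, neg_neg] at h1
      rw [h1]
      have h2 := hDneg y
      have h3 : D (-y) = -D y := by linarith
      rw [h3]; ring
  have hclosed : ∀ n : ℕ,
      IsClosed {y | ∀ t ∈ Icc (-(1 / ((n : ℝ) + 1))) (1 / ((n : ℝ) + 1)), x + t • y ∈ F} := by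
    intro n
    have e : {y | ∀ t ∈ Icc (-(1 / ((n : ℝ) + 1))) (1 / ((n : ℝ) + 1)), x + t • y ∈ F} =
        ⋂ t : ℝ, ⋂ _ : t ∈ Icc (-(1 / ((n : ℝ) + 1))) (1 / ((n : ℝ) + 1)),
          (fun y => x + t • y) ⁻¹' F := by
      ext y; simp
    rw [e]
    refine isClosed_iInter fun t => isClosed_iInter fun _ => hFcl.preimage ?_
    fun_prop
  obtain ⟨n, y0, hy0⟩ := nonempty_interior_of_iUnion_of_closed hclosed hcov
  rw [mem_interior_iff_mem_nhds, Metric.mem_nhds_iff] at hy0
  obtain ⟨r, hr, hball⟩ := hy0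
  have hn1 : (0 : ℝ) < (n : ℝ) + 1 := by positivity
  have hn2 : (0 : ℝ) < 1 / ((n : ℝ) + 1) := by positivity
  refine ⟨f, hfN, ?_⟩
  rw [mem_interior_iff_mem_nhds, Metric.mem_nhds_iff]
  refine ⟨r / (2 * ((n : ℝ) + 1)), by positivity, fun u hu => ?_⟩
  rw [Metric.mem_ball, dist_eq_norm] at hu
  set w : Y := (2 * ((n : ℝ) + 1)) • (u - x) with hw
  have hwr : ‖w‖ < r := by
    rw [hw, norm_smul, Real.norm_eq_abs, abs_of_pos (by positivity)]
    rw [lt_div_iff₀ (by positivity)] at hu
    linarith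
  have m1 : x + (-(1 / ((n : ℝ) + 1))) • y0 ∈ F :=
    hball (Metric.mem_ball_self hr) _ ⟨le_rfl, by linarith⟩
  have m2 : x + (1 / ((n : ℝ) + 1)) • (y0 + w) ∈ F :=
    hball (by rw [Metric.mem_ball, dist_eq_norm, add_sub_cancel_left]; exact hwr) _
      ⟨by linarith, le_rfl⟩
  have m3 := hFsmul _ (hFadd _ m1 _ m2) (1 / 2) (by norm_num)
  have e : (1 / 2 : ℝ) • (x + (-(1 / ((n : ℝ) + 1))) • y0 + (x + (1 / ((n : ℝ) + 1)) • (y0 + w))) =
      u := by
    have e1 : (1 / 2 : ℝ) • (x + (-(1 / ((n : ℝ) + 1))) • y0 +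
        (x + (1 / ((n : ℝ) + 1)) • (y0 + w))) = x + (1 / (2 * ((n : ℝ) + 1))) • w := by
      have h2 : (1 / (2 * ((n : ℝ) + 1))) = (1 / 2) * (1 / ((n : ℝ) + 1)) := by
        field_simp
      rw [h2]
      module
    rw [e1, hw, smul_smul]
    have h3 : 1 / (2 * ((n : ℝ) + 1)) * (2 * ((n : ℝ) + 1)) = 1 := by field_simp
    rw [h3, one_smul, add_sub_cancel]
  rw [e] at m3
  exact m3

end Pool.Agent.helper26.CK
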