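import Pool.Agent.helper26.CK.Bd1

/-!
# CK-Bd2: piecewise linear norms on separable Banach spaces have a countable boundary

PROOF of `exists_boundary` (with `dense_linear`).
(1) Let `𝓕` be the set of all functionals `f : Y →L[ℝ] ℝ` with `f ≤ N` and such that
`{u | N u = f u}` has nonempty interior.  Different elements have disjoint interiors (if `f, g` agree on
a nonempty open set they are equal), so `𝓕` is countable (`Y` separable:
`Set.PairwiseDisjoint.countable_of_isOpen`); it is nonempty by `dense_linear`.  The set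
`D = ⋃ f ∈ 𝓕, interior {u | N u = f u}` is open and dense.
(2) Let `x` be arbitrary.  `O n = {y | ∃ t ∈ (0, 1/(n+1)), x + t • y ∈ D}` is open and dense, so by Baire
there is `y ∈ ⋂ O n`.  By `hPL` there are `ε > 0` and `c` with `N (x + t • y) = N x + t * c` on `[0, ε]`.
Take `n` with `1/(n+1) < ε` and `t ∈ (0, 1/(n+1))` with `x + t • y ∈ D`, i.e. `f (x + t • y) = N (x + t • y)`
with `f ∈ 𝓕`.  The affine function `s ↦ N x + s * c - f (x + s • y)` is `≥ 0` on `[0, ε]` and `0` at the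
interior point `t`, so it is `0` at `0`: `f x = N x`.
-/

set_option autoImplicit false

open Set Topology Filter

namespace Pool.Agent.helper26.CK

private theorem Bd2_continuous {Y : Type*} [NormedAddCommGroup Y] [NormedSpace ℝ Y] {N : Y → ℝ}
    (hN : EqNorm Y N) : Continuous N := by
  obtain ⟨c, C, _, hC, h⟩ := hN.equiv
  have h1 : ∀ x y, N x - N y ≤ C * ‖x - y‖ := by
    intro x y
    have h2 := hN.add_le (x - y) y
    rw [sub_add_cancel] at h2
    linarith [(h (x - y)).2]
  apply continuous_iff_continuousAt.2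
  intro x
  apply tendsto_order.2
  have hc : Tendsto (fun y => C * ‖y - x‖) (𝓝 x) (𝓝 0) := by
    have : Continuous fun y : Y => C * ‖y - x‖ := by fun_prop
    have h3 := this.tendsto x
    simpa using h3
  constructor
  · intro a ha
    filter_upwards [hc.eventually_lt_const (sub_pos.2 ha)] with y hy
    have h4 := h1 x y
    rw [norm_sub_rev] at h4
    linarith
  · intro a ha
    filter_upwards [hc.eventually_lt_const (sub_pos.2 ha)] with y hy
    have h4 := h1 y x
    linarith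

private theorem Bd2_unique {Y : Type*} [NormedAddCommGroup Y] [NormedSpace ℝ Y] {N : Y → ℝ}
    {f g : Y →L[ℝ] ℝ} {u : Y} (hf : u ∈ interior {u | N u = f u})
    (hg : u ∈ interior {u | N u = g u}) : f = g := by
  have h1 : {u | N u = f u} ∩ {u | N u = g u} ∈ 𝓝 u :=
    Filter.inter_mem (mem_interior_iff_mem_nhds.1 hf) (mem_interior_iff_mem_nhds.1 hg)
  ext y
  have hc : Tendsto (fun t : ℝ => u + t • y) (𝓝[>] 0) (𝓝 u) := by
    have h2 : Continuous fun t : ℝ => u + t • y := by fun_prop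
    have h3 := h2.tendsto 0
    simp only [zero_smul, add_zero] at h3
    exact h3.mono_left nhdsWithin_le_nhds
  obtain ⟨t, ht1, ht2⟩ := ((hc.eventually h1).and self_mem_nhdsWithin).exists
  have h4 := mem_of_mem_nhds h1
  have e1 : f (u + t • y) = g (u + t • y) := ht1.1.symm.trans ht1.2
  have e2 : f u = g u := h4.1.symm.trans h4.2
  rw [map_add, map_add, map_smul, map_smul, e2, add_right_inj, smul_eq_mul, smul_eq_mul] at e1
  exact mul_left_cancel₀ (ne_of_gt ht2) e1

theorem exists_boundary {Y : Type*} [NormedAddCommGroup Y] [NormedSpace ℝ Y] [CompleteSpace Y]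
    [TopologicalSpace.SeparableSpace Y] {N : Y → ℝ} (hN : EqNorm Y N)
    (hPL : ∀ x y : Y, ∃ ε > 0, ∃ c : ℝ, ∀ t ∈ Icc (0 : ℝ) ε, N (x + t • y) = N x + t * c) :
    ∃ f : ℕ → Y →L[ℝ] ℝ, (∀ i x, f i x ≤ N x) ∧ ∀ x, ∃ i, f i x = N x := by
  obtain ⟨F, hF⟩ : ∃ F : Set (Y →L[ℝ] ℝ), F = {f | (∀ y, f y ≤ N y) ∧
    (interior {u | N u = f u}).Nonempty} := ⟨_, rfl⟩
  obtain ⟨D, hD⟩ : ∃ D : Set Y, D = {x | ∃ f : Y →L[ℝ] ℝ, (∀ y, f y ≤ N y) ∧
    x ∈ interior {u | N u = f u}} := ⟨_, rfl⟩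
  have hDd : Dense D := hD ▸ dense_linear hN hPL
  have hDo : IsOpen D := by
    rw [isOpen_iff_mem_nhds, hD]
    rintro x ⟨f, hf, hx⟩
    exact Filter.mem_of_superset (isOpen_interior.mem_nhds hx) fun y hy => ⟨f, hf, hy⟩
  have hFc : F.Countable := by
    apply Set.PairwiseDisjoint.countable_of_isOpen (s := fun f : Y →L[ℝ] ℝ =>
      interior {u | N u = f u})
    · intro f _ g _ hfg
      apply Set.disjoint_left.2
      intro u hu hu'
      exact hfg (Bd2_unique hu hu')
    · intro f _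
      exact isOpen_interior
    · intro f hf
      rw [hF] at hf
      exact hf.2
  have hFn : F.Nonempty := by
    obtain ⟨x, hx⟩ := hDd.nonempty
    rw [hD] at hx
    obtain ⟨f, hf, hxf⟩ := hx
    exact ⟨f, by rw [hF]; exact ⟨hf, ⟨x, hxf⟩⟩⟩
  obtain ⟨f, hf⟩ := hFc.exists_eq_range hFn
  refine ⟨f, fun i x => ?_, fun x => ?_⟩
  · have : f i ∈ F := hf ▸ Set.mem_range_self i
    rw [hF] at this
    exact this.1 x
  · suffices h : ∃ g ∈ F, g x = N x by
      obtain ⟨g, hg, hgx⟩ := h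
      rw [hf] at hg
      obtain ⟨i, rfl⟩ := hg
      exact ⟨i, hgx⟩
    have hO : ∀ n : ℕ, IsOpen {y | ∃ t ∈ Ioo (0 : ℝ) (1 / ((n : ℝ) + 1)), x + t • y ∈ D} ∧
        Dense {y | ∃ t ∈ Ioo (0 : ℝ) (1 / ((n : ℝ) + 1)), x + t • y ∈ D} := by
      intro n
      have hn : (0 : ℝ) < 1 / ((n : ℝ) + 1) := by positivity
      constructor
      · have : {y | ∃ t ∈ Ioo (0 : ℝ) (1 / ((n : ℝ) + 1)), x + t • y ∈ D} =
            ⋃ t ∈ Ioo (0 : ℝ) (1 / ((n : ℝ) + 1)), (fun y => x + t • y) ⁻¹' D := by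
          ext y
          simp
        rw [this]
        refine isOpen_biUnion fun t _ => hDo.preimage (by fun_prop)
      · obtain ⟨t, ht⟩ : ∃ t : ℝ, t = 1 / ((n : ℝ) + 1) / 2 := ⟨_, rfl⟩
        have ht0 : 0 < t := by rw [ht]; positivity
        have ht1 : t < 1 / ((n : ℝ) + 1) := by rw [ht]; linarith
        have hom : IsOpenMap fun y : Y => x + t • y :=
          (isOpenMap_add_left x).comp (isOpenMap_smul₀ ht0.ne')
        refine (hDd.preimage hom).mono fun y hy => ⟨t, ⟨ht0, ht1⟩, hy⟩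
    obtain ⟨y, hy⟩ := (dense_iInter_of_isOpen_nat (fun n => (hO n).1) fun n => (hO n).2).nonempty
    obtain ⟨ε, hε, c, hc⟩ := hPL x y
    obtain ⟨n, hn⟩ := exists_nat_one_div_lt hε
    obtain ⟨t, ⟨ht0, ht1⟩, htD⟩ := Set.mem_iInter.1 hy n
    have htε : t < ε := ht1.trans hn
    rw [hD] at htD
    obtain ⟨g, hg, hgt⟩ := htD
    refine ⟨g, by rw [hF]; exact ⟨hg, ⟨_, hgt⟩⟩, ?_⟩
    have e0 : x + t • y ∈ {u | N u = g u} := interior_subset hgt
    have e1 : N (x + t • y) = g (x + t • y) := e0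
    rw [hc t ⟨ht0.le, htε.le⟩, map_add, map_smul, smul_eq_mul] at e1
    have e2 := hg (x + ε • y)
    rw [hc ε ⟨hε.le, le_rfl⟩, map_add, map_smul, smul_eq_mul] at e2
    have e3 := hg x
    by_contra hne
    have e4 : 0 < N x - g x := sub_pos.2 (lt_of_le_of_ne e3 hne)
    have e5 : (N x - g x) + t * (c - g y) = 0 := by linarith
    have e6 : 0 ≤ (N x - g x) + ε * (c - g y) := by linarith
    have e7 : c - g y < 0 := by
      by_contra h
      have : 0 ≤ t * (c - g y) := mul_nonneg ht0.le (not_lt.1 h)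
      linarith
    have e8 : ε * (c - g y) < t * (c - g y) := mul_lt_mul_of_neg_right htε e7
    linarith

end Pool.Agent.helper26.CK
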