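import Pool.Agent.helper26.CK.Flat

/-!
# CK-BumpDef: bump functions
-/

set_option autoImplicit false

open Set Topology Filter

namespace Pool.Agent.helper26.CK

variable {W : Type} [TopologicalSpace W] [CompactSpace W]

/-- `m` disjoint bumps in `Y`, sitting at points `t j` of `A` at which `σ * f` is almost maximal -/
def Bumps (A : Set W) (Y : Set C(W, ℝ)) (f : C(W, ℝ)) (η : ℝ) (m : ℕ) : Prop :=
  ∃ (e : Fin m → C(W, ℝ)) (t : Fin m → W) (σ : ℝ), (σ = 1 ∨ σ = -1) ∧ (∀ j, e j ∈ Y) ∧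
    (∀ j, t j ∈ A) ∧ (∀ j w, 0 ≤ e j w ∧ e j w ≤ 1) ∧ (∀ j, e j (t j) = 1) ∧
    (∀ j k, j ≠ k → ∀ w, e j w * e k w = 0) ∧ ∀ j, ∀ x ∈ A, |f x| - η ≤ σ * f (t j)

/-- a non-scattered space has a nonempty set without relatively isolated points -/
theorem exists_perfect (hW : ¬ Scattered W) : ∃ A : Set W, A.Nonempty ∧
    ∀ x ∈ A, ∀ U : Set W, IsOpen U → x ∈ U → ∃ y ∈ U ∩ A, y ≠ x := by
  rw [Scattered] at hW
  push Not at hW
  obtain ⟨A, hA, h⟩ := hW
  refine ⟨A, hA, fun x hx U hU hxU => ?_⟩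
  by_contra hcon
  push Not at hcon
  refine h x hx U hU ?_
  ext y
  constructor
  · intro hy
    exact hcon y hy
  · rintro rfl
    exact ⟨hxU, hx⟩

end Pool.Agent.helper26.CK
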