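import Mathlib

/-!
# CK: polyhedral and C¹ norms on C(K) (MP_7b0956_an), definitions
-/

set_option autoImplicit false

open Set Topology Filter

namespace Pool.Agent.helper26.CK

/-- `N` is an equivalent norm on the normed space `X` -/
structure EqNorm (X : Type*) [NormedAddCommGroup X] [NormedSpace ℝ X] (N : X → ℝ) : Prop where
  add_le : ∀ f g, N (f + g) ≤ N f + N g
  smul : ∀ (a : ℝ) f, N (a • f) = |a| * N f
  eq_zero : ∀ f, N f = 0 → f = 0
  equiv : ∃ c C : ℝ, 0 < c ∧ 0 < C ∧ ∀ f, c * ‖f‖ ≤ N f ∧ N f ≤ C * ‖f‖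

namespace EqNorm

variable {X : Type*} [NormedAddCommGroup X] [NormedSpace ℝ X] {N : X → ℝ}

theorem map_zero (h : EqNorm X N) : N 0 = 0 := by
  have := h.smul 0 0
  simpa using this

theorem map_neg (h : EqNorm X N) (x : X) : N (-x) = N x := by
  have := h.smul (-1) x
  simpa using this

theorem nonneg (h : EqNorm X N) (x : X) : 0 ≤ N x := by
  obtain ⟨c, C, hc, hC, h1⟩ := h.equiv
  exact (mul_nonneg hc.le (norm_nonneg x)).trans (h1 x).1

theorem pos (h : EqNorm X N) {x : X} (hx : x ≠ 0) : 0 < N x :=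
  lt_of_le_of_ne (h.nonneg x) fun hh => hx (h.eq_zero x hh.symm)

theorem sub_le (h : EqNorm X N) (x y : X) : N x - N y ≤ N (x - y) := by
  have := h.add_le (x - y) y
  rw [sub_add_cancel] at this
  linarith

theorem sub_comm (h : EqNorm X N) (x y : X) : N (x - y) = N (y - x) := by
  rw [← h.map_neg, neg_sub]

theorem abs_sub_le (h : EqNorm X N) (x y : X) : |N x - N y| ≤ N (x - y) := by
  rw [abs_le]
  constructor
  · have := h.sub_le y x
    rw [h.sub_comm y x] at this
    linarith
  · exact h.sub_le x y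

theorem smul_nonneg (h : EqNorm X N) {a : ℝ} (ha : 0 ≤ a) (x : X) : N (a • x) = a * N x := by
  rw [h.smul, abs_of_nonneg ha]

theorem continuous (h : EqNorm X N) : Continuous N := by
  obtain ⟨c, C, hc, hC, h1⟩ := h.equiv
  have : LipschitzWith ⟨C, hC.le⟩ N := by
    refine LipschitzWith.of_dist_le_mul fun x y => ?_
    rw [Real.dist_eq, dist_eq_norm]
    exact (h.abs_sub_le x y).trans (h1 _).2
  exact this.continuous

theorem convexOn (h : EqNorm X N) : ConvexOn ℝ univ N := by
  refine ⟨convex_univ, fun x _ y _ a b ha hb _ => ?_⟩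
  calc N (a • x + b • y) ≤ N (a • x) + N (b • y) := h.add_le _ _
    _ = a • N x + b • N y := by rw [h.smul_nonneg ha, h.smul_nonneg hb]; rfl

theorem sum_le (h : EqNorm X N) {ι : Type*} (s : Finset ι) (f : ι → X) :
    N (∑ i ∈ s, f i) ≤ ∑ i ∈ s, N (f i) := by
  classical
  induction s using Finset.induction_on with
  | empty => simp [h.map_zero]
  | insert a s ha ih =>
    rw [Finset.sum_insert ha, Finset.sum_insert ha]
    exact (h.add_le _ _).trans (by gcongr)

end EqNorm

/-- the unit ball of every finite-dimensional subspace is a polytope -/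
def Polyhedral (X : Type*) [NormedAddCommGroup X] [NormedSpace ℝ X] (N : X → ℝ) : Prop :=
  ∀ E : Submodule ℝ X, FiniteDimensional ℝ E →
    ∃ S : Finset X, {f | f ∈ E ∧ N f ≤ 1} = convexHull ℝ (S : Set X)

/-- `X` has an equivalent polyhedral norm -/
def HasPoly (X : Type*) [NormedAddCommGroup X] [NormedSpace ℝ X] : Prop :=
  ∃ N : X → ℝ, EqNorm X N ∧ Polyhedral X N

/-- `X` has an equivalent norm which is `C¹` off the origin -/
def HasC1 (X : Type*) [NormedAddCommGroup X] [NormedSpace ℝ X] : Prop :=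
  ∃ N : X → ℝ, EqNorm X N ∧ ContDiffOn ℝ 1 N {f | f ≠ 0}

/-- every nonempty subset has a relatively isolated point -/
def Scattered (K : Type) [TopologicalSpace K] : Prop :=
  ∀ A : Set K, A.Nonempty → ∃ x ∈ A, ∃ U : Set K, IsOpen U ∧ U ∩ A = {x}

end Pool.Agent.helper26.CK
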