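import Pool.Agent.helper26.CK.Defs

/-!
# CK-Flat: asymptotically flat norms and rough seminorms

`Rough Y q`: at every point and in every subspace of finite codimension `q` grows with slope about `1`.

PROOF of `exists_flat`: `N' x = ⨆ i, (1 + 2⁻¹ ^ i) * |f i x|`.  `|f i x| ≤ N x` (`f i (-x) ≤ N (-x) = N x`), so
`N x ≤ N' x ≤ 2 N x`, `N'` is an equivalent norm.  Let `x ≠ 0`; there is `i` with `|f i x| = N x > 0`, so
`N' x ≥ (1 + 2⁻¹ ^ i) N x > N x`.  Let `η = (N' x - N x) / 8 > 0` (so `η > 0`).  Choose `m` with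
`2⁻¹ ^ m * (N x + 1) < η`, and `ε` such that `N h < η` and `N h < 1`, `N' h < η` for `‖h‖ < ε`.  For `j ≥ m`:
`(1 + 2⁻¹ ^ j) |f j (x + h)| ≤ (1 + 2⁻¹ ^ m) (N x + N h) ≤ N x + 4 η ≤ N' x`; and for
`j < m`, `f j h = 0`: `(1 + 2⁻¹ ^ j) |f j (x + h)| = (1 + 2⁻¹ ^ j) |f j x| ≤ N' x`.  So `N' (x + h) ≤ N' x` with
`J = {f j | j < m}`.
-/

set_option autoImplicit false

open Set Topology Filter

namespace Pool.Agent.helper26.CK

variable {Y : Type*} [NormedAddCommGroup Y] [NormedSpace ℝ Y]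

/-- a rough function -/
structure Rough (Y : Type*) [NormedAddCommGroup Y] [NormedSpace ℝ Y] (q : Y → ℝ) : Prop where
  cont : Continuous q
  le : ∀ x, q x ≤ ‖x‖
  pos : ∃ x, 0 < q x
  rough : ∀ (x : Y) (δ r : ℝ) (J : Finset (Y →L[ℝ] ℝ)), 0 < δ → 0 < r →
    ∃ h, ‖h‖ = r ∧ (∀ g ∈ J, g h = 0) ∧ q x + (1 - δ) * r ≤ q (x + h)

theorem Flat_abs_le {N : Y → ℝ} (hN : EqNorm Y N) {g : Y →L[ℝ] ℝ} (h1 : ∀ x, g x ≤ N x) (x : Y) :
    |g x| ≤ N x := by
  rw [abs_le]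
  refine ⟨?_, h1 x⟩
  have := h1 (-x)
  rw [map_neg, hN.map_neg] at this
  linarith

theorem exists_flat {N : Y → ℝ} (hN : EqNorm Y N) (f : ℕ → Y →L[ℝ] ℝ) (h1 : ∀ i x, f i x ≤ N x)
    (h2 : ∀ x, ∃ i, f i x = N x) : ∃ N' : Y → ℝ, EqNorm Y N' ∧ ∀ x, x ≠ 0 →
      ∃ ε > 0, ∃ J : Finset (Y →L[ℝ] ℝ), ∀ h, ‖h‖ < ε → (∀ g ∈ J, g h = 0) → N' (x + h) ≤ N' x := by
  classical
  have hab : ∀ i x, |f i x| ≤ N x := fun i x => Flat_abs_le hN (h1 i) x
  have hw0 : ∀ i : ℕ, (0:ℝ) < (1 / 2) ^ i := fun i => by positivity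
  have hw1 : ∀ i : ℕ, (1 / 2 : ℝ) ^ i ≤ 1 := fun i => pow_le_one₀ (by norm_num) (by norm_num)
  have hterm : ∀ i x, (1 + (1 / 2 : ℝ) ^ i) * |f i x| ≤ 2 * N x := by
    intro i x
    have := hw1 i
    have := hw0 i
    exact mul_le_mul (by linarith) (hab i x) (abs_nonneg _) (by norm_num)
  have hbdd : ∀ x, BddAbove (range fun i : ℕ => (1 + (1 / 2 : ℝ) ^ i) * |f i x|) := by
    intro x
    refine ⟨2 * N x, ?_⟩
    rintro _ ⟨i, rfl⟩
    exact hterm i x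
  obtain ⟨N', hN'⟩ : ∃ N' : Y → ℝ, N' = fun x => ⨆ i : ℕ, (1 + (1 / 2 : ℝ) ^ i) * |f i x| :=
    ⟨_, rfl⟩
  have hle : ∀ i x, (1 + (1 / 2 : ℝ) ^ i) * |f i x| ≤ N' x := by
    intro i x
    rw [hN']
    exact le_ciSup (hbdd x) i
  have hsup : ∀ x M, (∀ i : ℕ, (1 + (1 / 2 : ℝ) ^ i) * |f i x| ≤ M) → N' x ≤ M := by
    intro x M h
    rw [hN']
    exact ciSup_le h
  have hNN' : ∀ x, N x ≤ N' x := by
    intro x
    obtain ⟨i, hi⟩ := h2 x
    refine le_trans ?_ (hle i x)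
    have h3 : N x ≤ |f i x| := by rw [← hi]; exact le_abs_self _
    have := hw0 i
    nlinarith [abs_nonneg (f i x)]
  have hN'2 : ∀ x, N' x ≤ 2 * N x := fun x => hsup x _ fun i => hterm i x
  have eN' : EqNorm Y N' := by
    refine ⟨fun x y => ?_, fun a x => ?_, fun x hx => ?_, ?_⟩
    · refine hsup _ _ fun i => ?_
      have h3 : |f i (x + y)| ≤ |f i x| + |f i y| := by rw [map_add]; exact abs_add_le _ _
      have := hw0 i
      calc (1 + (1 / 2 : ℝ) ^ i) * |f i (x + y)| ≤ (1 + (1 / 2 : ℝ) ^ i) * (|f i x| + |f i y|) :=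
            mul_le_mul_of_nonneg_left h3 (by linarith)
        _ = (1 + (1 / 2 : ℝ) ^ i) * |f i x| + (1 + (1 / 2 : ℝ) ^ i) * |f i y| := by ring
        _ ≤ N' x + N' y := add_le_add (hle i x) (hle i y)
    · rw [hN']
      simp only
      rw [Real.mul_iSup_of_nonneg (abs_nonneg a)]
      congr 1
      funext i
      rw [map_smul, smul_eq_mul, abs_mul]
      ring
    · refine hN.eq_zero x (le_antisymm ((hNN' x).trans hx.le) (hN.nonneg x))
    · obtain ⟨c, C, hc, hC, hcC⟩ := hN.equiv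
      refine ⟨c, 2 * C, hc, by positivity, fun x => ⟨(hcC x).1.trans (hNN' x), ?_⟩⟩
      have := (hcC x).2
      have := hN'2 x
      linarith
  refine ⟨N', eN', fun x hx => ?_⟩
  have hNx := hN.pos hx
  have hlt : N x < N' x := by
    obtain ⟨i, hi⟩ := h2 x
    refine lt_of_lt_of_le ?_ (hle i x)
    have h3 : N x ≤ |f i x| := by rw [← hi]; exact le_abs_self _
    have := hw0 i
    nlinarith [abs_nonneg (f i x)]
  obtain ⟨η, hη, hη0⟩ : ∃ η : ℝ, η = (N' x - N x) / 8 ∧ 0 < η := ⟨_, rfl, by linarith⟩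
  obtain ⟨m, hm⟩ : ∃ m : ℕ, (1 / 2 : ℝ) ^ m < η / (N x + 1) :=
    exists_pow_lt_of_lt_one (by positivity) (by norm_num)
  have hm' : (1 / 2 : ℝ) ^ m * (N x + 1) < η := by
    rwa [lt_div_iff₀ (by positivity)] at hm
  have hcont : Tendsto N (𝓝 0) (𝓝 0) := by
    simpa [hN.map_zero] using hN.continuous.tendsto 0
  have hev : ∀ᶠ h in 𝓝 (0 : Y), N h < min η 1 :=
    hcont.eventually (gt_mem_nhds (lt_min hη0 one_pos))
  obtain ⟨ε, hε, hball⟩ := Metric.eventually_nhds_iff.1 hev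
  refine ⟨ε, hε, (Finset.range m).image f, fun h hh hJ => ?_⟩
  have hNh : N h < min η 1 := hball (by rwa [dist_zero_right])
  have hNh1 : N h < η := hNh.trans_le (min_le_left _ _)
  have hNh2 : N h < 1 := hNh.trans_le (min_le_right _ _)
  have hNh0 := hN.nonneg h
  refine hsup _ _ fun j => ?_
  by_cases hj : j < m
  · have h3 : f j h = 0 := hJ _ (Finset.mem_image_of_mem _ (Finset.mem_range.2 hj))
    rw [map_add, h3, add_zero]
    exact hle j x
  · push Not at hj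
    have h3 : |f j (x + h)| ≤ N x + N h := (hab j _).trans (hN.add_le x h)
    have h4 : (1 / 2 : ℝ) ^ j ≤ (1 / 2) ^ m := pow_le_pow_of_le_one (by norm_num) (by norm_num) hj
    have h5 := hw0 j
    have h6 := hw0 m
    calc (1 + (1 / 2 : ℝ) ^ j) * |f j (x + h)| ≤ (1 + (1 / 2 : ℝ) ^ m) * (N x + N h) :=
          mul_le_mul (by linarith) h3 (abs_nonneg _) (by linarith)
      _ = N x + N h + (1 / 2 : ℝ) ^ m * (N x + N h) := by ring
      _ ≤ N x + N h + (1 / 2 : ℝ) ^ m * (N x + 1) := by gcongr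
      _ ≤ N x + η + η := by linarith
      _ ≤ N' x := by linarith

end Pool.Agent.helper26.CK
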