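import Pool.Agent.helper26.CK.Flat

/-!
# CK-Flat2: a rough function is incompatible with a flat norm

(In Lean the relation is `q x + (1/2) * ‖y - x‖ ≤ q y` and `N y ≤ N x + 2 δ (q y - q x)`, which is
transitive; the second half of the relation below is not.)

PROOF of `no_flat`: let `c * ‖x‖ ≤ N x`, `C = 1 / c`, `δ = 1 / (2 (1 + C))`, so `(1 - δ) - C δ ≥ 1/2`.
Define `x ≼ y` iff `q x + (1 - δ) * ‖y - x‖ ≤ q y` and `N y ≤ N x + δ * ‖y - x‖`: reflexive, transitive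
(triangle inequality), closed in `y` and in `x`.  Fix `x0` with `q x0 > 0`.  For `y` with `x0 ≼ y`:
`q x0 + (1 - δ) ‖y - x0‖ ≤ q y ≤ ‖y‖ ≤ C N y ≤ C (N x0 + δ ‖y - x0‖)`, so `‖y - x0‖ ≤ 2 C N x0`: bounded.
Build a sequence `x n` from `x0` with `x n ≼ x (n+1)` and
`‖x (n+1) - x n‖ ≥ (1/2) sup {‖y - x n‖ : x n ≼ y}` (the sup is finite).  As `q (x n)` increases by at least
`(1 - δ) ‖x (n+1) - x n‖ ≥ (1/2) ‖x (n+1) - x n‖` and stays bounded, `∑ ‖x (n+1) - x n‖ < ∞`, so `x n → z`.  By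
closedness `x n ≼ z` for all `n`, and if `z ≼ y` then `x n ≼ y`, so `‖y - x n‖ ≤ 2 ‖x (n+1) - x n‖ → 0`,
`y = z`.  But `q z ≥ q x0 > 0`, so `z ≠ 0` (`q 0 ≤ ‖0‖ = 0`); take `ε, J` from `hflat` for `δ`, `z`, and `h` from
`Rough.rough` with `r = ε / 2`: then `z ≼ z + h` and `h ≠ 0`, a contradiction.
(An alternative to the sequence: Zorn.)
-/

set_option autoImplicit false

open Set Topology Filter

namespace Pool.Agent.helper26.CK

variable {Y : Type*} [NormedAddCommGroup Y] [NormedSpace ℝ Y]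

omit [NormedSpace ℝ Y] in
/-- an Ekeland type principle: a closed transitive relation along which `q` grows linearly and stays
bounded has a maximal element above every point -/
theorem Flat2_exists_max [CompleteSpace Y] {q : Y → ℝ} (R : Y → Y → Prop)
    (hrefl : ∀ x, R x x) (htrans : ∀ x y z, R x y → R y z → R x z)
    (hclosed : ∀ x, IsClosed {y | R x y}) (hgrow : ∀ x y, R x y → ‖y - x‖ ≤ 2 * (q y - q x))
    (x0 : Y) (B : ℝ) (hB : ∀ y, R x0 y → q y ≤ B) : ∃ z, R x0 z ∧ ∀ y, R z y → y = z := by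
  have step : ∀ (n : ℕ) (x : {x : Y // R x0 x}), ∃ y : {x : Y // R x0 x}, R x y ∧
      ∀ y', R x y' → q y' ≤ q y + (1 / 2) ^ n := by
    intro n x
    have hbdd : BddAbove (q '' {y | R x y}) := by
      refine ⟨B, ?_⟩
      rintro _ ⟨y, hy, rfl⟩
      exact hB y (htrans _ _ _ x.2 hy)
    have hne : (q '' {y | R x y}).Nonempty := ⟨_, x, hrefl x, rfl⟩
    have hlt : sSup (q '' {y | R x y}) - (1 / 2) ^ n < sSup (q '' {y | R x y}) := by
      have : (0:ℝ) < (1 / 2) ^ n := by positivity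
      linarith
    obtain ⟨_, ⟨y, hy, rfl⟩, hlt'⟩ := exists_lt_of_lt_csSup hne hlt
    refine ⟨⟨y, htrans _ _ _ x.2 hy⟩, hy, fun y' hy' => ?_⟩
    have := le_csSup hbdd ⟨y', hy', rfl⟩
    simp only
    linarith
  choose nxt hn1 hn2 using step
  obtain ⟨x, hx0, hxs⟩ : ∃ x : ℕ → {x : Y // R x0 x}, x 0 = ⟨x0, hrefl x0⟩ ∧
      ∀ n, x (n + 1) = nxt n (x n) :=
    ⟨fun n => Nat.rec ⟨x0, hrefl x0⟩ (fun n y => nxt n y) n, rfl, fun n => rfl⟩
  have hR : ∀ n m, n ≤ m → R (x n) (x m) := by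
    intro n m hnm
    induction m, hnm using Nat.le_induction with
    | base => exact hrefl _
    | succ m hm ih =>
      refine htrans _ _ _ ih ?_
      rw [hxs m]
      exact hn1 m (x m)
  have hmono : Monotone fun n => q (x n) := by
    intro n m hnm
    have := hgrow _ _ (hR n m hnm)
    have h2 := norm_nonneg ((x m : Y) - x n)
    simp only
    linarith
  have hbd : BddAbove (range fun n => q (x n)) := by
    refine ⟨B, ?_⟩
    rintro _ ⟨n, rfl⟩
    exact hB _ (x n).2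
  have hcauchy : CauchySeq fun n => (x n : Y) := by
    have h1 : CauchySeq fun n => q (x n) := (tendsto_atTop_ciSup hmono hbd).cauchySeq
    rw [Metric.cauchySeq_iff'] at h1 ⊢
    intro ε hε
    obtain ⟨M, hM⟩ := h1 (ε / 2) (by positivity)
    refine ⟨M, fun n hn => ?_⟩
    have h2 := hM n hn
    rw [Real.dist_eq] at h2
    rw [dist_eq_norm]
    have h3 := hgrow _ _ (hR M n hn)
    have h4 := le_abs_self (q (x n) - q (x M))
    linarith
  obtain ⟨z, hz⟩ := cauchySeq_tendsto_of_complete hcauchy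
  have hRz : ∀ n, R (x n) z := by
    intro n
    refine (hclosed (x n)).mem_of_tendsto hz ?_
    filter_upwards [eventually_ge_atTop n] with m hm
    exact hR n m hm
  have hx0z : R x0 z := by
    have := hRz 0
    rwa [hx0] at this
  refine ⟨z, hx0z, fun y hy => ?_⟩
  have h1 : ∀ n : ℕ, ‖y - z‖ ≤ 2 * (1 / 2) ^ n := by
    intro n
    have h2 := hn2 n (x n) y (htrans _ _ _ (hRz n) hy)
    rw [← hxs n] at h2
    have h3 := hgrow _ _ (hRz (n + 1))
    have h4 := norm_nonneg (z - (x (n + 1) : Y))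
    have h5 := hgrow _ _ hy
    linarith
  have h2 : Tendsto (fun n : ℕ => 2 * (1 / 2 : ℝ) ^ n) atTop (𝓝 (2 * 0)) :=
    (tendsto_pow_atTop_nhds_zero_of_lt_one (by norm_num) (by norm_num)).const_mul 2
  rw [mul_zero] at h2
  have h3 : ‖y - z‖ ≤ 0 := ge_of_tendsto' h2 h1
  exact sub_eq_zero.1 (norm_le_zero_iff.1 h3)

theorem no_flat [CompleteSpace Y] {q : Y → ℝ} (hq : Rough Y q) {N : Y → ℝ} (hN : EqNorm Y N)
    (hflat : ∀ δ > 0, ∀ x, x ≠ 0 → ∃ ε > 0, ∃ J : Finset (Y →L[ℝ] ℝ), ∀ h, ‖h‖ < ε →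
      (∀ g ∈ J, g h = 0) → N (x + h) ≤ N x + δ * ‖h‖) : False := by
  obtain ⟨c, C, hc, hC, hcC⟩ := hN.equiv
  obtain ⟨δ, hδ0, hδ1, hδ2⟩ : ∃ δ : ℝ, 0 < δ ∧ δ ≤ 1 / 2 ∧ δ ≤ c / 4 :=
    ⟨min (1 / 2) (c / 4), by positivity, min_le_left _ _, min_le_right _ _⟩
  obtain ⟨x0, hx0⟩ := hq.pos
  have hNc := hN.continuous
  have hqc := hq.cont
  have hgrow : ∀ x y : Y, q x + 1 / 2 * ‖y - x‖ ≤ q y ∧ N y ≤ N x + 2 * δ * (q y - q x) →
      ‖y - x‖ ≤ 2 * (q y - q x) := by
    rintro x y ⟨h1, -⟩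
    linarith
  obtain ⟨z, hz, hmax⟩ := Flat2_exists_max
    (fun x y => q x + 1 / 2 * ‖y - x‖ ≤ q y ∧ N y ≤ N x + 2 * δ * (q y - q x))
    (fun x => ⟨by simp, by simp⟩)
    (fun x y z h1 h2 => by
      refine ⟨?_, ?_⟩
      · have h3 : ‖z - x‖ ≤ ‖z - y‖ + ‖y - x‖ := norm_sub_le_norm_sub_add_norm_sub z y x
        linarith [h1.1, h2.1]
      · linarith [h1.2, h2.2])
    (fun x => by
      refine IsClosed.inter (isClosed_le (by fun_prop) hqc) (isClosed_le hNc (by fun_prop)))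
    hgrow x0 (2 * N x0 / c) (fun y hy => by
      have h1 := hgrow x0 y hy
      have h2 := norm_nonneg (y - x0)
      have h3 := (hcC y).1
      have h4 := hq.le y
      have h5 := hy.2
      have h6 : c * q y ≤ c * ‖y‖ := mul_le_mul_of_nonneg_left h4 hc.le
      have h7 : 2 * δ * (q y - q x0) ≤ c / 2 * (q y - q x0) :=
        mul_le_mul_of_nonneg_right (by linarith) (by linarith)
      rw [le_div_iff₀ hc]
      nlinarith)
  have hqz : 0 < q z := by
    have := norm_nonneg (z - x0)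
    linarith [hz.1]
  have hz0 : z ≠ 0 := by
    rintro rfl
    have := hq.le 0
    rw [norm_zero] at this
    linarith
  obtain ⟨ε, hε, J, hJ⟩ := hflat δ hδ0 z hz0
  obtain ⟨h, hh1, hh2, hh3⟩ := hq.rough z δ (ε / 2) J hδ0 (by positivity)
  have h4 := hJ h (by rw [hh1]; linarith) hh2
  have h5 : (1 / 2 : ℝ) * (ε / 2) ≤ (1 - δ) * (ε / 2) :=
    mul_le_mul_of_nonneg_right (by linarith) (by positivity)
  have h6 : z + h = z := by
    refine hmax _ ⟨?_, ?_⟩
    · rw [add_sub_cancel_left, hh1]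
      linarith
    · have h7 : δ * ‖h‖ ≤ 2 * δ * (q (z + h) - q z) := by
        rw [hh1]
        have : ε / 2 ≤ 2 * (q (z + h) - q z) := by linarith
        calc δ * (ε / 2) ≤ δ * (2 * (q (z + h) - q z)) := mul_le_mul_of_nonneg_left this hδ0.le
          _ = 2 * δ * (q (z + h) - q z) := by ring
      linarith
  have h7 : h = 0 := by simpa using h6
  rw [h7, norm_zero] at hh1
  linarith

end Pool.Agent.helper26.CK
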