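import Pool.Agent.helper26.CK.TSys

/-!
# CK-GSys: Talagrand systems with countably many classes and thresholds give C¹ norms
-/

set_option autoImplicit false

open Set Topology Filter

namespace Pool.Agent.helper26.CK

/-- an abstract Talagrand system with classes: in the class `c`, only finitely many indices `i` have
`ν (e i y)` close to `P y` (up to the factor `1 - τ c`) and `ν (t i y) ≥ ε` -/
structure GSys (Y X : Type*) [NormedAddCommGroup Y] [NormedSpace ℝ Y] [NormedAddCommGroup X]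
    [NormedSpace ℝ X] (I : Type*) (ν : X → ℝ) (P : Y → ℝ) where
  /-- the class of an index -/
  cls : I → ℕ
  /-- the thresholds -/
  τ : ℕ → ℝ
  τ_pos : ∀ c, 0 < τ c
  τ_le : ∀ c, τ c ≤ 1
  /-- evaluations -/
  e : I → Y →L[ℝ] X
  /-- jumps -/
  t : I → Y →L[ℝ] X
  he : ∀ i y, ν (e i y) ≤ P y
  ht : ∀ i y, ν (t i y) ≤ 2 * P y
  fin : ∀ (c : ℕ) (y : Y) (ε : ℝ), 0 < ε →
    {i | cls i = c ∧ (1 - τ c) * P y ≤ ν (e i y) ∧ ε ≤ ν (t i y)}.Finite
  catch_ : ∀ y, y ≠ 0 → ∃ i, ν (e i y) = P y ∧ t i y ≠ 0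

variable {Y X : Type*} [NormedAddCommGroup Y] [NormedSpace ℝ Y] [NormedAddCommGroup X]
    [NormedSpace ℝ X] {I : Type*} {ν : X → ℝ} {P : Y → ℝ}

namespace GSys

/-- the weights -/
noncomputable def kp (T : GSys Y X I ν P) (p : ℕ × I) : ℝ :=
  T.τ (T.cls p.2) * (1 / 2) ^ (T.cls p.2 + p.1 + 3)

/-- the argument of one term -/
noncomputable def arg (T : GSys Y X I ν P) (p : ℕ × I) (y : Y) : ℝ :=
  (ν (T.e p.2 y) + T.kp p * sp (ν (T.t p.2 y) - dl p.1) - 1) / (T.kp p * dl p.1 ^ 2)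

/-- one term -/
noncomputable def term (T : GSys Y X I ν P) (p : ℕ × I) (y : Y) : ℝ := sp (T.arg p y)

/-- the function -/
noncomputable def F (T : GSys Y X I ν P) (y : Y) : ℝ := ∑' p, T.term p y

variable (T : GSys Y X I ν P)

theorem kp_pos (p : ℕ × I) : 0 < T.kp p := by
  have := T.τ_pos (T.cls p.2)
  unfold kp; positivity

theorem kp_le (p : ℕ × I) : T.kp p ≤ 1 / 8 := by
  unfold kp
  have h1 := T.τ_le (T.cls p.2)
  have h2 : ((1 : ℝ) / 2) ^ (T.cls p.2 + p.1 + 3) ≤ (1 / 2) ^ 3 :=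
    pow_le_pow_of_le_one (by norm_num) (by norm_num) (by omega)
  calc T.τ (T.cls p.2) * (1 / 2) ^ (T.cls p.2 + p.1 + 3) ≤ 1 * (1 / 2) ^ 3 := by gcongr
    _ = 1 / 8 := by norm_num

theorem kp_le_tau (p : ℕ × I) : T.kp p * 4 ≤ T.τ (T.cls p.2) / 2 := by
  unfold kp
  have h1 := T.τ_pos (T.cls p.2)
  have h2 : ((1 : ℝ) / 2) ^ (T.cls p.2 + p.1 + 3) ≤ (1 / 2) ^ 3 :=
    pow_le_pow_of_le_one (by norm_num) (by norm_num) (by omega)
  calc T.τ (T.cls p.2) * (1 / 2) ^ (T.cls p.2 + p.1 + 3) * 4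
      ≤ T.τ (T.cls p.2) * (1 / 2) ^ 3 * 4 := by gcongr
    _ = T.τ (T.cls p.2) / 2 := by ring

theorem kp_small {n0 : ℕ} (p : ℕ × I) (h : n0 ≤ T.cls p.2 + p.1) : T.kp p * 4 ≤ (1 / 2) ^ n0 := by
  unfold kp
  have h1 := T.τ_le (T.cls p.2)
  have h2 : ((1 : ℝ) / 2) ^ (T.cls p.2 + p.1 + 3) ≤ (1 / 2) ^ (n0 + 3) :=
    pow_le_pow_of_le_one (by norm_num) (by norm_num) (by omega)
  have h3 : ((1 : ℝ) / 2) ^ (n0 + 3) = (1 / 2) ^ n0 / 8 := by rw [pow_add]; ring
  have h4 : (0 : ℝ) < (1 / 2) ^ n0 := by positivity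
  calc T.τ (T.cls p.2) * (1 / 2) ^ (T.cls p.2 + p.1 + 3) * 4 ≤ 1 * (1 / 2) ^ (n0 + 3) * 4 := by
        gcongr
    _ ≤ (1 / 2) ^ n0 := by rw [h3]; linarith

theorem term_nonneg (p : ℕ × I) (y : Y) : 0 ≤ T.term p y := sp_nonneg _

theorem term_zero_of {p : ℕ × I} {y : Y}
    (h : ν (T.e p.2 y) + T.kp p * sp (ν (T.t p.2 y) - dl p.1) ≤ 1) : T.term p y = 0 := by
  apply sp_zero_of
  apply div_nonpos_of_nonpos_of_nonneg
  · linarith
  · have := T.kp_pos p
    have := dl_pos p.1
    positivity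

theorem sp_le (p : ℕ × I) (y : Y) (hy : P y ≤ 1) :
    sp (ν (T.t p.2 y) - dl p.1) ≤ 4 := by
  have h1 := T.ht p.2 y
  have h2 := dl_pos p.1
  calc sp (ν (T.t p.2 y) - dl p.1) ≤ sp 2 := monotone_sp (by linarith)
    _ = 4 := by rw [sp_of_nonneg (by norm_num)]; norm_num

/-- local finiteness -/
theorem loc_fin (hν : EqNorm X ν) (hP : EqNorm Y P) {y0 : Y} (hy0 : P y0 < 1) :
    ∃ A : Finset (ℕ × I), ∀ᶠ y in 𝓝 y0, ∀ p, p ∉ A → T.term p y = 0 := by
  classical
  set a := (1 - P y0) / 2 with ha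
  have ha0 : 0 < a := by rw [ha]; linarith
  obtain ⟨n0, hn0⟩ := exists_pow_lt_of_lt_one ha0 (by norm_num : (1 / 2 : ℝ) < 1)
  have hfin : (⋃ c ∈ Finset.range n0, {i | T.cls i = c ∧ (1 - T.τ c) * P y0 ≤ ν (T.e i y0) ∧
      dl n0 / 2 ≤ ν (T.t i y0)}).Finite :=
    (Finset.range n0).finite_toSet.biUnion fun c _ => T.fin c y0 _ (half_pos (dl_pos n0))
  refine ⟨(Finset.range n0) ×ˢ hfin.toFinset, ?_⟩
  have e1 : ∀ᶠ y in 𝓝 y0, P y < 1 - a := by
    have : Tendsto P (𝓝 y0) (𝓝 (P y0)) := hP.continuous.continuousAt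
    exact this.eventually_lt_const (by rw [ha]; linarith)
  have hsmall : ∀ r : ℝ, 0 < r → ∀ᶠ y in 𝓝 y0, P (y - y0) < r := by
    intro r hr
    have : Tendsto (fun y => P (y - y0)) (𝓝 y0) (𝓝 (P (y0 - y0))) :=
      (hP.continuous.comp (continuous_id.sub continuous_const)).continuousAt
    refine this.eventually_lt_const ?_
    rw [sub_self, hP.map_zero]
    exact hr
  have e2 := hsmall (dl n0 / 4) (by have := dl_pos n0; linarith)
  have e3 : ∀ᶠ y in 𝓝 y0, ∀ c ∈ Finset.range n0, P (y - y0) < T.τ c / 2 := by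
    rw [Finset.eventually_all]
    intro c _
    exact hsmall _ (half_pos (T.τ_pos c))
  filter_upwards [e1, e2, e3] with y hy1 hy2 hy3
  rintro ⟨n, i⟩ hp
  apply T.term_zero_of
  have hpos := T.kp_pos (n, i)
  have hsp := T.sp_le (n, i) y (by linarith)
  have hsp0 := sp_nonneg (ν (T.t i y) - dl n)
  have he := T.he i y
  by_cases hn : n0 ≤ T.cls i + n
  · have h1 := T.kp_small (n, i) (n0 := n0) hn
    simp only at hsp h1 ⊢
    nlinarith
  · have hc : T.cls i < n0 := by omega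
    have hn' : n < n0 := by omega
    have hi : i ∉ hfin.toFinset := fun h => hp (by
      rw [Finset.mem_product, Finset.mem_range]; exact ⟨hn', h⟩)
    rw [Set.Finite.mem_toFinset] at hi
    have hi' : ¬ ((1 - T.τ (T.cls i)) * P y0 ≤ ν (T.e i y0) ∧ dl n0 / 2 ≤ ν (T.t i y0)) := by
      intro h
      exact hi (mem_iUnion₂.2 ⟨T.cls i, Finset.mem_range.2 hc, rfl, h⟩)
    have hadd : ∀ S : Y →L[ℝ] X, ν (S y) ≤ ν (S y0) + ν (S (y - y0)) := by
      intro S
      have := hν.add_le (S y0) (S (y - y0))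
      rw [← map_add, add_sub_cancel] at this
      exact this
    by_cases ht : dl n0 / 2 ≤ ν (T.t i y0)
    · have hen : ν (T.e i y0) < (1 - T.τ (T.cls i)) * P y0 := by
        by_contra hcon
        exact hi' ⟨not_lt.1 hcon, ht⟩
      have h1 := hadd (T.e i)
      have h2 := T.he i (y - y0)
      have h3 := hy3 (T.cls i) (Finset.mem_range.2 hc)
      have h4 := T.kp_le_tau (n, i)
      have h5 := T.τ_le (T.cls i)
      have h6 := hP.nonneg y0
      have h7 : (1 - T.τ (T.cls i)) * P y0 ≤ 1 - T.τ (T.cls i) := by nlinarith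
      simp only at hsp h4 ⊢
      nlinarith
    · have h1 := hadd (T.t i)
      have h2 := T.ht i (y - y0)
      have h3 : dl n0 ≤ dl n := by
        unfold dl
        exact pow_le_pow_of_le_one (by norm_num) (by norm_num) hn'.le
      have h4 : sp (ν (T.t i y) - dl n) = 0 := sp_zero_of (by linarith)
      simp only
      rw [h4]
      linarith

theorem summable (hν : EqNorm X ν) (hP : EqNorm Y P) {y : Y} (hy : P y < 1) :
    Summable fun p => T.term p y := by
  obtain ⟨A, hA⟩ := T.loc_fin hν hP hy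
  have h1 := hA.self_of_nhds
  exact summable_of_ne_finset_zero (s := A) fun p hp => h1 p hp

theorem convexOn_term (hν : EqNorm X ν) (p : ℕ × I) : ConvexOn ℝ univ (T.term p) := by
  have hsp : ∀ g : Y → ℝ, ConvexOn ℝ univ g → ConvexOn ℝ univ fun y => sp (g y) := by
    intro g hg
    refine ⟨convex_univ, fun x hx y hy a b ha hb hab => ?_⟩
    calc sp (g (a • x + b • y)) ≤ sp (a • g x + b • g y) := monotone_sp (hg.2 hx hy ha hb hab)
      _ ≤ a • sp (g x) + b • sp (g y) := convexOn_sp.2 (mem_univ _) (mem_univ _) ha hb hab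
  have h1 : ConvexOn ℝ univ fun y => ν (T.e p.2 y) :=
    hν.convexOn.comp_linearMap (T.e p.2 : Y →ₗ[ℝ] X)
  have h2 : ConvexOn ℝ univ fun y => ν (T.t p.2 y) :=
    hν.convexOn.comp_linearMap (T.t p.2 : Y →ₗ[ℝ] X)
  have h3 : ConvexOn ℝ univ fun y => sp (ν (T.t p.2 y) - dl p.1) :=
    hsp _ (h2.sub (concaveOn_const _ convex_univ))
  have h4 : ConvexOn ℝ univ fun y => ν (T.e p.2 y) + T.kp p * sp (ν (T.t p.2 y) - dl p.1) - 1 :=
    (h1.add (h3.smul (T.kp_pos p).le)).sub (concaveOn_const _ convex_univ)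
  have h5 : ConvexOn ℝ univ (T.arg p) := by
    have := h4.smul (c := (T.kp p * dl p.1 ^ 2)⁻¹)
      (by have := T.kp_pos p; have := dl_pos p.1; positivity)
    refine this.congr ?_
    intro y _
    simp only [smul_eq_mul, arg]
    rw [div_eq_inv_mul]
  exact hsp _ h5

theorem contDiffAt_term (hν : EqNorm X ν) (hν1 : ContDiffOn ℝ 1 ν {f | f ≠ 0})
    (hP : EqNorm Y P) (p : ℕ × I) {y : Y} (hy : P y < 1) : ContDiffAt ℝ 1 (T.term p) y := by
  have h0 : ContDiff ℝ 1 fun y => sp (ν (T.t p.2 y) - dl p.1) :=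
    (cd_sp hν hν1 (dl_pos p.1)).comp (T.t p.2).contDiff
  by_cases hx : T.e p.2 y = 0
  · have e1 : ∀ᶠ z in 𝓝 y, ν (T.e p.2 z) < 1 / 2 := by
      have : Tendsto (fun z => ν (T.e p.2 z)) (𝓝 y) (𝓝 (ν (T.e p.2 y))) :=
        (hν.continuous.comp (T.e p.2).continuous).continuousAt
      refine this.eventually_lt_const ?_
      rw [hx, hν.map_zero]; norm_num
    have e2 : ∀ᶠ z in 𝓝 y, P z < 1 := by
      have : Tendsto P (𝓝 y) (𝓝 (P y)) := hP.continuous.continuousAt
      exact this.eventually_lt_const hy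
    have h2 : T.term p =ᶠ[𝓝 y] fun _ => 0 := by
      filter_upwards [e1, e2] with z hz1 hz2
      apply T.term_zero_of
      have h1 := T.sp_le p z hz2.le
      have h2 := T.kp_le p
      have h3 := T.kp_pos p
      nlinarith
    exact contDiffAt_const.congr_of_eventuallyEq h2
  · have h1 : ContDiffAt ℝ 1 (fun y => ν (T.e p.2 y)) y := by
      have : ContDiffAt ℝ 1 ν (T.e p.2 y) :=
        (hν1 _ hx).contDiffAt (isOpen_ne.mem_nhds hx)
      exact this.comp y (T.e p.2).contDiff.contDiffAt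
    have h2 : ContDiffAt ℝ 1 (T.arg p) y := by
      unfold arg
      exact ((h1.add (contDiffAt_const.mul h0.contDiffAt)).sub contDiffAt_const).div_const _
    exact contDiff_sp.contDiffAt.comp y h2

include T in
theorem hasC1 (hν : EqNorm X ν) (hν1 : ContDiffOn ℝ 1 ν {f | f ≠ 0})
    (hP : EqNorm Y P) : HasC1 Y := by
  classical
  refine hasC1_of_fun P T.F hP ?_ ?_ ?_ ?_ ?_
  · refine ⟨?_, fun x hx y hy a b ha hb hab => ?_⟩
    · have := hP.convexOn.convex_lt 1
      simpa using this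
    · have hxy : P (a • x + b • y) < 1 := by
        have := (hP.convexOn.convex_lt 1)
        have h := this (x := x) ⟨mem_univ _, hx⟩ (y := y) ⟨mem_univ _, hy⟩ ha hb hab
        exact h.2
      have h1 := T.summable hν hP (y := x) hx
      have h2 := T.summable hν hP (y := y) hy
      have h3 := T.summable hν hP hxy
      calc T.F (a • x + b • y) = ∑' p, T.term p (a • x + b • y) := rfl
        _ ≤ ∑' p, (a * T.term p x + b * T.term p y) := by
            refine h3.tsum_le_tsum (fun p => ?_) ((h1.mul_left a).add (h2.mul_left b))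
            exact (T.convexOn_term hν p).2 (mem_univ _) (mem_univ _) ha hb hab
        _ = a * ∑' p, T.term p x + b * ∑' p, T.term p y := by
            rw [(h1.mul_left a).tsum_add (h2.mul_left b), tsum_mul_left, tsum_mul_left]
        _ = a • T.F x + b • T.F y := rfl
  · intro y
    unfold F
    congr 1
    ext p
    unfold term arg
    rw [map_neg, map_neg, hν.map_neg, hν.map_neg]
  · intro y hy
    unfold F
    have : ∀ p, T.term p y = 0 := by
      intro p
      apply T.term_zero_of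
      have h1 := T.he p.2 y
      have h2 := T.ht p.2 y
      have h3 : sp (ν (T.t p.2 y) - dl p.1) ≤ 1 := by
        have h2' := dl_pos p.1
        calc sp (ν (T.t p.2 y) - dl p.1) ≤ sp 1 := monotone_sp (by linarith)
          _ = 1 := by rw [sp_of_nonneg (by norm_num)]; norm_num
      have h4 := T.kp_le p
      have h5 := T.kp_pos p
      nlinarith
    simp [this]
  · intro y hy
    obtain ⟨A, hA⟩ := T.loc_fin hν hP (y0 := y) hy
    have h1 : T.F =ᶠ[𝓝 y] fun z => ∑ p ∈ A, T.term p z := by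
      filter_upwards [hA] with z hz
      exact tsum_eq_sum fun p hp => hz p hp
    have h2 : ContDiffAt ℝ 1 (fun z => ∑ p ∈ A, T.term p z) y :=
      ContDiffAt.sum fun p _ => T.contDiffAt_term hν hν1 hP p hy
    exact (h2.congr_of_eventuallyEq h1).contDiffWithinAt
  · intro y hy
    obtain ⟨i, hi1, hi2⟩ := T.catch_ y hy
    have hPy : 0 < P y := hP.pos hy
    have hb : 0 < ν (T.t i y) / P y := div_pos (hν.pos hi2) hPy
    set b := ν (T.t i y) / P y with hbdef
    obtain ⟨n, hn⟩ := exists_pow_lt_of_lt_one (by positivity : 0 < b / 3)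
      (by norm_num : (1 / 2 : ℝ) < 1)
    have hn' : 3 * dl n < b := by
      have : dl n < b / 3 := hn
      linarith
    have hk := T.kp_pos (n, i)
    have hd := dl_pos n
    let g : ℝ → ℝ := fun l => (l + T.kp (n, i) * sp (l * b - dl n) - 1) / (T.kp (n, i) * dl n ^ 2)
    have hg : Continuous g := by
      have : Continuous sp := contDiff_sp.continuous
      fun_prop
    have hg1 : 1 < g 1 := by
      simp only [g]
      rw [sp_of_nonneg (by linarith), lt_div_iff₀ (by positivity)]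
      have : dl n ^ 2 < (1 * b - dl n) ^ 2 := by
        apply pow_lt_pow_left₀ _ hd.le (by norm_num)
        linarith
      nlinarith
    have hev : ∀ᶠ l in 𝓝[<] (1 : ℝ), 1 < g l := by
      have : Tendsto g (𝓝[<] 1) (𝓝 (g 1)) := hg.continuousWithinAt
      exact this.eventually_const_lt hg1
    have hev2 : ∀ᶠ l in 𝓝[<] (1 : ℝ), l ∈ Ioo (0 : ℝ) 1 :=
      Ioo_mem_nhdsLT (by norm_num)
    obtain ⟨l, hl1, hl2, hl3⟩ := (hev.and hev2).exists
    refine ⟨l / P y, div_pos hl2 hPy, ?_, ?_⟩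
    · rw [hP.smul_nonneg (div_pos hl2 hPy).le, div_mul_cancel₀ _ hPy.ne']
      exact hl3
    · have hPl : P ((l / P y) • y) < 1 := by
        rw [hP.smul_nonneg (div_pos hl2 hPy).le, div_mul_cancel₀ _ hPy.ne']
        exact hl3
      have harg : T.arg (n, i) ((l / P y) • y) = g l := by
        simp only [arg, g]
        rw [map_smul, map_smul, hν.smul_nonneg (div_pos hl2 hPy).le,
          hν.smul_nonneg (div_pos hl2 hPy).le, hi1, div_mul_cancel₀ _ hPy.ne']
        have : l / P y * ν (T.t i y) = l * b := by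
          rw [hbdef]; ring
        rw [this]
      have hterm : 1 < T.term (n, i) ((l / P y) • y) := by
        unfold term
        rw [harg, sp_of_nonneg (by linarith)]
        nlinarith
      have hle : T.term (n, i) ((l / P y) • y) ≤ T.F ((l / P y) • y) :=
        (T.summable hν hP hPl).le_tsum (n, i) fun p _ => T.term_nonneg p _
      linarith

end GSys

end Pool.Agent.helper26.CK
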