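import Pool.Agent.helper26.CK.Defs

/-!
# CK-Poly1: Minkowski-Weyl for norms

`FinMax N E`: on the subspace `E`, `N` is a maximum of finitely many linear functionals.  For a
finite-dimensional `E` this is equivalent to: the unit ball of `N` in `E` is the convex hull of a
finite set.

PROOFS.
(A) Lemma `hpoly` : let `F` be a finite-dimensional real normed space, `Φ` a finite set of linear
functionals on `F` such that `B = {x | ∀ φ ∈ Φ, φ x ≤ 1}` is bounded.  Then there is a finite set `S`
with `B = convexHull ℝ S`.  Proof: `B` is compact (closed and bounded, linear maps on `F` are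
continuous) and convex.  The map `x ↦ {φ ∈ Φ | φ x = 1}` is injective on the extreme points of `B`:
if `x, y` are extreme with the same active set, put `d = x - y`; `φ d = 0` for the active `φ`, and for
the other `φ ∈ Φ` we have `φ x < 1`, so for a small `ε > 0` both `x ± ε • d ∈ B`; as `x` is extreme,
`d = 0`.  So `B.extremePoints ℝ` is finite, and by Krein-Milman (`closure_convexHull_extremePoints`)
`B = closure (convexHull ext) = convexHull ext` (the convex hull of a finite set is compact,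
`Set.Finite.isCompact_convexHull`, hence closed).
(B) `poly_of_finMax`: apply (A) in `F = E` with the `Φ` of `FinMax` (`B = {x : E | N x ≤ 1}`, bounded as
`c * ‖x‖ ≤ N x`), and map by `E.subtype` (`LinearMap.image_convexHull` or
`LinearMap.convexHull_image`).
(C) `finMax_of_poly`: `S ⊆ E`, so `S` is the image of a finite set `S'` of `E` and
`{x : E | N x ≤ 1} = convexHull S'`.  The polar `B° = {ψ : E →L[ℝ] ℝ | ∀ s ∈ S', ψ s ≤ 1}` is bounded:
such a `ψ` is `≤ 1` on `{N ≤ 1}`, hence `ψ x ≤ N x ≤ C * ‖x‖` for all `x`.  Apply (A) in the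
finite-dimensional space `E →L[ℝ] ℝ` with the functionals `ψ ↦ ψ s`: `B° = convexHull Ψ`, `Ψ` finite.
For `ψ ∈ Ψ`: `ψ ≤ N`.  For `x : E` there is by Hahn-Banach (`exists_extension_of_le_sublinear` applied to
`N` restricted to `E`, on the line through `x`) a `ψ ≤ N` with `ψ x = N x`; `ψ ∈ B° = convexHull Ψ`, so
`N x = ψ x ≤ max over Ψ` (a linear functional on a convex hull of a finite set is at most its maximum
on the set; `convexHull_min` with the half-space).
-/

set_option autoImplicit false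

open Set

namespace Pool.Agent.helper26.CK

variable {X : Type*} [NormedAddCommGroup X] [NormedSpace ℝ X]

/-- on `E`, `N` is the maximum of finitely many linear functionals -/
def FinMax (N : X → ℝ) (E : Submodule ℝ X) : Prop :=
  ∃ Φ : Finset (E →ₗ[ℝ] ℝ), ∀ x : E, (∀ φ ∈ Φ, φ x ≤ N x) ∧ ∃ φ ∈ Φ, φ x = N x

open Filter Topology in
/-- a bounded polyhedron is the convex hull of a finite set -/
theorem poly1_hpoly {F : Type*} [NormedAddCommGroup F] [NormedSpace ℝ F] [FiniteDimensional ℝ F]
    (Φ : Finset (F →ₗ[ℝ] ℝ)) (hb : Bornology.IsBounded {x : F | ∀ φ ∈ Φ, φ x ≤ 1}) :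
    ∃ S : Finset F, {x : F | ∀ φ ∈ Φ, φ x ≤ 1} = convexHull ℝ (S : Set F) := by
  classical
  have : ProperSpace F := FiniteDimensional.proper_real F
  set B : Set F := {x : F | ∀ φ ∈ Φ, φ x ≤ 1} with hB
  have hclosed : IsClosed B := by
    have : B = ⋂ φ ∈ Φ, {x : F | φ x ≤ 1} := by
      ext x; simp [hB]
    rw [this]
    refine isClosed_biInter fun φ _ => ?_
    exact isClosed_le (LinearMap.continuous_of_finiteDimensional φ) continuous_const
  have hcomp : IsCompact B := Metric.isCompact_of_isClosed_isBounded hclosed hb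
  have hconv : Convex ℝ B := by
    intro x hx y hy a b ha hb' hab φ hφ
    have h1 := hx φ hφ
    have h2 := hy φ hφ
    rw [map_add, map_smul, map_smul, smul_eq_mul, smul_eq_mul]
    calc a * φ x + b * φ y ≤ a * 1 + b * 1 := by gcongr
      _ = 1 := by rw [mul_one, mul_one, hab]
  have hfin : (B.extremePoints ℝ).Finite := by
    refine Set.Finite.of_finite_image (f := fun x : F => Φ.filter (fun φ => φ x = 1)) ?_ ?_
    · refine (Φ.powerset.finite_toSet).subset ?_
      rintro _ ⟨x, -, rfl⟩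
      simp only [Finset.mem_coe, Finset.mem_powerset]
      exact Finset.filter_subset _ _
    · intro x hx y hy hxy
      have hxB : x ∈ B := hx.1
      have hact : ∀ φ ∈ Φ, φ x = 1 → φ y = 1 := by
        intro φ hφ h1
        have : φ ∈ Φ.filter (fun φ => φ x = 1) := Finset.mem_filter.2 ⟨hφ, h1⟩
        simp only at hxy
        rw [hxy] at this
        exact (Finset.mem_filter.1 this).2
      set d : F := x - y with hd
      have hev : ∀ᶠ e in 𝓝[>] (0 : ℝ), ∀ φ ∈ Φ, φ x + e * |φ d| ≤ 1 := by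
        refine (Finset.eventually_all Φ).2 fun φ hφ => ?_
        rcases eq_or_lt_of_le (hxB φ hφ) with h1 | h1
        · have h2 := hact φ hφ h1
          refine Eventually.of_forall fun e => ?_
          have : φ d = 0 := by rw [hd, map_sub, h1, h2, sub_self]
          rw [this, abs_zero, mul_zero, add_zero]
          exact h1.le
        · have hc : Continuous fun e : ℝ => φ x + e * |φ d| := by fun_prop
          have ht := (hc.tendsto 0)
          simp only [zero_mul, add_zero] at ht
          have h9 : ∀ᶠ e in 𝓝[>] (0 : ℝ), φ x + e * |φ d| < 1 :=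
            (ht.eventually (gt_mem_nhds h1)).filter_mono nhdsWithin_le_nhds
          filter_upwards [h9] with e he using le_of_lt he
      obtain ⟨e, he, he0⟩ := (hev.and self_mem_nhdsWithin).exists
      have he0' : 0 < e := he0
      have hmem : ∀ s : ℝ, |s| ≤ e → x + s • d ∈ B := by
        intro s hs φ hφ
        rw [map_add, map_smul, smul_eq_mul]
        have h1 := he φ hφ
        have h2 : s * φ d ≤ e * |φ d| := by
          calc s * φ d ≤ |s * φ d| := le_abs_self _
            _ = |s| * |φ d| := abs_mul _ _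
            _ ≤ e * |φ d| := by gcongr
        linarith
      have h1 := hmem e (by rw [abs_of_pos he0'])
      have h2 := hmem (-e) (by rw [abs_neg, abs_of_pos he0'])
      have hseg : x ∈ openSegment ℝ (x + e • d) (x + (-e) • d) := by
        refine ⟨1 / 2, 1 / 2, by norm_num, by norm_num, by norm_num, ?_⟩
        module
      have h3 := hx.2 h1 h2 hseg
      have h4 : e • d = 0 := by simpa using h3
      have h5 : d = 0 := by
        rcases smul_eq_zero.1 h4 with h | h
        · exact absurd h he0'.ne'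
        · exact h
      exact sub_eq_zero.1 h5
  refine ⟨hfin.toFinset, ?_⟩
  rw [Set.Finite.coe_toFinset]
  have h1 := closure_convexHull_extremePoints hcomp hconv
  rw [(hfin.isCompact_convexHull ℝ).isClosed.closure_eq] at h1
  exact h1.symm

theorem poly_of_finMax {N : X → ℝ} (hN : EqNorm X N) (E : Submodule ℝ X) [FiniteDimensional ℝ E]
    (h : FinMax N E) : ∃ S : Finset X, {f | f ∈ E ∧ N f ≤ 1} = convexHull ℝ (S : Set X) := by
  classical
  obtain ⟨Φ, hΦ⟩ := h
  obtain ⟨c, C, hc, hC, hcC⟩ := hN.equiv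
  have hBeq : {x : E | ∀ φ ∈ Φ, φ x ≤ 1} = {x : E | N x ≤ 1} := by
    ext x
    simp only [Set.mem_ofPred_eq]
    constructor
    · intro hx
      obtain ⟨φ, hφ, hφx⟩ := (hΦ x).2
      rw [← hφx]; exact hx φ hφ
    · intro hx φ hφ
      exact ((hΦ x).1 φ hφ).trans hx
  have hb : Bornology.IsBounded {x : E | ∀ φ ∈ Φ, φ x ≤ 1} := by
    rw [hBeq]
    refine (Metric.isBounded_closedBall (x := (0 : E)) (r := 1 / c)).subset ?_
    intro x hx
    rw [mem_closedBall_zero_iff]
    have h1 := (hcC x).1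
    have h2 : N x ≤ 1 := hx
    rw [le_div_iff₀ hc]
    have : ‖x‖ = ‖(x : X)‖ := rfl
    rw [this, mul_comm]
    linarith
  obtain ⟨S, hS⟩ := poly1_hpoly Φ hb
  rw [hBeq] at hS
  refine ⟨S.image E.subtype, ?_⟩
  rw [Finset.coe_image, ← LinearMap.image_convexHull, ← hS]
  ext f
  simp only [Set.mem_ofPred_eq, Set.mem_image, Submodule.subtype_apply]
  constructor
  · rintro ⟨hf, hf1⟩
    exact ⟨⟨f, hf⟩, hf1, rfl⟩
  · rintro ⟨x, hx, rfl⟩
    exact ⟨x.2, hx⟩

/-- the polar statement in an abstract finite-dimensional space -/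
theorem poly1_polar {F : Type*} [NormedAddCommGroup F] [NormedSpace ℝ F] [FiniteDimensional ℝ F]
    {N : F → ℝ} (hN : EqNorm F N) (S' : Finset F)
    (hball : {x : F | N x ≤ 1} = convexHull ℝ (S' : Set F)) :
    ∃ Φ : Finset (F →ₗ[ℝ] ℝ), ∀ x : F, (∀ φ ∈ Φ, φ x ≤ N x) ∧ ∃ φ ∈ Φ, φ x = N x := by
  classical
  obtain ⟨c, C, hc, hC, hcC⟩ := hN.equiv
  have hneg : ∀ x : F, N (-x) = N x := by
    intro x
    have := hN.smul (-1) x
    simpa using this
  have h0 : ∀ x, 0 ≤ N x := fun x => le_trans (by positivity) (hcC x).1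
  -- a functional at most one on `S'` is at most `N`
  have hle : ∀ ψ : F →ₗ[ℝ] ℝ, (∀ s ∈ S', ψ s ≤ 1) → ∀ x : F, ψ x ≤ N x := by
    intro ψ hψ x
    have hhalf : ∀ y : F, N y ≤ 1 → ψ y ≤ 1 := by
      intro y hy
      have hy' : y ∈ convexHull ℝ (S' : Set F) := by rw [← hball]; exact hy
      have hcv : Convex ℝ {y : F | ψ y ≤ 1} := convex_halfSpace_le ψ.isLinear 1
      exact convexHull_min (fun s hs => hψ s hs) hcv hy'
    rcases eq_or_lt_of_le (h0 x) with h | h
    · have hx : x = 0 := hN.eq_zero _ h.symm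
      rw [← h, hx, map_zero]
    · have h1 := hhalf ((N x)⁻¹ • x) (by
        rw [hN.smul, abs_of_pos (inv_pos.2 h), inv_mul_cancel₀ h.ne'])
      rw [map_smul, smul_eq_mul, inv_mul_le_iff₀ h, mul_one] at h1
      exact h1
  set Φ' : Finset ((F →L[ℝ] ℝ) →ₗ[ℝ] ℝ) :=
    S'.image (fun s => (ContinuousLinearMap.apply ℝ ℝ s : (F →L[ℝ] ℝ) →L[ℝ] ℝ).toLinearMap)
    with hΦ'
  have hpol : {ψ : F →L[ℝ] ℝ | ∀ φ ∈ Φ', φ ψ ≤ 1} = {ψ : F →L[ℝ] ℝ | ∀ s ∈ S', ψ s ≤ 1} := by
    ext ψ
    constructor
    · intro h s hs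
      exact h _ (Finset.mem_image.2 ⟨s, hs, rfl⟩)
    · intro h φ hφ
      obtain ⟨s, hs, rfl⟩ := Finset.mem_image.1 hφ
      exact h s hs
  have hb : Bornology.IsBounded {ψ : F →L[ℝ] ℝ | ∀ φ ∈ Φ', φ ψ ≤ 1} := by
    rw [hpol]
    refine (Metric.isBounded_closedBall (x := (0 : F →L[ℝ] ℝ)) (r := C)).subset ?_
    intro ψ hψ
    rw [mem_closedBall_zero_iff]
    refine ContinuousLinearMap.opNorm_le_bound _ hC.le fun x => ?_
    rw [Real.norm_eq_abs, abs_le]
    have h1 := hle ψ.toLinearMap hψ x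
    have h2 := hle ψ.toLinearMap hψ (-x)
    have h3 := (hcC x).2
    rw [hneg] at h2
    have h5 : ψ.toLinearMap (-x) = - ψ x := by simp
    have h6 : ψ.toLinearMap x = ψ x := rfl
    rw [h5] at h2
    rw [h6] at h1
    constructor <;> linarith
  obtain ⟨Ψ, hΨ⟩ := poly1_hpoly Φ' hb
  rw [hpol] at hΨ
  have hΨle : ∀ ψ ∈ Ψ, ∀ x : F, ψ x ≤ N x := by
    intro ψ hψ x
    have h1 : ψ ∈ convexHull ℝ (Ψ : Set (F →L[ℝ] ℝ)) := subset_convexHull ℝ _ hψ
    rw [← hΨ] at h1
    exact hle ψ.toLinearMap h1 x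
  refine ⟨Ψ.image (fun ψ => ψ.toLinearMap), fun x => ⟨?_, ?_⟩⟩
  · intro φ hφ
    obtain ⟨ψ, hψ, rfl⟩ := Finset.mem_image.1 hφ
    exact hΨle ψ hψ x
  · -- a norming functional
    have hHB : ∃ g : F →ₗ[ℝ] ℝ, g x = N x ∧ ∀ y, g y ≤ N y := by
      by_cases hx : x = 0
      · refine ⟨0, ?_, fun y => by simpa using h0 y⟩
        rw [hx]
        have : N (0 : F) = 0 := by
          have := hN.smul 0 (0 : F)
          simpa using this
        rw [this]; simp
      · obtain ⟨g, hg1, hg2⟩ := exists_extension_of_le_sublinear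
          (LinearPMap.mkSpanSingleton (σ := RingHom.id ℝ) x (N x) hx) N
          (fun a ha y => by rw [hN.smul, abs_of_pos ha])
          (fun y z => hN.add_le y z) (by
            rintro ⟨y, hy⟩
            obtain ⟨a, rfl⟩ := Submodule.mem_span_singleton.1 hy
            rw [LinearPMap.mkSpanSingleton'_apply]
            change a • N x ≤ N (a • x)
            rw [hN.smul, smul_eq_mul]
            exact mul_le_mul_of_nonneg_right (le_abs_self a) (h0 x))
        refine ⟨g, ?_, hg2⟩
        have h1 := (hg1 ⟨(1 : ℝ) • x, Submodule.mem_span_singleton.2 ⟨1, rfl⟩⟩).trans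
          (LinearPMap.mkSpanSingleton'_apply x (N x) _ (1 : ℝ) _)
        simpa using h1
    obtain ⟨g, hg1, hg2⟩ := hHB
    have hgm : (LinearMap.toContinuousLinearMap g : F →L[ℝ] ℝ) ∈
        convexHull ℝ (Ψ : Set (F →L[ℝ] ℝ)) := by
      rw [← hΨ]
      intro s hs
      have h1 : s ∈ convexHull ℝ (S' : Set F) := subset_convexHull ℝ _ hs
      rw [← hball] at h1
      exact (hg2 s).trans h1
    by_contra hcon
    push Not at hcon
    have hlt : ∀ ψ ∈ Ψ, ψ x < N x := by
      intro ψ hψ
      refine lt_of_le_of_ne (hΨle ψ hψ x) (hcon _ (Finset.mem_image.2 ⟨ψ, hψ, rfl⟩))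
    have hcv : Convex ℝ {ψ : F →L[ℝ] ℝ | ψ x < N x} := by
      have := convex_halfSpace_lt (𝕜 := ℝ) (f := fun ψ : F →L[ℝ] ℝ => ψ x)
        ⟨fun _ _ => rfl, fun _ _ => rfl⟩ (N x)
      exact this
    have h1 := convexHull_min (fun ψ hψ => hlt ψ hψ) hcv hgm
    have h2 : (LinearMap.toContinuousLinearMap g : F →L[ℝ] ℝ) x = g x := rfl
    have h3 : (LinearMap.toContinuousLinearMap g : F →L[ℝ] ℝ) x < N x := h1
    rw [h2, hg1] at h3
    exact lt_irrefl _ h3

theorem finMax_of_poly {N : X → ℝ} (hN : EqNorm X N) (E : Submodule ℝ X) [FiniteDimensional ℝ E]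
    (S : Finset X) (hS : {f | f ∈ E ∧ N f ≤ 1} = convexHull ℝ (S : Set X)) : FinMax N E := by
  classical
  have hSE : ∀ s ∈ S, s ∈ E ∧ N s ≤ 1 := by
    intro s hs
    have : s ∈ convexHull ℝ (S : Set X) := subset_convexHull ℝ _ hs
    rw [← hS] at this
    exact this
  set S' : Finset E := S.preimage E.subtype (Subtype.val_injective.injOn) with hS'
  have hS'mem : ∀ s : E, s ∈ S' ↔ (s : X) ∈ S := by
    intro s; simp [hS']
  have himg : E.subtype '' (S' : Set E) = (S : Set X) := by
    ext s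
    simp only [Set.mem_image, Finset.mem_coe, Submodule.subtype_apply]
    constructor
    · rintro ⟨x, hx, rfl⟩
      exact (hS'mem x).1 hx
    · intro hs
      exact ⟨⟨s, (hSE s hs).1⟩, (hS'mem _).2 hs, rfl⟩
  have hball : {x : E | N x ≤ 1} = convexHull ℝ (S' : Set E) := by
    apply Subtype.val_injective.image_injective
    have h1 : (Subtype.val : E → X) '' convexHull ℝ (S' : Set E) = convexHull ℝ (S : Set X) := by
      rw [← himg]
      exact LinearMap.image_convexHull E.subtype (S' : Set E)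
    rw [h1, ← hS]
    ext f
    simp only [Set.mem_ofPred_eq, Set.mem_image]
    constructor
    · rintro ⟨x, hx, rfl⟩
      exact ⟨x.2, hx⟩
    · rintro ⟨hf, hf1⟩
      exact ⟨⟨f, hf⟩, hf1, rfl⟩
  have hN' : EqNorm E (fun x : E => N x) := by
    obtain ⟨c, C, hc, hC, hcC⟩ := hN.equiv
    exact ⟨fun f g => hN.add_le f g, fun a f => hN.smul a f,
      fun f hf => Subtype.ext (hN.eq_zero f hf), c, C, hc, hC, fun f => hcC f⟩
  exact poly1_polar hN' S' hball

end Pool.Agent.helper26.CK
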