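import Pool.Agent.helper26.CK.TSys
import Pool.Agent.helper26.CK.Poly1

/-!
# CK-TSysP: abstract Talagrand systems give polyhedral norms
-/

set_option autoImplicit false

open Set Topology Filter

namespace Pool.Agent.helper26.CK

section FM
variable {V U : Type*} [AddCommGroup V] [Module ℝ V] [AddCommGroup U] [Module ℝ U]

/-- a maximum of finitely many linear functionals -/
def FM (g : V → ℝ) : Prop :=
  ∃ Φ : Finset (V →ₗ[ℝ] ℝ), ∀ x, (∀ φ ∈ Φ, φ x ≤ g x) ∧ ∃ φ ∈ Φ, φ x = g x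

theorem FM.comp {g : V → ℝ} (h : FM g) (A : U →ₗ[ℝ] V) : FM fun x => g (A x) := by
  classical
  obtain ⟨Φ, hΦ⟩ := h
  refine ⟨Φ.image fun φ => φ ∘ₗ A, fun x => ⟨?_, ?_⟩⟩
  · intro φ hφ
    obtain ⟨ψ, hψ, rfl⟩ := Finset.mem_image.1 hφ
    exact (hΦ (A x)).1 ψ hψ
  · obtain ⟨ψ, hψ, h⟩ := (hΦ (A x)).2
    exact ⟨ψ ∘ₗ A, Finset.mem_image.2 ⟨ψ, hψ, rfl⟩, h⟩

theorem FM.add {g g' : V → ℝ} (h : FM g) (h' : FM g') : FM fun x => g x + g' x := by
  classical
  obtain ⟨Φ, hΦ⟩ := h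
  obtain ⟨Ψ, hΨ⟩ := h'
  refine ⟨(Φ ×ˢ Ψ).image fun p => p.1 + p.2, fun x => ⟨?_, ?_⟩⟩
  · intro φ hφ
    obtain ⟨⟨φ1, φ2⟩, hψ, rfl⟩ := Finset.mem_image.1 hφ
    rw [Finset.mem_product] at hψ
    exact add_le_add ((hΦ x).1 _ hψ.1) ((hΨ x).1 _ hψ.2)
  · obtain ⟨φ1, h1, h1'⟩ := (hΦ x).2
    obtain ⟨φ2, h2, h2'⟩ := (hΨ x).2
    refine ⟨φ1 + φ2, Finset.mem_image.2 ⟨(φ1, φ2), Finset.mem_product.2 ⟨h1, h2⟩, rfl⟩, ?_⟩
    rw [LinearMap.add_apply, h1', h2']

theorem FM.smul {g : V → ℝ} (h : FM g) {c : ℝ} (hc : 0 ≤ c) : FM fun x => c * g x := by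
  classical
  obtain ⟨Φ, hΦ⟩ := h
  refine ⟨Φ.image fun φ => c • φ, fun x => ⟨?_, ?_⟩⟩
  · intro φ hφ
    obtain ⟨ψ, hψ, rfl⟩ := Finset.mem_image.1 hφ
    exact mul_le_mul_of_nonneg_left ((hΦ x).1 ψ hψ) hc
  · obtain ⟨ψ, hψ, h⟩ := (hΦ x).2
    refine ⟨c • ψ, Finset.mem_image.2 ⟨ψ, hψ, rfl⟩, ?_⟩
    rw [LinearMap.smul_apply, h, smul_eq_mul]

theorem FM.max {ι : Type*} (s : Finset ι) (g : ι → V → ℝ) (hg : ∀ i ∈ s, FM (g i)) {N : V → ℝ}
    (hN : ∀ x, (∀ i ∈ s, g i x ≤ N x) ∧ ∃ i ∈ s, g i x = N x) : FM N := by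
  classical
  have hg' : ∀ i, ∃ Φ : Finset (V →ₗ[ℝ] ℝ), i ∈ s →
      ∀ x, (∀ φ ∈ Φ, φ x ≤ g i x) ∧ ∃ φ ∈ Φ, φ x = g i x := by
    intro i
    by_cases hi : i ∈ s
    · obtain ⟨Φ, hΦ⟩ := hg i hi
      exact ⟨Φ, fun _ => hΦ⟩
    · exact ⟨∅, fun h => absurd h hi⟩
  choose Φ hΦ using hg'
  refine ⟨s.biUnion Φ, fun x => ⟨?_, ?_⟩⟩
  · intro φ hφ
    obtain ⟨i, hi, hφ⟩ := Finset.mem_biUnion.1 hφ
    exact ((hΦ i hi x).1 φ hφ).trans ((hN x).1 i hi)
  · obtain ⟨i, hi, h⟩ := (hN x).2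
    obtain ⟨φ, hφ, h'⟩ := (hΦ i hi x).2
    exact ⟨φ, Finset.mem_biUnion.2 ⟨i, hi, hφ⟩, h'.trans h⟩

end FM

theorem FM_of_polyhedral {X : Type*} [NormedAddCommGroup X] [NormedSpace ℝ X] {ν : X → ℝ}
    (hν : EqNorm X ν) (hp : Polyhedral X ν) {V : Type*} [AddCommGroup V] [Module ℝ V]
    [FiniteDimensional ℝ V] (A : V →ₗ[ℝ] X) : FM fun x => ν (A x) := by
  obtain ⟨S, hS⟩ := hp (LinearMap.range A) inferInstance
  have h1 : FinMax ν (LinearMap.range A) := finMax_of_poly hν _ S hS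
  have h2 : FM (fun x : LinearMap.range A => ν x) := h1
  exact h2.comp A.rangeRestrict

variable {Y X : Type*} [NormedAddCommGroup Y] [NormedSpace ℝ Y] [NormedAddCommGroup X]
    [NormedSpace ℝ X] {I : Type*} {ν : X → ℝ} {P : Y → ℝ}

namespace TSys

variable (T : TSys Y X I ν P)

/-- the terms of the polyhedral norm -/
noncomputable def v (T : TSys Y X I ν P) (i : I) (y : Y) : ℝ := ν (T.e i y) + 1 / 4 * ν (T.t i y)

/-- the terms of the polyhedral norm -/
noncomputable def v' (T : TSys Y X I ν P) : Option I → Y → ℝ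
  | none => P
  | some i => T.v i

/-- the polyhedral norm -/
noncomputable def Np (T : TSys Y X I ν P) (y : Y) : ℝ := ⨆ o, T.v' o y

theorem v_le (i : I) (y : Y) : T.v i y ≤ 3 / 2 * P y := by
  have h1 := T.he i y
  have h2 := T.ht i y
  unfold v
  linarith

theorem v'_le (hP : EqNorm Y P) (o : Option I) (y : Y) : T.v' o y ≤ 3 / 2 * P y := by
  cases o with
  | none =>
    have := hP.nonneg y
    simp only [v']
    linarith
  | some i => exact T.v_le i y

theorem bdd (hP : EqNorm Y P) (y : Y) : BddAbove (range fun o => T.v' o y) :=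
  ⟨3 / 2 * P y, by rintro _ ⟨o, rfl⟩; exact T.v'_le hP o y⟩

theorem v'_le_Np (hP : EqNorm Y P) (o : Option I) (y : Y) : T.v' o y ≤ T.Np y :=
  le_ciSup (T.bdd hP y) o

theorem v_le_Np (hP : EqNorm Y P) (i : I) (y : Y) : T.v i y ≤ T.Np y := T.v'_le_Np hP (some i) y

theorem P_le_Np (hP : EqNorm Y P) (y : Y) : P y ≤ T.Np y := T.v'_le_Np hP none y

theorem v_smul (hν : EqNorm X ν) (a : ℝ) (i : I) (y : Y) : T.v i (a • y) = |a| * T.v i y := by
  unfold v
  rw [map_smul, map_smul, hν.smul, hν.smul]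
  ring

theorem v'_smul (hν : EqNorm X ν) (hP : EqNorm Y P) (a : ℝ) (o : Option I) (y : Y) :
    T.v' o (a • y) = |a| * T.v' o y := by
  cases o with
  | none => exact hP.smul a y
  | some i => exact T.v_smul hν a i y

theorem v'_add (hν : EqNorm X ν) (hP : EqNorm Y P) (o : Option I) (y z : Y) :
    T.v' o (y + z) ≤ T.v' o y + T.v' o z := by
  cases o with
  | none => exact hP.add_le y z
  | some i =>
    simp only [v', v, map_add]
    have h1 := hν.add_le (T.e i y) (T.e i z)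
    have h2 := hν.add_le (T.t i y) (T.t i z)
    linarith

theorem eqNorm_Np (hν : EqNorm X ν) (hP : EqNorm Y P) : EqNorm Y T.Np where
  add_le := by
    intro f g
    refine ciSup_le fun o => ?_
    exact (T.v'_add hν hP o f g).trans (add_le_add (T.v'_le_Np hP o f) (T.v'_le_Np hP o g))
  smul := by
    intro a f
    unfold Np
    rw [Real.mul_iSup_of_nonneg (abs_nonneg a)]
    congr 1
    ext o
    exact T.v'_smul hν hP a o f
  eq_zero := by
    intro f hf
    refine hP.eq_zero f (le_antisymm ?_ (hP.nonneg f))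
    rw [← hf]
    exact T.P_le_Np hP f
  equiv := by
    obtain ⟨c, C, hc, hC, h⟩ := hP.equiv
    refine ⟨c, 3 / 2 * C, hc, by positivity, fun f => ⟨(h f).1.trans (T.P_le_Np hP f), ?_⟩⟩
    refine ciSup_le fun o => (T.v'_le hP o f).trans ?_
    have := (h f).2
    linarith

theorem P_lt_Np (hν : EqNorm X ν) (hP : EqNorm Y P) {y : Y} (hy : y ≠ 0) : P y < T.Np y := by
  obtain ⟨i, hi1, hi2⟩ := T.catch_ y hy
  have h1 := T.v_le_Np hP i y
  have h2 := hν.pos hi2
  unfold v at h1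
  rw [hi1] at h1
  linarith

theorem finMax (hν : EqNorm X ν) (hp : Polyhedral X ν) (hP : EqNorm Y P) (E : Submodule ℝ Y)
    [FiniteDimensional ℝ E] : FinMax T.Np E := by
  classical
  have hN := T.eqNorm_Np hν hP
  let Sph : Set E := {y | P y = 1}
  by_cases hSph : Sph.Nonempty
  swap
  · -- trivial space
    have htriv : ∀ y : E, y = 0 := by
      intro y
      by_contra hy
      have hy' : (y : Y) ≠ 0 := fun h => hy (Subtype.ext h)
      have hPy := hP.pos hy'
      refine hSph ⟨(P y)⁻¹ • y, ?_⟩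
      change P ((P y)⁻¹ • (y : Y)) = 1
      rw [hP.smul_nonneg (inv_pos.2 hPy).le, inv_mul_cancel₀ hPy.ne']
    refine ⟨{0}, fun x => ?_⟩
    rw [htriv x]
    simp [hN.map_zero]
  have hcomp : IsCompact Sph := by
    refine Metric.isCompact_of_isClosed_isBounded ?_ ?_
    · exact isClosed_eq (hP.continuous.comp continuous_subtype_val) continuous_const
    · obtain ⟨c, C, hc, hC, h⟩ := hP.equiv
      refine (Metric.isBounded_closedBall (x := (0 : E)) (r := 1 / c)).subset ?_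
      intro y hy
      have hy : P y = 1 := hy
      rw [mem_closedBall_zero_iff, le_div_iff₀ hc]
      have := (h y).1
      rw [hy] at this
      rw [mul_comm]
      exact this
  obtain ⟨y1, hy1, hmin⟩ := hcomp.exists_isMinOn hSph
    (f := fun y : E => T.Np y - P y)
    ((hN.continuous.comp continuous_subtype_val).sub
      (hP.continuous.comp continuous_subtype_val)).continuousOn
  set η := T.Np y1 - P y1 with hη
  have hy10 : (y1 : Y) ≠ 0 := by
    intro h
    have : P (y1 : Y) = 1 := hy1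
    rw [h, hP.map_zero] at this
    exact zero_ne_one this
  have hη0 : 0 < η := by
    have := T.P_lt_Np hν hP hy10
    rw [hη]; linarith
  have hmin' : ∀ y ∈ Sph, 1 + η ≤ T.Np y := by
    intro y hy
    have h1 := hmin hy
    have h2 : P y = 1 := hy
    simp only [mem_ofPred_eq] at h1
    linarith
  -- finitely many balls
  obtain ⟨s, hs1, hs2⟩ := hcomp.elim_nhds_subcover (fun y => {z : E | P ((z : Y) - y) < η / 2}) (by
    intro y _
    have hc : Continuous fun z : E => P ((z : Y) - y) :=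
      hP.continuous.comp (continuous_subtype_val.sub continuous_const)
    refine (isOpen_lt hc continuous_const).mem_nhds ?_
    simp only [mem_ofPred_eq, sub_self, hP.map_zero]
    positivity)
  have hfin : (⋃ y ∈ s, {i | η ≤ ν (T.t i y)}).Finite :=
    s.finite_toSet.biUnion fun y _ => T.fin y η hη0
  set A := hfin.toFinset with hA
  have hsmall : ∀ i ∉ A, ∀ y ∈ Sph, T.v i y ≤ 1 + η / 2 := by
    intro i hi y hy
    obtain ⟨z, hz1, hz2⟩ := mem_iUnion₂.1 (hs2 hy)
    have h1 : ν (T.t i z) < η := by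
      by_contra hcon
      apply hi
      rw [hA, Set.Finite.mem_toFinset]
      exact mem_iUnion₂.2 ⟨z, hz1, not_lt.1 hcon⟩
    have h2 : ν (T.t i y) ≤ ν (T.t i z) + ν (T.t i ((y : Y) - z)) := by
      have := hν.add_le (T.t i z) (T.t i ((y : Y) - z))
      rw [← map_add, add_sub_cancel] at this
      exact this
    have h3 := T.ht i ((y : Y) - z)
    have h4 : P ((y : Y) - z) < η / 2 := hz2
    have h5 := T.he i y
    have h6 : P (y : Y) = 1 := hy
    unfold v
    linarith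
  have hatt : ∀ y ∈ Sph, ∃ i ∈ A, T.v i y = T.Np y := by
    intro y hy
    obtain ⟨m, hm1, hm2⟩ := (insert (1 + η / 2) (A.image fun i => T.v i y)).exists_max_image id
      ⟨_, Finset.mem_insert_self _ _⟩
    have hle : T.Np y ≤ m := by
      refine ciSup_le fun o => ?_
      have h0 : 1 + η / 2 ≤ m := hm2 _ (Finset.mem_insert_self _ _)
      cases o with
      | none =>
        have : P (y : Y) = 1 := hy
        simp only [v']
        linarith
      | some i =>
        by_cases hi : i ∈ A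
        · exact hm2 (T.v i y) (Finset.mem_insert_of_mem (Finset.mem_image.2 ⟨i, hi, rfl⟩))
        · exact (hsmall i hi y hy).trans h0
    rcases Finset.mem_insert.1 hm1 with h | h
    · exfalso
      have := hmin' y hy
      rw [h] at hle
      linarith
    · obtain ⟨i, hi, him⟩ := Finset.mem_image.1 h
      refine ⟨i, hi, le_antisymm (T.v_le_Np hP i y) ?_⟩
      rw [him]; exact hle
  have h := FM.max (V := E) A (fun i y => T.v i (y : Y)) ?_ (N := fun y => T.Np (y : Y)) ?_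
  · exact h
  · intro i _
    have h1 : FM fun y : E => ν (T.e i y) := FM_of_polyhedral hν hp
      ((T.e i : Y →ₗ[ℝ] X) ∘ₗ E.subtype)
    have h2 : FM fun y : E => ν (T.t i y) := FM_of_polyhedral hν hp
      ((T.t i : Y →ₗ[ℝ] X) ∘ₗ E.subtype)
    exact h1.add (h2.smul (by norm_num : (0 : ℝ) ≤ 1 / 4))
  · intro y
    refine ⟨fun i _ => T.v_le_Np hP i y, ?_⟩
    by_cases hy : (y : Y) = 0
    · obtain ⟨i, hi, -⟩ := hatt y1 hy1
      refine ⟨i, hi, ?_⟩
      rw [hy, hN.map_zero, v, map_zero, map_zero, hν.map_zero]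
      simp
    · have hPy := hP.pos hy
      obtain ⟨i, hi, h⟩ := hatt ((P y)⁻¹ • y) (by
        change P ((P y)⁻¹ • (y : Y)) = 1
        rw [hP.smul_nonneg (inv_pos.2 hPy).le, inv_mul_cancel₀ hPy.ne'])
      refine ⟨i, hi, ?_⟩
      rw [Submodule.coe_smul, T.v_smul hν, hN.smul] at h
      exact mul_left_cancel₀ (by rw [abs_of_pos (inv_pos.2 hPy)]; exact (inv_pos.2 hPy).ne') h

include T in
theorem hasPoly (hν : EqNorm X ν) (hp : Polyhedral X ν) (hP : EqNorm Y P) : HasPoly Y := by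
  refine ⟨T.Np, T.eqNorm_Np hν hP, fun E hE => ?_⟩
  exact poly_of_finMax (T.eqNorm_Np hν hP) E (T.finMax hν hp hP E)

end TSys

end Pool.Agent.helper26.CK
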