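import Pool.Agent.helper26.CK.Defs

/-!
# CK-Gauge: a C¹ norm from a convex function

`sp s = (max s 0)^2` is convex, monotone and `C¹`.

PROOF of `hasC1_of_fun`.  Write `Ω = {P < 1}`.  For `y ≠ 0` there is a unique `ρ > P y` with
`F (ρ⁻¹ • y) = 1`: existence by the intermediate value theorem for the continuous function
`s ↦ F (s • y)` on the interval of all `s ≥ 0` with `s * P y < 1` (it is `0` at `s = 0` and `> 1` at the
`s = r` of `hbig`); uniqueness: it is convex in `s` and `0` at `s = 0`, so `F (s' • y) ≤ (s'/s) F (s • y)`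
for `0 ≤ s' ≤ s`, hence `F (s' • y) < 1` if `s' < s` and `F (s • y) = 1`.
Put `N y = ρ`, `N 0 = 0`.
* (★) if `y ≠ 0`, `σ > 0`, `P (σ⁻¹ • y) < 1` and `F (σ⁻¹ • y) ≤ 1`, then `N y ≤ σ`.
* `P y < N y ≤ 2 * P y` for `y ≠ 0` (`hzero`: at `ρ = N y` we have `F = 1 ≠ 0`, so `P (ρ⁻¹ • y) > 1/2`).
* `N (a • y) = |a| * N y` by uniqueness and `heven`.
* triangle inequality: for `y, z, y + z ≠ 0` and `s = N y + N z`, `s⁻¹ • (y + z)` is the convex
  combination of `(N y)⁻¹ • y`, `(N z)⁻¹ • z` with weights `N y / s`, `N z / s`, so `P < 1` and `F ≤ 1`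
  there; use (★).
So `N` is an equivalent norm (`EqNorm`), in particular Lipschitz and continuous.
* Derivative at `y0 ≠ 0`: let `ρ0 = N y0`, `x0 = ρ0⁻¹ • y0`, `F'` the derivative of `F` at `x0`.  By
  convexity `F' x0 ≥ F x0 - F 0 = 1 > 0`.  With `x(y) = (N y)⁻¹ • y` we have `F (x(y)) = 1 = F (x0)` near
  `y0`, `x(y) - x0 = O(y - y0)`, so `F' (x(y) - x0) = o(y - y0)`; multiply by `N y` (bounded):
  `F' (y - y0) - (N y - N y0) * F' x0 = o(y - y0)`.  So
  `HasFDerivAt N ((F' x0)⁻¹ • F') y0`.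
* `y ↦ (F' (x(y)) (x(y)))⁻¹ • F' (x(y))` is continuous on `{y ≠ 0}` (`F'` = `fderiv ℝ F` is continuous on the
  open set `Ω`), so `N` is `C¹` there (`contDiffOn_succ_iff_fderiv_of_isOpen` or
  `contDiffOn_one_iff_fderiv_of_isOpen`; all sets are open).
-/

set_option autoImplicit false

open Set Topology Filter

namespace Pool.Agent.helper26.CK

/-- the square of the positive part -/
noncomputable def sp (s : ℝ) : ℝ := (max s 0) ^ 2

theorem monotone_sp : Monotone sp := by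
  intro a b hab
  unfold sp
  have h1 : max a 0 ≤ max b 0 := max_le_max hab le_rfl
  have h2 : 0 ≤ max a 0 := le_max_right _ _
  exact pow_le_pow_left₀ h2 h1 2

theorem Gauge_hasDerivAt_sp (s : ℝ) : HasDerivAt sp (2 * max s 0) s := by
  rcases lt_trichotomy s 0 with h | h | h
  · have h1 : sp =ᶠ[𝓝 s] fun _ => 0 := by
      filter_upwards [Iio_mem_nhds h] with x hx
      have hx' : x < 0 := hx
      simp [sp, max_eq_right hx'.le]
    have h2 : HasDerivAt (fun _ : ℝ => (0:ℝ)) 0 s := hasDerivAt_const s 0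
    rw [max_eq_right h.le, mul_zero]
    exact h2.congr_of_eventuallyEq h1
  · subst h
    rw [max_self, mul_zero, hasDerivAt_iff_isLittleO]
    simp only [sp, max_self, sub_zero, smul_zero]
    have : (fun x : ℝ => (max x 0) ^ 2 - 0 ^ 2) =O[𝓝 0] fun x : ℝ => x ^ 2 := by
      refine Asymptotics.IsBigO.of_bound 1 (Eventually.of_forall fun x => ?_)
      rw [Real.norm_eq_abs, Real.norm_eq_abs, one_mul, abs_of_nonneg (sq_nonneg x)]
      rcases le_total x 0 with h | h
      · rw [max_eq_right h]; simpa using sq_nonneg x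
      · rw [max_eq_left h]; simp
    refine this.trans_isLittleO ?_
    simpa using (Asymptotics.isLittleO_pow_id (one_lt_two) : (fun x : ℝ => x ^ 2) =o[𝓝 0] fun x => x)
  · have h1 : sp =ᶠ[𝓝 s] fun x => x ^ 2 := by
      filter_upwards [Ioi_mem_nhds h] with x hx
      have hx' : 0 < x := hx
      simp [sp, max_eq_left hx'.le]
    have h2 : HasDerivAt (fun x : ℝ => x ^ 2) (2 * s) s := by
      simpa using hasDerivAt_pow 2 s
    rw [max_eq_left h.le]
    exact h2.congr_of_eventuallyEq h1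

theorem contDiff_sp : ContDiff ℝ 1 sp := by
  rw [contDiff_one_iff_deriv]
  refine ⟨fun x => (Gauge_hasDerivAt_sp x).differentiableAt, ?_⟩
  have : deriv sp = fun s => 2 * max s 0 := funext fun x => (Gauge_hasDerivAt_sp x).deriv
  rw [this]
  exact continuous_const.mul (continuous_id.max continuous_const)

theorem convexOn_sp : ConvexOn ℝ univ sp := by
  have h1 : ConvexOn ℝ univ (fun s : ℝ => max s 0) :=
    (convexOn_id convex_univ).sup (convexOn_const 0 convex_univ)
  exact h1.pow (fun x _ => le_max_right _ _) 2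

theorem Gauge_lip {Y : Type*} [NormedAddCommGroup Y] [NormedSpace ℝ Y] {N : Y → ℝ}
    (h : EqNorm Y N) : ∃ C : ℝ, 0 < C ∧ ∀ y z, |N y - N z| ≤ C * ‖y - z‖ := by
  obtain ⟨c, C, hc, hC, hcC⟩ := h.equiv
  exact ⟨C, hC, fun y z => (h.abs_sub_le y z).trans (hcC _).2⟩

theorem hasC1_of_fun {Y : Type*} [NormedAddCommGroup Y] [NormedSpace ℝ Y] (P F : Y → ℝ)
    (hP : EqNorm Y P) (hconv : ConvexOn ℝ {y | P y < 1} F) (heven : ∀ y, F (-y) = F y)
    (hzero : ∀ y, P y ≤ 1 / 2 → F y = 0) (hC1 : ContDiffOn ℝ 1 F {y | P y < 1})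
    (hbig : ∀ y, y ≠ 0 → ∃ r : ℝ, 0 < r ∧ P (r • y) < 1 ∧ 1 < F (r • y)) : HasC1 Y := by
  classical
  have hΩ : IsOpen {y | P y < 1} := isOpen_lt hP.continuous continuous_const
  have hF0 : F 0 = 0 := hzero 0 (by rw [hP.map_zero]; norm_num)
  have h0Ω : (0 : Y) ∈ {y | P y < 1} := by
    show P 0 < 1
    rw [hP.map_zero]; norm_num
  -- convexity along rays
  have ray : ∀ (y : Y) (a : ℝ), P y < 1 → 0 ≤ a → a ≤ 1 → F (a • y) ≤ a * F y := by
    intro y a hy ha0 ha1
    have := hconv.2 hy h0Ω ha0 (sub_nonneg.2 ha1) (by ring)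
    simpa [hF0] using this
  -- uniqueness along rays
  have mono : ∀ (y : Y) (σ τ : ℝ), 0 < σ → P y < σ → σ < τ → F (σ⁻¹ • y) ≤ 1 →
      F (τ⁻¹ • y) < 1 := by
    intro y σ τ hσ hPy hστ hF
    have hτ : 0 < τ := hσ.trans hστ
    have h1 : P (σ⁻¹ • y) < 1 := by
      rw [hP.smul, abs_of_pos (inv_pos.2 hσ), inv_mul_lt_iff₀ hσ, mul_one]
      exact hPy
    have h2 := ray (σ⁻¹ • y) (σ / τ) h1 (by positivity) ((div_le_one hτ).2 hστ.le)
    have h3 : (σ / τ) • σ⁻¹ • y = τ⁻¹ • y := by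
      rw [smul_smul]; congr 1; field_simp
    rw [h3] at h2
    calc F (τ⁻¹ • y) ≤ σ / τ * F (σ⁻¹ • y) := h2
      _ ≤ σ / τ * 1 := mul_le_mul_of_nonneg_left hF (by positivity)
      _ < 1 := by rw [mul_one]; exact (div_lt_one hτ).2 hστ
  have ex : ∀ y : Y, y ≠ 0 → ∃ ρ : ℝ, P y < ρ ∧ F (ρ⁻¹ • y) = 1 := by
    intro y hy
    obtain ⟨r, hr0, hr1, hr2⟩ := hbig y hy
    have hcont : ContinuousOn (fun s : ℝ => F (s • y)) (Icc 0 r) := by
      refine hC1.continuousOn.comp (by fun_prop) ?_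
      intro s hs
      show P (s • y) < 1
      rw [hP.smul, abs_of_nonneg hs.1]
      rw [hP.smul, abs_of_pos hr0] at hr1
      exact lt_of_le_of_lt (mul_le_mul_of_nonneg_right hs.2 (hP.nonneg y)) hr1
    have h1 : (1 : ℝ) ∈ Icc (F ((0:ℝ) • y)) (F (r • y)) := by
      rw [zero_smul, hF0]
      exact ⟨zero_le_one, hr2.le⟩
    obtain ⟨s, hs, hs1⟩ := intermediate_value_Icc hr0.le hcont h1
    have hs0 : 0 < s := by
      rcases lt_or_eq_of_le hs.1 with h | h
      · exact h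
      · exfalso
        simp only [← h, zero_smul, hF0] at hs1
        norm_num at hs1
    refine ⟨s⁻¹, ?_, by rw [inv_inv]; exact hs1⟩
    rw [hP.smul, abs_of_pos hr0] at hr1
    have h2 : s * P y < 1 := lt_of_le_of_lt (mul_le_mul_of_nonneg_right hs.2 (hP.nonneg y)) hr1
    rw [← one_div, lt_div_iff₀ hs0, mul_comm]
    exact h2
  choose! ρ hρ1 hρ2 using ex
  obtain ⟨N, hN⟩ : ∃ N : Y → ℝ, N = fun y => if y = 0 then 0 else ρ y := ⟨_, rfl⟩
  have N0 : N 0 = 0 := by rw [hN]; simp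
  have Nne : ∀ y, y ≠ 0 → N y = ρ y := fun y hy => by rw [hN]; simp [hy]
  have NP : ∀ y, y ≠ 0 → P y < N y := fun y hy => by rw [Nne y hy]; exact hρ1 y hy
  have NF : ∀ y, y ≠ 0 → F ((N y)⁻¹ • y) = 1 := fun y hy => by rw [Nne y hy]; exact hρ2 y hy
  have Npos : ∀ y, y ≠ 0 → 0 < N y := fun y hy => (hP.pos hy).trans (NP y hy)
  have star : ∀ y σ, y ≠ 0 → P y < σ → F (σ⁻¹ • y) ≤ 1 → N y ≤ σ := by
    intro y σ hy hPσ hFσ
    by_contra hlt
    push Not at hlt
    have := mono y σ (N y) ((hP.pos hy).trans hPσ) hPσ hlt hFσ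
    rw [NF y hy] at this
    exact lt_irrefl _ this
  have uniq : ∀ y σ, y ≠ 0 → P y < σ → F (σ⁻¹ • y) = 1 → N y = σ := by
    intro y σ hy hPσ hFσ
    refine le_antisymm (star y σ hy hPσ hFσ.le) ?_
    by_contra hlt
    push Not at hlt
    have := mono y (N y) σ (Npos y hy) (NP y hy) hlt (NF y hy).le
    rw [hFσ] at this
    exact lt_irrefl _ this
  have le2 : ∀ y, y ≠ 0 → N y ≤ 2 * P y := by
    intro y hy
    by_contra hlt
    push Not at hlt
    have h1 : P ((N y)⁻¹ • y) ≤ 1 / 2 := by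
      rw [hP.smul, abs_of_pos (inv_pos.2 (Npos y hy)), inv_mul_le_iff₀ (Npos y hy)]
      linarith
    have h2 := hzero _ h1
    rw [NF y hy] at h2
    norm_num at h2
  have NΩ : ∀ y, y ≠ 0 → P ((N y)⁻¹ • y) < 1 := by
    intro y hy
    rw [hP.smul, abs_of_pos (inv_pos.2 (Npos y hy)), inv_mul_lt_iff₀ (Npos y hy), mul_one]
    exact NP y hy
  have Nnn : ∀ y, 0 ≤ N y := by
    intro y
    by_cases hy : y = 0
    · rw [hy, N0]
    · exact (Npos y hy).le
  have eN : EqNorm Y N := by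
    refine ⟨fun y z => ?_, fun a y => ?_, fun y hy => ?_, ?_⟩
    · by_cases hy : y = 0
      · rw [hy, N0, zero_add, zero_add]
      by_cases hz : z = 0
      · rw [hz, N0, add_zero, add_zero]
      by_cases hyz : y + z = 0
      · rw [hyz, N0]
        exact add_nonneg (Nnn y) (Nnn z)
      have hs : 0 < N y + N z := add_pos (Npos y hy) (Npos z hz)
      refine star _ _ hyz ?_ ?_
      · exact (hP.add_le y z).trans_lt (add_lt_add (NP y hy) (NP z hz))
      · have hw1 : 0 ≤ N y / (N y + N z) := div_nonneg (Nnn y) hs.le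
        have hw2 : 0 ≤ N z / (N y + N z) := div_nonneg (Nnn z) hs.le
        have h1 := hconv.2 (NΩ y hy) (NΩ z hz) hw1 hw2
          (by rw [← add_div]; exact div_self hs.ne')
        rw [NF y hy, NF z hz] at h1
        have hyn := (Npos y hy).ne'
        have hzn := (Npos z hz).ne'
        have h2 : (N y / (N y + N z)) • (N y)⁻¹ • y + (N z / (N y + N z)) • (N z)⁻¹ • z
            = (N y + N z)⁻¹ • (y + z) := by
          rw [smul_smul, smul_smul, smul_add]
          congr 2 <;> field_simp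
        rw [h2] at h1
        refine h1.trans (le_of_eq ?_)
        simp only [smul_eq_mul, mul_one]
        rw [← add_div]
        exact div_self hs.ne'
    · by_cases ha : a = 0
      · rw [ha, zero_smul, N0, abs_zero, zero_mul]
      by_cases hy : y = 0
      · rw [hy, smul_zero, N0, mul_zero]
      have ha' : 0 < |a| := abs_pos.2 ha
      have hay : a • y ≠ 0 := smul_ne_zero ha hy
      refine uniq _ _ hay ?_ ?_
      · rw [hP.smul]
        exact mul_lt_mul_of_pos_left (NP y hy) ha'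
      · rw [mul_inv, smul_smul]
        rcases lt_or_gt_of_ne ha with h | h
        · rw [abs_of_neg h]
          have : ((-a)⁻¹ * (N y)⁻¹ * a) • y = -((N y)⁻¹ • y) := by
            rw [← neg_smul]; congr 1
            have hyn := (Npos y hy).ne'
            field_simp
          rw [this, heven]
          exact NF y hy
        · rw [abs_of_pos h]
          have : (a⁻¹ * (N y)⁻¹ * a) • y = (N y)⁻¹ • y := by
            congr 1
            have hyn := (Npos y hy).ne'
            field_simp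
          rw [this]
          exact NF y hy
    · by_contra hne
      exact (Npos y hne).ne' hy
    · obtain ⟨c, C, hc, hC, hcC⟩ := hP.equiv
      refine ⟨c, 2 * C, hc, by positivity, fun y => ?_⟩
      by_cases hy : y = 0
      · rw [hy, N0]; simp
      · refine ⟨(hcC y).1.trans (NP y hy).le, (le2 y hy).trans ?_⟩
        have := (hcC y).2
        linarith
  refine ⟨N, eN, ?_⟩
  have hOpen : IsOpen {f : Y | f ≠ 0} := isOpen_ne
  have Ncont := eN.continuous
  obtain ⟨C, hC, hLip⟩ := Gauge_lip eN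
  -- the derivative in the radial direction
  have rad : ∀ y, y ≠ 0 → 1 ≤ fderiv ℝ F ((N y)⁻¹ • y) ((N y)⁻¹ • y) := by
    intro y hy
    obtain ⟨x0, hx0⟩ : ∃ x0 : Y, x0 = (N y)⁻¹ • y := ⟨_, rfl⟩
    rw [← hx0]
    have hx0Ω : P x0 < 1 := by rw [hx0]; exact NΩ y hy
    have hd : HasFDerivAt F (fderiv ℝ F x0) x0 :=
      ((hC1.differentiableOn one_ne_zero).differentiableAt (hΩ.mem_nhds hx0Ω)).hasFDerivAt
    have hd1 : HasDerivAt (fun s : ℝ => F (s • x0)) (fderiv ℝ F x0 x0) 1 := by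
      have h1 : HasDerivAt (fun s : ℝ => s • x0) x0 1 := by
        simpa using (hasDerivAt_id (1:ℝ)).smul_const x0
      have h2 : HasFDerivAt F (fderiv ℝ F x0) ((1:ℝ) • x0) := by rw [one_smul]; exact hd
      exact h2.comp_hasDerivAt 1 h1
    have hcv : ConvexOn ℝ (Icc (0:ℝ) 1) (fun s : ℝ => F (s • x0)) := by
      refine ⟨convex_Icc _ _, fun s hs t ht a b ha hb hab => ?_⟩
      have hsΩ : ∀ s ∈ Icc (0:ℝ) 1, P (s • x0) < 1 := by
        intro s hs
        rw [hP.smul, abs_of_nonneg hs.1]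
        exact lt_of_le_of_lt (mul_le_of_le_one_left (hP.nonneg x0) hs.2) hx0Ω
      have := hconv.2 (hsΩ s hs) (hsΩ t ht) ha hb hab
      simp only [smul_eq_mul] at this ⊢
      convert this using 2
      rw [add_smul, smul_smul, smul_smul]
    have := hcv.slope_le_of_hasDerivAt (x := 0) (y := 1) ⟨le_rfl, zero_le_one⟩
      ⟨zero_le_one, le_rfl⟩ zero_lt_one hd1
    rw [slope_def_field] at this
    simp only [one_smul, zero_smul, hF0, sub_zero, div_one] at this
    rwa [hx0, NF y hy, ← hx0] at this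
  have key : ∀ y, y ≠ 0 → HasFDerivAt N
      ((fderiv ℝ F ((N y)⁻¹ • y) ((N y)⁻¹ • y))⁻¹ • fderiv ℝ F ((N y)⁻¹ • y)) y := by
    intro y0 hy0
    obtain ⟨x0, hx0⟩ : ∃ x0 : Y, x0 = (N y0)⁻¹ • y0 := ⟨_, rfl⟩
    rw [← hx0]
    have hx0Ω : P x0 < 1 := by rw [hx0]; exact NΩ y0 hy0
    have hd : HasFDerivAt F (fderiv ℝ F x0) x0 :=
      ((hC1.differentiableOn one_ne_zero).differentiableAt (hΩ.mem_nhds hx0Ω)).hasFDerivAt
    have hrad : 1 ≤ fderiv ℝ F x0 x0 := by rw [hx0]; exact rad y0 hy0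
    have hFx0 : F x0 = 1 := by rw [hx0]; exact NF y0 hy0
    obtain ⟨F', hF'⟩ : ∃ F' : Y →L[ℝ] ℝ, F' = fderiv ℝ F x0 := ⟨_, rfl⟩
    rw [← hF'] at hd hrad ⊢
    have hN0 := Npos y0 hy0
    have hy0x : y0 = N y0 • x0 := by
      rw [hx0, smul_smul, mul_inv_cancel₀ hN0.ne', one_smul]
    -- the map `x(y)`
    have htend : Tendsto (fun y => (N y)⁻¹ • y) (𝓝 y0) (𝓝 x0) := by
      rw [hx0]
      exact ((Ncont.tendsto y0).inv₀ hN0.ne').smul tendsto_id
    have hident : ∀ y, y ≠ 0 → N y • ((N y)⁻¹ • y - x0) = (y - y0) - (N y - N y0) • x0 := by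
      intro y hy
      rw [smul_sub, smul_smul, mul_inv_cancel₀ (Npos y hy).ne', one_smul, sub_smul, ← hy0x]
      abel
    have hne : ∀ᶠ y in 𝓝 y0, y ≠ 0 := hOpen.mem_nhds hy0
    have hhalf : ∀ᶠ y in 𝓝 y0, N y0 / 2 < N y :=
      (Ncont.tendsto y0).eventually (lt_mem_nhds (by linarith))
    have hNtop : ∀ᶠ y in 𝓝 y0, N y < N y0 + 1 :=
      (Ncont.tendsto y0).eventually (gt_mem_nhds (by linarith))
    have hO : (fun y => (N y)⁻¹ • y - x0) =O[𝓝 y0] fun y => y - y0 := by
      refine Asymptotics.IsBigO.of_bound ((N y0 / 2)⁻¹ * (1 + C * ‖x0‖)) ?_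
      filter_upwards [hne, hhalf] with y hy hyh
      have hNy := Npos y hy
      have h1 : (N y)⁻¹ • y - x0 = (N y)⁻¹ • ((y - y0) - (N y - N y0) • x0) := by
        rw [← hident y hy, smul_smul, inv_mul_cancel₀ hNy.ne', one_smul]
      have h2 : ‖(y - y0) - (N y - N y0) • x0‖ ≤ (1 + C * ‖x0‖) * ‖y - y0‖ := by
        calc ‖(y - y0) - (N y - N y0) • x0‖ ≤ ‖y - y0‖ + ‖(N y - N y0) • x0‖ := norm_sub_le _ _
          _ = ‖y - y0‖ + |N y - N y0| * ‖x0‖ := by rw [norm_smul, Real.norm_eq_abs]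
          _ ≤ ‖y - y0‖ + C * ‖y - y0‖ * ‖x0‖ := by
            gcongr
            exact hLip y y0
          _ = (1 + C * ‖x0‖) * ‖y - y0‖ := by ring
      rw [h1, norm_smul, norm_inv, Real.norm_eq_abs, abs_of_pos hNy, mul_assoc]
      have h3 : (N y)⁻¹ ≤ (N y0 / 2)⁻¹ := inv_anti₀ (by linarith) hyh.le
      exact mul_le_mul h3 h2 (norm_nonneg _) (by positivity)
    have ho1 : (fun y => F ((N y)⁻¹ • y) - F x0 - F' ((N y)⁻¹ • y - x0)) =o[𝓝 y0]
        fun y => (N y)⁻¹ • y - x0 :=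
      (hasFDerivAt_iff_isLittleO.1 hd).comp_tendsto htend
    have ho2 : (fun y => F' ((N y)⁻¹ • y - x0)) =o[𝓝 y0] fun y => y - y0 := by
      refine ((ho1.trans_isBigO hO).neg_left).congr' ?_ EventuallyEq.rfl
      filter_upwards [hne] with y hy
      rw [NF y hy, hFx0]
      ring
    have ho3 : (fun y => N y • F' ((N y)⁻¹ • y - x0)) =o[𝓝 y0] fun y => y - y0 := by
      have hb : (fun y => N y) =O[𝓝 y0] fun _ => (1 : ℝ) := by
        refine Asymptotics.IsBigO.of_bound (N y0 + 1) ?_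
        filter_upwards [hNtop] with y hy
        rw [Real.norm_eq_abs, abs_of_nonneg (Nnn y), norm_one, mul_one]
        exact hy.le
      simpa using hb.smul_isLittleO ho2
    rw [hasFDerivAt_iff_isLittleO]
    refine ((ho3.const_smul_left (-(F' x0)⁻¹))).congr' ?_ EventuallyEq.rfl
    filter_upwards [hne] with y hy
    have h4 : N y • F' ((N y)⁻¹ • y - x0) = F' (y - y0) - (N y - N y0) * F' x0 := by
      rw [← map_smul, hident y hy, map_sub, map_smul, smul_eq_mul]
    have h5 : F' x0 ≠ 0 := by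
      have : (0:ℝ) < F' x0 := by linarith
      exact this.ne'
    simp only [Pi.smul_apply, smul_apply]
    rw [h4]
    simp only [smul_eq_mul]
    field_simp
    ring
  have h1 : ContDiffOn ℝ (0 + 1) N {f : Y | f ≠ 0} := by
    rw [contDiffOn_succ_iff_fderiv_of_isOpen hOpen]
    refine ⟨fun y hy => (key y hy).differentiableAt.differentiableWithinAt, by simp, ?_⟩
    rw [contDiffOn_zero]
    have hx : ContinuousOn (fun y : Y => (N y)⁻¹ • y) {f : Y | f ≠ 0} := by
      refine ContinuousOn.smul (Ncont.continuousOn.inv₀ fun y hy => (Npos y hy).ne')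
        continuousOn_id
    have hF' : ContinuousOn (fun y : Y => fderiv ℝ F ((N y)⁻¹ • y)) {f : Y | f ≠ 0} :=
      (hC1.continuousOn_fderiv_of_isOpen hΩ le_rfl).comp hx fun y hy => NΩ y hy
    refine ContinuousOn.congr (((hF'.clm_apply hx).inv₀ fun y hy => ?_).smul hF')
      fun y hy => (key y hy).fderiv
    have := rad y hy
    exact (lt_of_lt_of_le one_pos this).ne'
  simpa using h1

end Pool.Agent.helper26.CK
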