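import Pool.Agent.helper26.CK.Jump

/-!
# CK-Glue: the local statement `St` and its gluing lemmas
-/

set_option autoImplicit false

open Set Topology Filter

namespace Pool.Agent.helper26.CK

/-- The local statement on the interval `[a, b]`: finite sets `S s t` (for the jumps `(s, t)`) catch
every function whose maximum is attained inside `[a, b]` but not at `a`, `b`. -/
def St {L K : Type} [LinearOrder L] [TopologicalSpace K] (φ : L → K) (a b : L) : Prop :=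
  ∃ S : L → L → Set K, (∀ s t, (S s t).Finite) ∧ ∀ (h : C(K, ℝ)) (M : ℝ), (∀ x, h x ≤ M) →
    h (φ a) < M → h (φ b) < M → (∃ x, a ≤ x ∧ x ≤ b ∧ h (φ x) = M) →
    ∃ s t, a ≤ s ∧ s ⋖ t ∧ t ≤ b ∧ h (φ s) ≠ h (φ t) ∧ ∃ y ∈ S s t, h y = M

variable {L K : Type} [LinearOrder L] [TopologicalSpace K] {φ : L → K}

theorem St_refl (a : L) : St φ a a := by
  refine ⟨fun _ _ => ∅, fun _ _ => finite_empty, ?_⟩
  rintro h M - ha - ⟨x, hx1, hx2, hx3⟩
  exfalso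
  have : x = a := le_antisymm hx2 hx1
  subst this
  exact absurd hx3 ha.ne

theorem St_jump {a b : L} (hab : a ⋖ b) : St φ a b := by
  refine ⟨fun _ _ => ∅, fun _ _ => finite_empty, ?_⟩
  rintro h M - ha hb ⟨x, hx1, hx2, hx3⟩
  exfalso
  rcases eq_or_lt_of_le hx1 with rfl | h1
  · exact absurd hx3 ha.ne
  · rcases eq_or_lt_of_le hx2 with rfl | h2
    · exact absurd hx3 hb.ne
    · exact hab.2 h1 h2

/-- `St` for the dual order -/
theorem St_dual {a b : L} (h : St φ a b) :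
    St (L := Lᵒᵈ) (φ ∘ OrderDual.ofDual) (OrderDual.toDual b) (OrderDual.toDual a) := by
  obtain ⟨S, hS1, hS2⟩ := h
  refine ⟨fun s t => S (OrderDual.ofDual t) (OrderDual.ofDual s), fun s t => hS1 _ _, ?_⟩
  rintro h M hM hb ha ⟨x, hx1, hx2, hx3⟩
  obtain ⟨s, t, h1, h2, h3, h4, y, hy, hy2⟩ := hS2 h M hM ha hb ⟨OrderDual.ofDual x, hx2, hx1, hx3⟩
  exact ⟨OrderDual.toDual t, OrderDual.toDual s, h3, h2.toDual, h1, fun hh => h4 hh.symm, y, hy, hy2⟩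

theorem St_of_dual {a b : L}
    (h : St (L := Lᵒᵈ) (φ ∘ OrderDual.ofDual) (OrderDual.toDual b) (OrderDual.toDual a)) :
    St φ a b := by
  obtain ⟨S, hS1, hS2⟩ := h
  refine ⟨fun s t => S (OrderDual.toDual t) (OrderDual.toDual s), fun s t => hS1 _ _, ?_⟩
  rintro h M hM hb ha ⟨x, hx1, hx2, hx3⟩
  obtain ⟨s, t, h1, h2, h3, h4, y, hy, hy2⟩ := hS2 h M hM ha hb ⟨OrderDual.toDual x, hx2, hx1, hx3⟩
  exact ⟨OrderDual.ofDual t, OrderDual.ofDual s, h3, h2.ofDual, h1, fun hh => h4 hh.symm, y, hy, hy2⟩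

variable [TopologicalSpace L] [OrderTopology L] [CompactSpace L] [CompactSpace K]

theorem St_glue (hK : Scattered K) (hφ : Continuous φ) {a b c : L} (hab : a ≤ b) (hbc : b ≤ c)
    (h1 : St φ a b) (h2 : St φ b c) : St φ a c := by
  obtain ⟨S, hS1, hS2⟩ := h1
  obtain ⟨T, hT1, hT2⟩ := h2
  refine ⟨fun s t => insert (φ b) (S s t ∪ T s t), fun s t => ((hS1 s t).union (hT1 s t)).insert _, ?_⟩
  rintro h M hM ha hc ⟨x, hx1, hx2, hx3⟩
  by_cases hb : h (φ b) = M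
  · obtain ⟨s, t, h1, h2, h3, h4⟩ := exists_jump hK hφ h hab (by rw [hb]; exact ha.ne)
    exact ⟨s, t, h1, h2, h3.trans hbc, h4, φ b, mem_insert _ _, hb⟩
  · have hb' : h (φ b) < M := lt_of_le_of_ne (hM _) hb
    rcases le_total x b with hxb | hxb
    · obtain ⟨s, t, h1, h2, h3, h4, y, hy, hy2⟩ := hS2 h M hM ha hb' ⟨x, hx1, hxb, hx3⟩
      exact ⟨s, t, h1, h2, h3.trans hbc, h4, y, mem_insert_of_mem _ (Or.inl hy), hy2⟩
    · obtain ⟨s, t, h1, h2, h3, h4, y, hy, hy2⟩ := hT2 h M hM hb' hc ⟨x, hxb, hx2, hx3⟩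
      exact ⟨s, t, hab.trans h1, h2, h3, h4, y, mem_insert_of_mem _ (Or.inr hy), hy2⟩

/-! ### one-sided limits -/

section right
variable {a e : L}

/-- existence of a cofinal well-ordered set of records -/
theorem exists_records (a e : L) : ∃ C : Set L, C ⊆ Ico a e ∧
    (∀ z, a ≤ z → z < e → ∃ x ∈ C, z ≤ x) ∧
    ∀ T ⊆ C, T.Nonempty → ∃ m ∈ T, ∀ y ∈ T, m ≤ y := by
  let r : L → L → Prop := WellOrderingRel
  haveI : IsWellOrder L r := WellOrderingRel.isWellOrder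
  have hwf : WellFounded r := IsWellFounded.wf
  let C : Set L := {x | x ∈ Ico a e ∧ ∀ y ∈ Ico a e, r y x → y < x}
  refine ⟨C, fun x hx => hx.1, ?_, ?_⟩
  · intro z hz1 hz2
    have hne : ({x | x ∈ Ico a e ∧ z ≤ x} : Set L).Nonempty := ⟨z, ⟨hz1, hz2⟩, le_rfl⟩
    refine ⟨hwf.min _ hne, ⟨(hwf.min_mem _ hne).1, ?_⟩, (hwf.min_mem _ hne).2⟩
    intro y hy hyr
    by_contra hcon
    have h1 : z ≤ y := (hwf.min_mem _ hne).2.trans (not_lt.1 hcon)
    exact hwf.not_lt_min {x | x ∈ Ico a e ∧ z ≤ x} ⟨hy, h1⟩ hyr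
  · intro T hT hTne
    refine ⟨hwf.min T hTne, hwf.min_mem T hTne, ?_⟩
    intro y hy
    rcases trichotomous_of r y (hwf.min T hTne) with h | h | h
    · exact absurd h (hwf.not_lt_min T hy)
    · exact h.ge
    · exact ((hT hy).2 _ (hT (hwf.min_mem T hTne)).1 h).le

/-- the least upper bound of `C ∩ (-∞, x]` in `[a, x]` -/
theorem exists_lam (C : Set L) (a x : L) (hax : a ≤ x) : ∃ l, (a ≤ l ∧ l ≤ x ∧
    ∀ y ∈ C, y ≤ x → y ≤ l) ∧ ∀ z, a ≤ z → (∀ y ∈ C, y ≤ x → y ≤ z) → l ≤ z := by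
  have hcomp : IsCompact (Icc a x ∩ ⋂ y ∈ {y | y ∈ C ∧ y ≤ x}, Ici y) :=
    (isClosed_Icc.inter (isClosed_biInter fun y _ => isClosed_Ici)).isCompact
  obtain ⟨l, ⟨hl1, hl2⟩, hl3⟩ := hcomp.exists_isLeast ⟨x, ⟨hax, le_rfl⟩, by
    simp only [mem_iInter, mem_Ici]
    intro y hy
    exact hy.2⟩
  simp only [mem_iInter, mem_Ici] at hl2
  refine ⟨l, ⟨hl1.1, hl1.2, fun y hy hyx => hl2 y ⟨hy, hyx⟩⟩, ?_⟩
  intro z hz1 hz2
  by_contra hcon
  have hzl : z < l := not_le.1 hcon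
  have : l ≤ z := hl3 ⟨⟨hz1, hzl.le.trans hl1.2⟩, by
    simp only [mem_iInter, mem_Ici]
    intro y hy
    exact hz2 y hy.1 hy.2⟩
  exact hcon this

/-- right limit gluing -/
theorem St_right (hK : Scattered K) (hφ : Continuous φ) (hae : a < e)
    (H : ∀ x y, a ≤ x → x ≤ y → y < e → St φ x y) : St φ a e := by
  classical
  obtain ⟨C, hCsub, hCcof, hCwf⟩ := exists_records a e
  -- the function `lam`
  have hlam : ∀ x, ∃ l, a ≤ x → (a ≤ l ∧ l ≤ x ∧ ∀ y ∈ C, y ≤ x → y ≤ l) ∧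
      ∀ z, a ≤ z → (∀ y ∈ C, y ≤ x → y ≤ z) → l ≤ z := by
    intro x
    by_cases hx : a ≤ x
    · obtain ⟨l, hl⟩ := exists_lam C a x hx
      exact ⟨l, fun _ => hl⟩
    · exact ⟨x, fun h => absurd h hx⟩
  choose lam hlam' using hlam
  have l1 : ∀ x, a ≤ x → a ≤ lam x := fun x hx => (hlam' x hx).1.1
  have l2 : ∀ x, a ≤ x → lam x ≤ x := fun x hx => (hlam' x hx).1.2.1
  have l3 : ∀ x, a ≤ x → ∀ y ∈ C, y ≤ x → y ≤ lam x := fun x hx => (hlam' x hx).1.2.2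
  have l4 : ∀ x, a ≤ x → ∀ z, a ≤ z → (∀ y ∈ C, y ≤ x → y ≤ z) → lam x ≤ z :=
    fun x hx => (hlam' x hx).2
  have lC : ∀ y ∈ C, lam y = y := fun y hy =>
    le_antisymm (l2 y (hCsub hy).1) (l3 y (hCsub hy).1 y hy le_rfl)
  -- the function `nu`
  have hnu : ∀ x, ∃ v, (∃ y ∈ C, x < y) → (v ∈ C ∧ x < v) ∧ ∀ y ∈ C, x < y → v ≤ y := by
    intro x
    by_cases hx : ∃ y ∈ C, x < y
    · obtain ⟨y, hy1, hy2⟩ := hx
      obtain ⟨m, ⟨hm1, hm2⟩, hm3⟩ := hCwf {y | y ∈ C ∧ x < y} (fun y hy => hy.1) ⟨y, hy1, hy2⟩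
      exact ⟨m, fun _ => ⟨⟨hm1, hm2⟩, fun y hy hxy => hm3 y ⟨hy, hxy⟩⟩⟩
    · exact ⟨x, fun h => absurd h hx⟩
  choose nu hnu' using hnu
  -- the blocks
  have lam_eq : ∀ x, a ≤ x → (∃ y ∈ C, x < y) → ∀ s, lam x ≤ s → s < nu x → lam s = lam x := by
    intro x hx hxC s hs1 hs2
    have has : a ≤ s := (l1 x hx).trans hs1
    refine le_antisymm (l4 s has _ (l1 x hx) ?_) (l4 x hx _ (l1 s has) ?_)
    · intro y hy hys
      by_contra hcon
      have hxy : x < y := by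
        by_contra hxy
        exact hcon (l3 x hx y hy (not_lt.1 hxy))
      exact absurd ((hnu' x hxC).2 y hy hxy) (not_le.2 (hys.trans_lt hs2))
    · intro y hy hyx
      exact l3 s has y hy ((l3 x hx y hy hyx).trans hs1)
  have nu_eq : ∀ x, a ≤ x → (∃ y ∈ C, x < y) → ∀ s, lam x ≤ s → s < nu x →
      (∃ y ∈ C, s < y) ∧ nu s = nu x := by
    intro x hx hxC s hs1 hs2
    have hsC : ∃ y ∈ C, s < y := ⟨nu x, (hnu' x hxC).1.1, hs2⟩
    refine ⟨hsC, le_antisymm ((hnu' s hsC).2 _ (hnu' x hxC).1.1 hs2) ?_⟩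
    refine (hnu' x hxC).2 _ (hnu' s hsC).1.1 ?_
    by_contra hcon
    have := l3 x hx _ (hnu' s hsC).1.1 (not_lt.1 hcon)
    exact absurd (this.trans hs1) (not_le.2 (hnu' s hsC).1.2)
  -- the systems
  have hsys : ∀ x y, ∃ S : L → L → Set K, (∀ s t, (S s t).Finite) ∧
      (a ≤ x → x ≤ y → y < e → ∀ (h : C(K, ℝ)) (M : ℝ), (∀ x, h x ≤ M) →
        h (φ x) < M → h (φ y) < M → (∃ z, x ≤ z ∧ z ≤ y ∧ h (φ z) = M) →
        ∃ s t, x ≤ s ∧ s ⋖ t ∧ t ≤ y ∧ h (φ s) ≠ h (φ t) ∧ ∃ w ∈ S s t, h w = M) := by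
    intro x y
    by_cases hxy : a ≤ x ∧ x ≤ y ∧ y < e
    · obtain ⟨S, hS1, hS2⟩ := H x y hxy.1 hxy.2.1 hxy.2.2
      exact ⟨S, hS1, fun _ _ _ => hS2⟩
    · exact ⟨fun _ _ => ∅, fun _ _ => finite_empty, fun h1 h2 h3 => absurd ⟨h1, h2, h3⟩ hxy⟩
  choose Sy hSy1 hSy2 using hsys
  refine ⟨fun s t => {φ (lam s), φ s} ∪ Sy (lam s) (nu s) s t,
    fun s t => (toFinite _).union (hSy1 _ _ _ _), ?_⟩
  rintro h M hM ha he ⟨x0, hx1, hx2, hx3⟩
  have hgc : Continuous fun x => h (φ x) := h.continuous.comp hφ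
  have hXc : IsClosed {x | x ∈ Icc a e ∧ h (φ x) = M} :=
    isClosed_Icc.inter (isClosed_eq hgc continuous_const)
  have ltM : ∀ x, h (φ x) ≠ M → h (φ x) < M := fun x hx => lt_of_le_of_ne (hM _) hx
  by_cases hX' : ∃ x, a ≤ x ∧ x ≤ e ∧ h (φ x) = M ∧ lam x = x
  · -- Case 1
    let X' : Set L := {x | a ≤ x ∧ x ≤ e ∧ h (φ x) = M ∧ lam x = x}
    have hX'ne : X'.Nonempty := hX'
    -- least upper bound of X'
    have hcomp : IsCompact (upperBounds X' ∩ Icc a e) := by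
      have h0 : upperBounds X' = ⋂ x ∈ X', Ici x := by
        ext z
        simp [upperBounds]
      have : IsClosed (upperBounds X' : Set L) := by
        rw [h0]
        exact isClosed_biInter fun x _ => isClosed_Ici
      exact (this.inter isClosed_Icc).isCompact
    obtain ⟨l, ⟨hl1, hl2⟩, hl3⟩ := hcomp.exists_isLeast
      ⟨e, fun x hx => hx.2.1, hae.le, le_rfl⟩
    have hlub : IsLUB X' l := by
      refine ⟨hl1, fun z hz => ?_⟩
      obtain ⟨x, hx⟩ := hX'ne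
      by_contra hcon
      have hzl : z < l := not_le.1 hcon
      exact hcon (hl3 ⟨hz, hx.1.trans (hz hx), hzl.le.trans hl2.2⟩)
    have hlX : l ∈ {x | x ∈ Icc a e ∧ h (φ x) = M} := by
      have h1 : l ∈ closure X' := hlub.mem_closure hX'ne
      have h2 : X' ⊆ {x | x ∈ Icc a e ∧ h (φ x) = M} :=
        fun x hx => ⟨⟨hx.1, hx.2.1⟩, hx.2.2.1⟩
      exact closure_minimal h2 hXc h1
    obtain ⟨⟨hal, hle⟩, hlM⟩ := hlX
    have hle' : l < e := lt_of_le_of_ne hle (by rintro rfl; exact he.ne hlM)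
    have hll : lam l = l := by
      refine le_antisymm (l2 l hal) ?_
      refine hl3 ⟨?_, l1 l hal, (l2 l hal).trans hle⟩
      intro x hx
      have hxl : x ≤ l := hl1 hx
      have h2 : lam x ≤ lam l := by
        refine l4 x hx.1 _ (l1 l hal) fun y hy hyx => l3 l hal y hy (hyx.trans hxl)
      rwa [hx.2.2.2] at h2
    by_cases hlC : ∃ y ∈ C, l < y
    · obtain ⟨⟨hv1, hv2⟩, hv3⟩ := hnu' l hlC
      have hve : nu l < e := (hCsub hv1).2
      have hvM : h (φ (nu l)) ≠ M := by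
        intro hh
        have : nu l ∈ X' := ⟨(hCsub hv1).1, hve.le, hh, lC _ hv1⟩
        exact absurd (hl1 this) (not_le.2 hv2)
      obtain ⟨s, t, h1, h2, h3, h4⟩ := exists_jump hK hφ h hv2.le (by rw [hlM]; exact hvM.symm)
      refine ⟨s, t, hal.trans h1, h2, h3.trans hve.le, h4, φ (lam s), Or.inl (mem_insert _ _), ?_⟩
      rw [lam_eq l hal hlC s (by rw [hll]; exact h1) (h2.1.trans_le h3), hll]
      exact hlM
    · -- no point between l and e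
      have hcov : l ⋖ e := by
        refine ⟨hle', fun z hz1 hz2 => ?_⟩
        obtain ⟨y, hy, hzy⟩ := hCcof z (hal.trans hz1.le) hz2
        exact hlC ⟨y, hy, hz1.trans_le hzy⟩
      exact ⟨l, e, hal, hcov, le_rfl, by rw [hlM]; exact he.ne', φ l,
        Or.inl (mem_insert_of_mem _ rfl), hlM⟩
  · -- Case 2
    have hno : ∀ x, a ≤ x → x ≤ e → lam x = x → h (φ x) ≠ M :=
      fun x h1 h2 h3 h4 => hX' ⟨x, h1, h2, h4, h3⟩
    have hx0e : x0 < e := lt_of_le_of_ne hx2 (by rintro rfl; exact he.ne hx3)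
    have hidem : lam (lam x0) = lam x0 := by
      refine le_antisymm (l2 _ (l1 x0 hx1)) ?_
      exact l4 x0 hx1 _ (l1 _ (l1 x0 hx1)) fun y hy hyx =>
        l3 _ (l1 x0 hx1) y hy (l3 x0 hx1 y hy hyx)
    have h1 : h (φ (lam x0)) < M :=
      ltM _ (hno _ (l1 x0 hx1) ((l2 x0 hx1).trans hx2) hidem)
    have hxC : ∃ y ∈ C, x0 < y := by
      obtain ⟨y, hy, hxy⟩ := hCcof x0 hx1 hx0e
      rcases eq_or_lt_of_le hxy with rfl | hlt
      · exact absurd hx3 (hno _ hx1 hx2 (lC _ hy))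
      · exact ⟨y, hy, hlt⟩
    obtain ⟨⟨hv1, hv2⟩, hv3⟩ := hnu' x0 hxC
    have hve : nu x0 < e := (hCsub hv1).2
    have h2 : h (φ (nu x0)) < M := ltM _ (hno _ (hCsub hv1).1 hve.le (lC _ hv1))
    obtain ⟨s, t, g1, g2, g3, g4, y, hy, hy2⟩ := hSy2 (lam x0) (nu x0) (l1 x0 hx1)
      ((l2 x0 hx1).trans hv2.le) hve h M hM h1 h2 ⟨x0, l2 x0 hx1, hv2.le, hx3⟩
    have hs : s < nu x0 := g2.1.trans_le g3
    refine ⟨s, t, (l1 x0 hx1).trans g1, g2, g3.trans hve.le, g4, y, Or.inr ?_, hy2⟩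
    rw [lam_eq x0 hx1 hxC s g1 hs, (nu_eq x0 hx1 hxC s g1 hs).2]
    exact hy

/-- left limit gluing -/
theorem St_left (hK : Scattered K) (hφ : Continuous φ) (hae : a < e)
    (H : ∀ x y, a < x → x ≤ y → y ≤ e → St φ x y) : St φ a e := by
  apply St_of_dual
  have : CompactSpace Lᵒᵈ := inferInstanceAs (CompactSpace L)
  refine St_right (L := Lᵒᵈ) (φ := φ ∘ OrderDual.ofDual) hK (hφ.comp continuous_ofDual)
    (a := OrderDual.toDual e) (e := OrderDual.toDual a) hae ?_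
  intro x y h1 h2 h3
  exact St_dual (H (OrderDual.ofDual y) (OrderDual.ofDual x) h3 h2 h1)

end right

end Pool.Agent.helper26.CK
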