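import Pool.Agent.helper26.CK.Glue

/-!
# CK-Glue2: gaps of a fibre, compactness, and the catching sets
-/

set_option autoImplicit false

open Set Topology Filter

namespace Pool.Agent.helper26.CK

variable {L K : Type} [LinearOrder L] [TopologicalSpace K] {φ : L → K}
  [TopologicalSpace L] [OrderTopology L] [CompactSpace L] [CompactSpace K] [T2Space K]

/-- gluing over the gaps of a fibre -/
theorem St_gap (hK : Scattered K) (hφ : Continuous φ) {a b : L} (hab : a ≤ b) (p : K)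
    (H : ∀ x y, a ≤ x → x ≤ y → y ≤ b → (∀ z, x ≤ z → z ≤ y → φ z ≠ p) → St φ x y) :
    St φ a b := by
  classical
  have hFc : IsClosed {z | φ z = p} := isClosed_singleton.preimage hφ
  -- left and right ends of the gaps
  have hl : ∀ x, ∃ l, a ≤ x → (a ≤ l ∧ l ≤ x ∧ (l = a ∨ φ l = p)) ∧
      ∀ z, a ≤ z → z ≤ x → (z = a ∨ φ z = p) → z ≤ l := by
    intro x
    by_cases hx : a ≤ x
    · have hc : IsCompact (Icc a x ∩ ({a} ∪ {z | φ z = p})) :=
        (isClosed_Icc.inter (isClosed_singleton.union hFc)).isCompact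
      obtain ⟨l, ⟨⟨h1, h2⟩, h3⟩, h4⟩ := hc.exists_isGreatest ⟨a, ⟨le_rfl, hx⟩, Or.inl rfl⟩
      exact ⟨l, fun _ => ⟨⟨h1, h2, h3⟩, fun z hz1 hz2 hz3 => h4 ⟨⟨hz1, hz2⟩, hz3⟩⟩⟩
    · exact ⟨x, fun h => absurd h hx⟩
  have hr : ∀ x, ∃ r, x ≤ b → (x ≤ r ∧ r ≤ b ∧ (r = b ∨ φ r = p)) ∧
      ∀ z, x ≤ z → z ≤ b → (z = b ∨ φ z = p) → r ≤ z := by
    intro x
    by_cases hx : x ≤ b
    · have hc : IsCompact (Icc x b ∩ ({b} ∪ {z | φ z = p})) :=
        (isClosed_Icc.inter (isClosed_singleton.union hFc)).isCompact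
      obtain ⟨l, ⟨⟨h1, h2⟩, h3⟩, h4⟩ := hc.exists_isLeast ⟨b, ⟨hx, le_rfl⟩, Or.inl rfl⟩
      exact ⟨l, fun _ => ⟨⟨h1, h2, h3⟩, fun z hz1 hz2 hz3 => h4 ⟨⟨hz1, hz2⟩, hz3⟩⟩⟩
    · exact ⟨x, fun h => absurd h hx⟩
  choose l hl' using hl
  choose r hr' using hr
  -- `St` on every gap
  have hSt : ∀ x, a ≤ x → x ≤ b → φ x ≠ p → St φ (l x) (r x) := by
    intro x hax hxb hxp
    obtain ⟨⟨l1, l2, l3⟩, l4⟩ := hl' x hax
    obtain ⟨⟨r1, r2, r3⟩, r4⟩ := hr' x hxb
    refine St_glue hK hφ l2 r1 ?_ ?_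
    · rcases eq_or_lt_of_le l2 with h | h
      · rw [h]; exact St_refl _
      · refine St_left hK hφ h ?_
        intro u v hu huv hv
        refine H u v (l1.trans hu.le) huv (hv.trans hxb) ?_
        intro z hz1 hz2 hz3
        exact absurd (l4 z ((l1.trans hu.le).trans hz1) (hz2.trans hv) (Or.inr hz3))
          (not_le.2 (hu.trans_le hz1))
    · rcases eq_or_lt_of_le r1 with h | h
      · rw [← h]; exact St_refl _
      · refine St_right hK hφ h ?_
        intro u v hu huv hv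
        refine H u v (hax.trans hu) huv (hv.le.trans r2) ?_
        intro z hz1 hz2 hz3
        exact absurd (r4 z (hu.trans hz1) ((hz2.trans hv.le).trans r2) (Or.inr hz3))
          (not_le.2 (hz2.trans_lt hv))
  -- the systems
  have hsys : ∀ x y, ∃ S : L → L → Set K, (∀ s t, (S s t).Finite) ∧
      (St φ x y → ∀ (h : C(K, ℝ)) (M : ℝ), (∀ x, h x ≤ M) →
        h (φ x) < M → h (φ y) < M → (∃ z, x ≤ z ∧ z ≤ y ∧ h (φ z) = M) →
        ∃ s t, x ≤ s ∧ s ⋖ t ∧ t ≤ y ∧ h (φ s) ≠ h (φ t) ∧ ∃ w ∈ S s t, h w = M) := by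
    intro x y
    by_cases hxy : St φ x y
    · obtain ⟨S, hS1, hS2⟩ := hxy
      exact ⟨S, hS1, fun _ => hS2⟩
    · exact ⟨fun _ _ => ∅, fun _ _ => finite_empty, fun h => absurd h hxy⟩
  choose Sy hSy1 hSy2 using hsys
  refine ⟨fun s t => {p} ∪ (Sy (l s) (r s) s t ∪ Sy (l t) (r t) s t),
    fun s t => (toFinite _).union ((hSy1 _ _ _ _).union (hSy1 _ _ _ _)), ?_⟩
  rintro h M hM ha hb ⟨x0, hx1, hx2, hx3⟩
  by_cases hp : h p = M
  · obtain ⟨s, t, h1, h2, h3, h4⟩ := exists_jump hK hφ h hx1 (by rw [hx3]; exact ha.ne)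
    exact ⟨s, t, h1, h2, h3.trans hx2, h4, p, Or.inl rfl, hp⟩
  · have hp' : h p < M := lt_of_le_of_ne (hM _) hp
    have hx0p : φ x0 ≠ p := by
      intro hh
      rw [hh] at hx3
      exact hp hx3
    obtain ⟨⟨l1, l2, l3⟩, l4⟩ := hl' x0 hx1
    obtain ⟨⟨r1, r2, r3⟩, r4⟩ := hr' x0 hx2
    have hlM : h (φ (l x0)) < M := by
      rcases l3 with h1 | h1
      · rw [h1]; exact ha
      · rw [h1]; exact hp'
    have hrM : h (φ (r x0)) < M := by
      rcases r3 with h1 | h1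
      · rw [h1]; exact hb
      · rw [h1]; exact hp'
    obtain ⟨s, t, g1, g2, g3, g4, y, hy, hy2⟩ := hSy2 (l x0) (r x0) (hSt x0 hx1 hx2 hx0p) h M hM
      hlM hrM ⟨x0, l2, r1, hx3⟩
    -- the gap of a point in the gap
    have hgap : ∀ w, l x0 ≤ w → w ≤ r x0 → φ w ≠ p → l w = l x0 ∧ r w = r x0 := by
      intro w hw1 hw2 hwp
      obtain ⟨⟨m1, m2, m3⟩, m4⟩ := hl' w (l1.trans hw1)
      obtain ⟨⟨n1, n2, n3⟩, n4⟩ := hr' w (hw2.trans r2)
      constructor
      · refine le_antisymm ?_ (m4 _ l1 hw1 l3)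
        by_contra hcon
        have hlt : l x0 < l w := not_le.1 hcon
        have hφl : φ (l w) = p := by
          rcases m3 with h1 | h1
          · exact absurd (l1.trans_lt hlt) (by rw [h1]; exact lt_irrefl _)
          · exact h1
        rcases le_or_gt (l w) x0 with h2 | h2
        · exact hcon (l4 _ m1 h2 (Or.inr hφl))
        · have h3 : r x0 ≤ l w := r4 _ h2.le (m2.trans (hw2.trans r2)) (Or.inr hφl)
          have h4 : l w = w := le_antisymm m2 (hw2.trans h3)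
          rw [h4] at hφl
          exact hwp hφl
      · refine le_antisymm (n4 _ hw2 r2 r3) ?_
        by_contra hcon
        have hlt : r w < r x0 := not_le.1 hcon
        have hφr : φ (r w) = p := by
          rcases n3 with h1 | h1
          · exact absurd (hlt.trans_le r2) (by rw [h1]; exact lt_irrefl _)
          · exact h1
        rcases le_or_gt x0 (r w) with h2 | h2
        · exact hcon (r4 _ h2 n2 (Or.inr hφr))
        · have h3 : r w ≤ l x0 := l4 _ ((l1.trans hw1).trans n1) h2.le (Or.inr hφr)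
          have h4 : r w = w := le_antisymm (h3.trans hw1) n1
          rw [h4] at hφr
          exact hwp hφr
    refine ⟨s, t, l1.trans g1, g2, g3.trans r2, g4, y, Or.inr ?_, hy2⟩
    by_cases hs : φ s = p
    · by_cases ht : φ t = p
      · exfalso
        have hsl : s ≤ x0 := by
          by_contra hcon
          have := r4 s (not_le.1 hcon).le ((g2.1.le.trans g3).trans r2) (Or.inr hs)
          exact absurd (this.trans_lt g2.1) (not_lt.2 g3)
        have hst : x0 ≤ t := by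
          by_contra hcon
          have := l4 t ((l1.trans g1).trans g2.1.le) (not_le.1 hcon).le (Or.inr ht)
          exact absurd (g1.trans_lt g2.1) (not_lt.2 this)
        rcases eq_or_lt_of_le hsl with h1 | h1
        · rw [← h1] at hx0p; exact hx0p hs
        · rcases eq_or_lt_of_le hst with h2 | h2
          · rw [h2] at hx0p; exact hx0p ht
          · exact g2.2 h1 h2
      · right
        obtain ⟨e1, e2⟩ := hgap t (g1.trans g2.1.le) g3 ht
        rw [e1, e2]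
        exact hy
    · left
      obtain ⟨e1, e2⟩ := hgap s g1 (g2.1.le.trans g3) hs
      rw [e1, e2]
      exact hy

/-- local to global -/
theorem St_of_good (hK : Scattered K) (hφ : Continuous φ) {a b : L} (hab : a ≤ b)
    (hg : ∀ x, a ≤ x → x ≤ b → ∃ W ∈ 𝓝 (φ x), ∀ u v, u ≤ v → (∀ z, u ≤ z → z ≤ v → φ z ∈ W) →
      St φ u v) : St φ a b := by
  let A : Set L := {y | a ≤ y ∧ y ≤ b ∧ St φ a y}
  have hane : a ∈ A := ⟨le_rfl, hab, St_refl a⟩
  have hcomp : IsCompact (upperBounds A ∩ Icc a b) := by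
    have h0 : upperBounds A = ⋂ x ∈ A, Ici x := by
      ext z
      simp [upperBounds]
    have : IsClosed (upperBounds A : Set L) := by
      rw [h0]
      exact isClosed_biInter fun x _ => isClosed_Ici
    exact (this.inter isClosed_Icc).isCompact
  obtain ⟨l, ⟨hl1, hl2⟩, hl3⟩ := hcomp.exists_isLeast ⟨b, fun x hx => hx.2.1, hab, le_rfl⟩
  have hlub : ∀ u, u < l → a ≤ u → ∃ y ∈ A, u < y := by
    intro u hu hau
    by_contra hcon
    push Not at hcon
    exact absurd (hl3 ⟨hcon, hau, hu.le.trans hl2.2⟩) (not_le.2 hu)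
  obtain ⟨W, hW, hWS⟩ := hg l hl2.1 hl2.2
  have hV : φ ⁻¹' W ∈ 𝓝 l := hφ.continuousAt hW
  have hlA : St φ a l := by
    rcases eq_or_lt_of_le hl2.1 with h | h
    · rw [← h]; exact St_refl _
    · obtain ⟨u, ⟨hu1, hu2⟩, hu3⟩ := exists_Ioc_subset_of_mem_nhds' hV h
      obtain ⟨y, ⟨hy1, hy2, hy3⟩, huy⟩ := hlub u hu2 hu1
      have hyl : y ≤ l := hl1 ⟨hy1, hy2, hy3⟩
      refine St_glue hK hφ hy1 hyl hy3 (hWS y l hyl fun z hz1 hz2 => ?_)
      exact hu3 ⟨huy.trans_le hz1, hz2⟩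
  rcases eq_or_lt_of_le hl2.2 with h | h
  · rw [← h]; exact hlA
  · exfalso
    obtain ⟨u, ⟨hu1, hu2⟩, hu3⟩ := exists_Ico_subset_of_mem_nhds' hV h
    by_cases hcov : l ⋖ u
    · have : u ∈ A := ⟨hl2.1.trans hu1.le, hu2, St_glue hK hφ hl2.1 hu1.le hlA (St_jump hcov)⟩
      exact absurd (hl1 this) (not_le.2 hu1)
    · rw [CovBy] at hcov
      push Not at hcov
      obtain ⟨x, hx1, hx2⟩ := hcov hu1
      have : x ∈ A := by
        refine ⟨hl2.1.trans hx1.le, hx2.le.trans hu2, St_glue hK hφ hl2.1 hx1.le hlA ?_⟩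
        exact hWS l x hx1.le fun z hz1 hz2 => hu3 ⟨hz1, hz2.trans_lt hx2⟩
      exact absurd (hl1 this) (not_le.2 hx1)

/-- `St` holds on every interval -/
theorem St_all (hK : Scattered K) (hφ : Continuous φ) {a b : L} (hab : a ≤ b) : St φ a b := by
  let Good : K → Prop := fun x => ∃ W ∈ 𝓝 x, ∀ u v, u ≤ v → (∀ z, u ≤ z → z ≤ v → φ z ∈ W) →
    St φ u v
  have hall : ∀ x, Good x := by
    by_contra hcon
    push Not at hcon
    obtain ⟨p, hpB, U, hU, hUB⟩ := hK {x | ¬ Good x} hcon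
    have hpU : p ∈ U := by
      have : p ∈ U ∩ {x | ¬ Good x} := by rw [hUB]; rfl
      exact this.1
    obtain ⟨W, hW1, hW2, hW3⟩ := exists_mem_nhds_isClosed_subset (hU.mem_nhds hpU)
    refine hpB ⟨W, hW1, fun u v huv hz => ?_⟩
    refine St_gap hK hφ huv p fun x y hx hxy hy hne => ?_
    refine St_of_good hK hφ hxy fun z hz1 hz2 => ?_
    by_contra hbad
    have h1 : φ z ∈ U ∩ {x | ¬ Good x} :=
      ⟨hW3 (hz z (hx.trans hz1) (hz2.trans hy)), hbad⟩
    rw [hUB] at h1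
    exact hne z hz1 hz2 h1
  exact St_of_good hK hφ hab fun x _ _ => hall (φ x)

/-- Fact 3: the catching sets -/
theorem exists_catch (hK : Scattered K) (hφ : Continuous φ) [Nonempty L] :
    ∃ (S : L → L → Set K) (l : L), (∀ s t, (S s t).Finite) ∧ (∀ s t, φ l ∈ S s t) ∧
      ∀ (h : C(K, ℝ)) (M : ℝ), (∀ x, h x ≤ M) → (∃ z, h (φ z) = M) → (∃ z, h (φ z) ≠ M) →
        ∃ s t, s ⋖ t ∧ h (φ s) ≠ h (φ t) ∧ ∃ y ∈ S s t, h y = M := by
  obtain ⟨m, -, hm⟩ := isCompact_univ.exists_isLeast (univ_nonempty : (univ : Set L).Nonempty)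
  obtain ⟨n, -, hn⟩ := isCompact_univ.exists_isGreatest (univ_nonempty : (univ : Set L).Nonempty)
  have hm' : ∀ x, m ≤ x := fun x => hm (mem_univ x)
  have hn' : ∀ x, x ≤ n := fun x => hn (mem_univ x)
  obtain ⟨S, hS1, hS2⟩ := St_all hK hφ (hm' n)
  refine ⟨fun s t => {φ m, φ n} ∪ S s t, m, fun s t => (toFinite _).union (hS1 s t),
    fun s t => Or.inl (mem_insert _ _), ?_⟩
  rintro h M hM ⟨z, hx⟩ ⟨z', hx'⟩
  by_cases h1 : h (φ m) = M
  · obtain ⟨s, t, g1, g2, g3, g4⟩ := exists_jump hK hφ h (hm' z') (by rw [h1]; exact hx'.symm)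
    exact ⟨s, t, g2, g4, φ m, Or.inl (mem_insert _ _), h1⟩
  · by_cases h2 : h (φ n) = M
    · obtain ⟨s, t, g1, g2, g3, g4⟩ := exists_jump hK hφ h (hn' z') (by rw [h2]; exact hx')
      exact ⟨s, t, g2, g4, φ n, Or.inl (mem_insert_of_mem _ rfl), h2⟩
    · obtain ⟨s, t, g1, g2, g3, g4, y, hy, hy2⟩ := hS2 h M hM (lt_of_le_of_ne (hM _) h1)
        (lt_of_le_of_ne (hM _) h2) ⟨z, hm' z, hn' z, hx⟩
      exact ⟨s, t, g2, g4, y, Or.inr hy, hy2⟩

end Pool.Agent.helper26.CK
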