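import Pool.Agent.helper26.CK.Defs

/-!
# CK-Jump: jumps of continuous functions on compact ordered spaces
-/

set_option autoImplicit false

open Set Topology Filter

namespace Pool.Agent.helper26.CK

section range
variable {K : Type} [TopologicalSpace K] [CompactSpace K]

/-- the range of a continuous function on a scattered compact space contains no interval -/
theorem exists_not_mem_range (hK : Scattered K) (h : C(K, ℝ)) {α β : ℝ} (hab : α < β) :
    ∃ r, α < r ∧ r < β ∧ ∀ x, h x ≠ r := by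
  by_contra hcon
  push Not at hcon
  -- the closed set of points with value in the interval
  have hcl : IsClosed (range h) := (isCompact_range h.continuous).isClosed
  have hsub : Icc α β ⊆ range h := by
    have h1 : Ioo α β ⊆ range h := by
      intro r hr
      obtain ⟨x, hx⟩ := hcon r hr.1 hr.2
      exact ⟨x, hx⟩
    calc Icc α β = closure (Ioo α β) := (closure_Ioo hab.ne).symm
      _ ⊆ range h := closure_minimal h1 hcl
  let D : Type _ := {x : K // h x ∈ Icc α β}
  have hDc : IsClosed {x : K | h x ∈ Icc α β} := isClosed_Icc.preimage h.continuous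
  haveI : CompactSpace D := isCompact_iff_compactSpace.1 hDc.isCompact
  let X : D → Icc α β := fun x => ⟨h x.1, x.2⟩
  have hXc : Continuous X := by
    refine Continuous.subtype_mk ?_ _
    exact h.continuous.comp continuous_subtype_val
  have hXs : Function.Surjective X := by
    rintro ⟨r, hr⟩
    obtain ⟨x, hx⟩ := hsub hr
    exact ⟨⟨x, by rw [hx]; exact hr⟩, Subtype.ext hx⟩
  obtain ⟨E, hEc, hE1, hE2⟩ := exists_compact_surjective_zorn_subset hXc hXs
  -- the image of E in K
  let A : Set K := Subtype.val '' E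
  have hAne : A.Nonempty := by
    have : (⟨α, left_mem_Icc.2 hab.le⟩ : Icc α β) ∈ X '' E := by rw [hE1]; exact mem_univ _
    obtain ⟨y, hy, -⟩ := this
    exact ⟨y.1, y, hy, rfl⟩
  obtain ⟨x, hxA, U, hU, hUA⟩ := hK A hAne
  obtain ⟨y, hyE, hyx⟩ := hxA
  have hEne : (⟨y, hyE⟩ : E) ∈ (univ : Set E) := mem_univ _
  let E0 : Set E := {z | z.1.1 ∉ U}
  have hE0c : IsClosed E0 := by
    have : IsOpen {z : E | z.1.1 ∈ U} :=
      hU.preimage (continuous_subtype_val.comp continuous_subtype_val)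
    have h2 : E0 = {z : E | z.1.1 ∈ U}ᶜ := rfl
    rw [h2]
    exact this.isClosed_compl
  have hxU : x ∈ U := by
    have : x ∈ U ∩ A := by rw [hUA]; rfl
    exact this.1
  have hE0ne : E0 ≠ univ := by
    intro hh
    have : (⟨y, hyE⟩ : E) ∈ E0 := by rw [hh]; exact mem_univ _
    exact this (by change y.1 ∈ U; rw [hyx]; exact hxU)
  refine hE2 E0 hE0ne hE0c ?_
  haveI : CompactSpace E := hEc
  have himc : IsClosed (E.domRestrict X '' E0) := by
    have : IsCompact (E.domRestrict X '' E0) :=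
      (hE0c.isCompact).image (hXc.comp continuous_subtype_val)
    exact this.isClosed
  -- everything except one value is in the image
  have hmost : ∀ r : Icc α β, r ≠ X y → r ∈ E.domRestrict X '' E0 := by
    intro r hr
    have : r ∈ X '' E := by rw [hE1]; exact mem_univ _
    obtain ⟨z, hz, hzr⟩ := this
    refine ⟨⟨z, hz⟩, ?_, hzr⟩
    intro hzU
    have hzA : z.1 ∈ U ∩ A := ⟨hzU, z, hz, rfl⟩
    rw [hUA] at hzA
    have : z = y := Subtype.ext (by rw [hyx]; exact hzA)
    exact hr (by rw [← hzr, this])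
  have hdense : Dense {r : Icc α β | r ≠ X y} := by
    haveI : Nontrivial (Icc α β) :=
      ⟨⟨⟨α, left_mem_Icc.2 hab.le⟩, ⟨β, right_mem_Icc.2 hab.le⟩, by
        intro hh; exact hab.ne (congrArg Subtype.val hh)⟩⟩
    haveI : Fact (α ≤ β) := ⟨hab.le⟩
    haveI : PreconnectedSpace (Icc α β) := isPreconnected_iff_preconnectedSpace.1
      isPreconnected_Icc
    exact dense_compl_singleton (X y)
  rw [← univ_subset_iff, ← hdense.closure_eq]
  exact closure_minimal hmost himc

end range

variable {L K : Type} [LinearOrder L] [TopologicalSpace L] [OrderTopology L] [CompactSpace L]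
  [TopologicalSpace K] [CompactSpace K]

theorem exists_jump_aux (hK : Scattered K) {φ : L → K} (hφ : Continuous φ) (h : C(K, ℝ))
    {a b : L} (hab : a ≤ b) (hlt : h (φ a) < h (φ b)) :
    ∃ s t, a ≤ s ∧ s ⋖ t ∧ t ≤ b ∧ h (φ s) ≠ h (φ t) := by
  obtain ⟨r, hr1, hr2, hr⟩ := exists_not_mem_range hK h hlt
  have hc : Continuous fun x => h (φ x) := h.continuous.comp hφ
  have hcomp : IsCompact {x | x ∈ Icc a b ∧ h (φ x) ≤ r} :=
    (isClosed_Icc.inter (isClosed_le hc continuous_const)).isCompact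
  obtain ⟨s, ⟨⟨has, hsb⟩, hsr⟩, hsg⟩ :=
    hcomp.exists_isGreatest ⟨a, ⟨le_rfl, hab⟩, hr1.le⟩
  have hsr' : h (φ s) < r := lt_of_le_of_ne hsr (hr _)
  have hsb' : s < b := lt_of_le_of_ne hsb (by rintro rfl; exact absurd hsr' (not_lt.2 hr2.le))
  have hU : {x | h (φ x) < r} ∈ 𝓝 s := (isOpen_lt hc continuous_const).mem_nhds hsr'
  obtain ⟨u, ⟨hu1, hu2⟩, hu3⟩ := exists_Ico_subset_of_mem_nhds' hU hsb'
  by_cases hcov : s ⋖ u
  · refine ⟨s, u, has, hcov, hu2, ?_⟩
    intro heq
    have : u ≤ s := hsg ⟨⟨has.trans hu1.le, hu2⟩, by rw [← heq]; exact hsr⟩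
    exact absurd this (not_le.2 hu1)
  · exfalso
    rw [CovBy] at hcov
    push Not at hcov
    obtain ⟨x, hx1, hx2⟩ := hcov hu1
    have hxr : h (φ x) < r := hu3 ⟨hx1.le, hx2⟩
    have : x ≤ s := hsg ⟨⟨has.trans hx1.le, hx2.le.trans hu2⟩, hxr.le⟩
    exact absurd this (not_le.2 hx1)

/-- Fact 2: a function on a compact ordered space which factors through a scattered compact space
and takes different values at `a ≤ b` has a jump between `a` and `b`. -/
theorem exists_jump (hK : Scattered K) {φ : L → K} (hφ : Continuous φ) (h : C(K, ℝ))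
    {a b : L} (hab : a ≤ b) (hne : h (φ a) ≠ h (φ b)) :
    ∃ s t, a ≤ s ∧ s ⋖ t ∧ t ≤ b ∧ h (φ s) ≠ h (φ t) := by
  rcases lt_or_gt_of_ne hne with hlt | hgt
  · exact exists_jump_aux hK hφ h hab hlt
  · obtain ⟨s, t, h1, h2, h3, h4⟩ := exists_jump_aux hK hφ (-h) hab (by simpa using hgt)
    exact ⟨s, t, h1, h2, h3, fun hh => h4 (by simp [hh])⟩

/-- Fact 1: only finitely many jumps are large. -/
theorem finite_jumps {X : Type*} [PseudoMetricSpace X] {G : L → X} (hG : Continuous G) {ε : ℝ}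
    (hε : 0 < ε) : {p : L × L | p.1 ⋖ p.2 ∧ ε ≤ dist (G p.1) (G p.2)}.Finite := by
  by_contra hinf
  have hinf' : {p : L × L | p.1 ⋖ p.2 ∧ ε ≤ dist (G p.1) (G p.2)}.Infinite := hinf
  set J := {p : L × L | p.1 ⋖ p.2 ∧ ε ≤ dist (G p.1) (G p.2)} with hJ
  have hinj : InjOn Prod.fst J := by
    rintro ⟨s, t⟩ ⟨h1, -⟩ ⟨s', t'⟩ ⟨h2, -⟩ hh
    simp only at hh h1 h2
    subst hh
    have : t = t' := h1.unique_right h2
    rw [this]
  have hinf2 : (Prod.fst '' J).Infinite := hinf'.image hinj
  obtain ⟨p, -, hp⟩ := hinf2.exists_accPt_of_subset_isCompact isCompact_univ (subset_univ _)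
  -- neighbourhood of small oscillation
  have hU : {x | dist (G x) (G p) < ε / 2} ∈ 𝓝 p :=
    (isOpen_lt (hG.dist continuous_const) continuous_const).mem_nhds (by simpa using half_pos hε)
  have hVinf : (ordConnectedComponent {x | dist (G x) (G p) < ε / 2} p ∩ Prod.fst '' J).Infinite :=
    Set.Infinite.of_accPt (hp.nhds_inter (ordConnectedComponent_mem_nhds.2 hU))
  obtain ⟨s1, ⟨hs1, ⟨⟨s1', t1⟩, ⟨hc1, hd1⟩, rfl⟩⟩, s2, ⟨hs2, ⟨⟨s2', t2⟩, ⟨hc2, hd2⟩, rfl⟩⟩, hne⟩ :=
    hVinf.nontrivial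
  have key : ∀ s t s' : L, s ∈ ordConnectedComponent {x | dist (G x) (G p) < ε / 2} p →
      s' ∈ ordConnectedComponent {x | dist (G x) (G p) < ε / 2} p → s ⋖ t → s < s' →
      ¬ ε ≤ dist (G s) (G t) := by
    intro s t s' hs hs' hst hss'
    have ht : t ∈ ordConnectedComponent {x | dist (G x) (G p) < ε / 2} p :=
      (inferInstance : OrdConnected (ordConnectedComponent {x | dist (G x) (G p) < ε / 2} p)).out
        hs hs' ⟨hst.1.le, not_lt.1 fun hh => hst.2 hss' hh⟩
    have h1 : s ∈ {x | dist (G x) (G p) < ε / 2} := ordConnectedComponent_subset hs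
    have h2 : t ∈ {x | dist (G x) (G p) < ε / 2} := ordConnectedComponent_subset ht
    have h1 : dist (G s) (G p) < ε / 2 := h1
    have h2 : dist (G t) (G p) < ε / 2 := h2
    have := dist_triangle_right (G s) (G t) (G p)
    linarith
  rcases lt_or_gt_of_ne hne with h | h
  · exact key _ _ _ hs1 hs2 hc1 h hd1
  · exact key _ _ _ hs2 hs1 hc2 h hd2

end Pool.Agent.helper26.CK
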