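import Pool.Agent.helper26.CK.Glue2
import Pool.Agent.helper26.CK.TSysP

/-!
# CK-Prod: the Talagrand system of a scattered continuous image of an ordered space
-/

set_option autoImplicit false

open Set Topology Filter

namespace Pool.Agent.helper26.CK

section ev
variable {K Z : Type} [TopologicalSpace K] [CompactSpace K] [TopologicalSpace Z] [CompactSpace Z]

/-- evaluation in the first variable -/
noncomputable def ev (x : K) : C(K × Z, ℝ) →L[ℝ] C(Z, ℝ) :=
  LinearMap.mkContinuous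
    { toFun := fun F => F.comp ⟨fun z => (x, z), by fun_prop⟩
      map_add' := fun F G => by ext z; rfl
      map_smul' := fun a F => by ext z; rfl } 1 (by
    intro F
    rw [one_mul]
    refine (ContinuousMap.norm_le _ (norm_nonneg _)).2 fun z => ?_
    exact F.norm_coe_le_norm (x, z))

theorem ev_apply (x : K) (F : C(K × Z, ℝ)) (z : Z) : ev x F z = F (x, z) := rfl

theorem ev_eq (x : K) (F : C(K × Z, ℝ)) : ev x F = F.curry x := by
  ext z; rfl

theorem norm_ev_le (x : K) (F : C(K × Z, ℝ)) : ‖ev x F‖ ≤ ‖F‖ := by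
  refine (ContinuousMap.norm_le _ (norm_nonneg _)).2 fun z => ?_
  exact F.norm_coe_le_norm (x, z)

theorem continuous_ev (F : C(K × Z, ℝ)) : Continuous fun x : K => ev x F := by
  have : (fun x : K => ev x F) = F.curry := by
    ext x z; rfl
  rw [this]
  exact F.curry.continuous

/-- the vector-valued sup norm -/
noncomputable def PP (ν : C(Z, ℝ) → ℝ) (F : C(K × Z, ℝ)) : ℝ := ⨆ x : K, ν (ev x F)

variable {ν : C(Z, ℝ) → ℝ}

theorem PP_bdd (hν : EqNorm C(Z, ℝ) ν) (F : C(K × Z, ℝ)) :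
    BddAbove (range fun x : K => ν (ev x F)) := by
  have : IsCompact (range fun x : K => ν (ev x F)) :=
    isCompact_range (hν.continuous.comp (continuous_ev F))
  exact this.bddAbove

theorem le_PP (hν : EqNorm C(Z, ℝ) ν) (x : K) (F : C(K × Z, ℝ)) : ν (ev x F) ≤ PP ν F :=
  le_ciSup (PP_bdd hν F) x

theorem exists_PP [Nonempty K] (hν : EqNorm C(Z, ℝ) ν) (F : C(K × Z, ℝ)) :
    ∃ x : K, ν (ev x F) = PP ν F := by
  obtain ⟨x, -, hx⟩ := isCompact_univ.exists_isMaxOn (univ_nonempty : (univ : Set K).Nonempty)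
    (hν.continuous.comp (continuous_ev F)).continuousOn
  exact ⟨x, le_antisymm (le_PP hν x F) (ciSup_le fun y => hx (mem_univ y))⟩

theorem eqNorm_PP [Nonempty K] (hν : EqNorm C(Z, ℝ) ν) : EqNorm C(K × Z, ℝ) (PP (K := K) ν) where
  add_le := by
    intro F G
    refine ciSup_le fun x => ?_
    rw [map_add]
    exact (hν.add_le _ _).trans (add_le_add (le_PP hν x F) (le_PP hν x G))
  smul := by
    intro a F
    unfold PP
    rw [Real.mul_iSup_of_nonneg (abs_nonneg a)]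
    congr 1
    ext x
    rw [map_smul, hν.smul]
  eq_zero := by
    intro F hF
    ext ⟨x, z⟩
    have h1 : ν (ev x F) = 0 := le_antisymm (by rw [← hF]; exact le_PP hν x F) (hν.nonneg _)
    have h2 := hν.eq_zero _ h1
    rw [← ev_apply, h2]
    rfl
  equiv := by
    obtain ⟨c, C, hc, hC, h⟩ := hν.equiv
    refine ⟨c, C, hc, hC, fun F => ⟨?_, ?_⟩⟩
    · have h0 : 0 ≤ PP (K := K) ν F := by
        obtain ⟨x⟩ := (inferInstance : Nonempty K)
        exact (hν.nonneg _).trans (le_PP hν x F)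
      rw [mul_comm, ← le_div_iff₀ hc]
      refine (ContinuousMap.norm_le _ (by positivity)).2 ?_
      rintro ⟨x, z⟩
      rw [le_div_iff₀ hc, mul_comm]
      calc c * ‖F (x, z)‖ = c * ‖ev x F z‖ := rfl
        _ ≤ c * ‖ev x F‖ := by
            gcongr
            exact (ev x F).norm_coe_le_norm z
        _ ≤ ν (ev x F) := (h _).1
        _ ≤ PP ν F := le_PP hν x F
    · refine ciSup_le fun x => (h _).2.trans ?_
      gcongr
      exact norm_ev_le x F

end ev

section catch_one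
variable {L K Z : Type} [LinearOrder L] [TopologicalSpace L] [OrderTopology L] [CompactSpace L]
  [TopologicalSpace K] [CompactSpace K] [TopologicalSpace Z] [CompactSpace Z]

/-- finitely many large jumps, with the catching points -/
theorem finite_index {φ : L → K} (hφ : Continuous φ) {S : L → L → Set K}
    (hS : ∀ s t, (S s t).Finite) {ν : C(Z, ℝ) → ℝ} (hν : EqNorm C(Z, ℝ) ν) (F : C(K × Z, ℝ))
    {ε : ℝ} (hε : 0 < ε) : {p : {p : K × L × L // p.2.1 ⋖ p.2.2 ∧ p.1 ∈ S p.2.1 p.2.2} |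
      ε ≤ ν (ev (φ p.1.2.2) F - ev (φ p.1.2.1) F)}.Finite := by
  obtain ⟨c, C, hc, hC, h⟩ := hν.equiv
  have hG : Continuous fun l : L => ev (φ l) F := (continuous_ev F).comp hφ
  have hfin := finite_jumps hG (ε := ε / C) (by positivity)
  have hfin2 : (⋃ q ∈ {p : L × L | p.1 ⋖ p.2 ∧ ε / C ≤ dist (ev (φ p.1) F) (ev (φ p.2) F)},
      (fun y : K => (y, q)) '' S q.1 q.2).Finite :=
    hfin.biUnion fun q _ => (hS q.1 q.2).image _
  refine (hfin2.preimage (f := (Subtype.val : {p : K × L × L // p.2.1 ⋖ p.2.2 ∧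
    p.1 ∈ S p.2.1 p.2.2} → K × L × L)) Subtype.val_injective.injOn).subset ?_
  intro p hp
  have hp : ε ≤ ν (ev (φ p.1.2.2) F - ev (φ p.1.2.1) F) := hp
  refine mem_iUnion₂.2 ⟨p.1.2, ⟨p.2.1, ?_⟩, p.1.1, p.2.2, rfl⟩
  rw [div_le_iff₀ hC, dist_comm, dist_eq_norm, mul_comm]
  exact hp.trans (h _).2

/-- catching in one of the images: `F` is not constant on the image of `φ` and the maximal norm
is attained there -/
theorem catch_one (hK : Scattered K) {φ : L → K} (hφ : Continuous φ) {S : L → L → Set K} {l0 : L}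
    (hS2 : ∀ s t, φ l0 ∈ S s t)
    (hS3 : ∀ (h : C(K, ℝ)) (M : ℝ), (∀ x, h x ≤ M) → (∃ z, h (φ z) = M) → (∃ z, h (φ z) ≠ M) →
      ∃ s t, s ⋖ t ∧ h (φ s) ≠ h (φ t) ∧ ∃ y ∈ S s t, h y = M)
    {ν : C(Z, ℝ) → ℝ} (hν : EqNorm C(Z, ℝ) ν) (F : C(K × Z, ℝ))
    (h1 : ∃ l, ν (ev (φ l) F) = PP (K := K) ν F) (h2 : ∃ l l', ev (φ l) F ≠ ev (φ l') F) :
    ∃ s t, s ⋖ t ∧ ev (φ t) F - ev (φ s) F ≠ 0 ∧ ∃ y ∈ S s t, ν (ev y F) = PP (K := K) ν F := by
  let g : C(K, ℝ) := ⟨fun x => ν (ev x F), hν.continuous.comp (continuous_ev F)⟩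
  by_cases hg : ∃ l, g (φ l) ≠ PP (K := K) ν F
  · obtain ⟨s, u, h1, h2, y, hy, hy2⟩ := hS3 g (PP (K := K) ν F) (fun x => le_PP hν x F) h1 hg
    refine ⟨s, u, h1, fun h0 => h2 ?_, y, hy, hy2⟩
    have h0 := sub_eq_zero.1 h0
    change ν (ev (φ s) F) = ν (ev (φ u) F)
    rw [h0]
  · push Not at hg
    have hg' : ∀ l, ν (ev (φ l) F) = PP (K := K) ν F := hg
    obtain ⟨a, b, hab⟩ := h2
    obtain ⟨z, hz⟩ : ∃ z, ev (φ a) F z ≠ ev (φ b) F z := by
      by_contra hcon
      push Not at hcon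
      exact hab (ContinuousMap.ext hcon)
    let k : C(K, ℝ) := F.comp ⟨fun x => (x, z), by fun_prop⟩
    have hk : ∃ s u, s ⋖ u ∧ k (φ s) ≠ k (φ u) := by
      rcases le_total a b with hab | hab
      · obtain ⟨s, u, -, h1, -, h2⟩ := exists_jump hK hφ k hab hz
        exact ⟨s, u, h1, h2⟩
      · obtain ⟨s, u, -, h1, -, h2⟩ := exists_jump hK hφ k hab hz.symm
        exact ⟨s, u, h1, h2⟩
    obtain ⟨s, u, h1, h2⟩ := hk
    refine ⟨s, u, h1, fun h0 => h2 ?_, φ l0, hS2 s u, hg' l0⟩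
    have h0 := sub_eq_zero.1 h0
    change ev (φ s) F z = ev (φ u) F z
    rw [h0]

end catch_one

/-- `K` is a countable union of continuous images of compact linearly ordered spaces -/
def OrdImages (K : Type) [TopologicalSpace K] : Prop :=
  ∃ (L : ℕ → Type) (_ : ∀ n, LinearOrder (L n)) (_ : ∀ n, TopologicalSpace (L n)) (φ : ∀ n, L n → K),
    (∀ n, OrderTopology (L n)) ∧ (∀ n, CompactSpace (L n)) ∧ (∀ n, Continuous (φ n)) ∧
      ∀ x, ∃ n l, φ n l = x

variable {K Z : Type} [TopologicalSpace K] [CompactSpace K] [T2Space K] [TopologicalSpace Z]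
  [CompactSpace Z]

/-- the Talagrand system -/
theorem exists_TSys [Nonempty K] (hK : Scattered K) (hO : OrdImages K) {ν : C(Z, ℝ) → ℝ}
    (hν : EqNorm C(Z, ℝ) ν) :
    ∃ I : Type, Nonempty (TSys C(K × Z, ℝ) C(Z, ℝ) I ν (PP (K := K) ν)) := by
  classical
  obtain ⟨x0⟩ := (inferInstance : Nonempty K)
  obtain ⟨L, iO, iT, φ, iOT, iC, hφ, hcov⟩ := hO
  have hP := eqNorm_PP (K := K) hν
  -- the nonempty members
  let Q : ℕ → Prop := fun n => Nonempty (L n)
  have hsys : ∀ n, ∃ (S : L n → L n → Set K) (x : K), (∀ s t, (S s t).Finite) ∧ (Q n →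
      (∃ l, φ n l = x) ∧ ∀ (F : C(K × Z, ℝ)), (∃ l, ν (ev (φ n l) F) = PP (K := K) ν F) →
        (∃ l l', ev (φ n l) F ≠ ev (φ n l') F) → ∃ s t, s ⋖ t ∧ ev (φ n t) F - ev (φ n s) F ≠ 0 ∧
          ∃ y ∈ S s t, ν (ev y F) = PP (K := K) ν F) := by
    intro n
    by_cases hn : Q n
    · have : Nonempty (L n) := hn
      have := iOT n
      have := iC n
      obtain ⟨S, l0, hS1, hS2, hS3⟩ := exists_catch hK (hφ n)
      exact ⟨S, φ n l0, hS1, fun _ => ⟨⟨l0, rfl⟩, fun F h1 h2 =>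
        catch_one hK (hφ n) hS2 hS3 hν F h1 h2⟩⟩
    · exact ⟨fun _ _ => ∅, x0, fun _ _ => finite_empty, fun h => absurd h hn⟩
  choose S x hS1 hS2 using hsys
  let I0 : ℕ → Type := fun n => {p : K × L n × L n // p.2.1 ⋖ p.2.2 ∧ p.1 ∈ S n p.2.1 p.2.2}
  -- weights
  let w : ℕ → ℝ := fun n => (1 / 2) ^ n
  have hw0 : ∀ n, 0 < w n := fun n => by positivity
  have hw1 : ∀ n, w n ≤ 1 := fun n => pow_le_one₀ (by norm_num) (by norm_num)
  let e : Option ((Σ n, I0 n) ⊕ (ℕ × ℕ)) → C(K × Z, ℝ) →L[ℝ] C(Z, ℝ) := fun o =>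
    match o with
    | none => ev x0
    | some (Sum.inl p) => ev p.2.1.1
    | some (Sum.inr q) => ev (x q.1)
  let t : Option ((Σ n, I0 n) ⊕ (ℕ × ℕ)) → C(K × Z, ℝ) →L[ℝ] C(Z, ℝ) := fun o =>
    match o with
    | none => ev x0
    | some (Sum.inl p) => w p.1 • (ev (φ p.1 p.2.1.2.2) - ev (φ p.1 p.2.1.2.1))
    | some (Sum.inr q) => (w q.1 * w q.2) • (ev (x q.2) - ev (x q.1))
  have hdiff : ∀ (a b : K) (F : C(K × Z, ℝ)), ν (ev a F - ev b F) ≤ 2 * PP (K := K) ν F := by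
    intro a b F
    have h1 := le_PP hν a F
    have h2 := le_PP hν b F
    have h3 := hν.add_le (ev a F) (-ev b F)
    rw [hν.map_neg, ← sub_eq_add_neg] at h3
    linarith
  have hdiff2 : ∀ (a b : K) (F : C(K × Z, ℝ)) (c : ℝ), 0 ≤ c → c ≤ 1 →
      ν (c • (ev a F - ev b F)) ≤ 2 * PP (K := K) ν F := by
    intro a b F c hc0 hc1
    rw [hν.smul_nonneg hc0]
    have h1 := hdiff a b F
    have h2 := hν.nonneg (ev a F - ev b F)
    nlinarith
  refine ⟨Option ((Σ n, I0 n) ⊕ (ℕ × ℕ)), ⟨⟨e, t, ?_, ?_, ?_, ?_⟩⟩⟩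
  · rintro (_ | p | q) F
    · exact le_PP hν x0 F
    · exact le_PP hν _ F
    · exact le_PP hν _ F
  · rintro (_ | p | q) F
    · have h1 := le_PP hν x0 F
      have h2 := hP.nonneg F
      simp only [t]
      linarith
    · exact hdiff2 _ _ F _ (hw0 _).le (hw1 _)
    · exact hdiff2 _ _ F _ (by positivity) (mul_le_one₀ (hw1 _) (hw0 _).le (hw1 _))
  · intro F ε hε
    -- the weights are small eventually
    have hPF := hP.nonneg F
    obtain ⟨n0, hn0⟩ := exists_pow_lt_of_lt_one (show 0 < ε / (2 * PP (K := K) ν F + 1) by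
      positivity) (by norm_num : (1 / 2 : ℝ) < 1)
    have hn1 : ∀ n, n0 ≤ n → w n * (2 * PP (K := K) ν F) < ε := by
      intro n hn
      have h1 : w n ≤ (1 / 2) ^ n0 := pow_le_pow_of_le_one (by norm_num) (by norm_num) hn
      have h2 : w n < ε / (2 * PP (K := K) ν F + 1) := h1.trans_lt hn0
      rw [lt_div_iff₀ (by positivity)] at h2
      have := hw0 n
      nlinarith
    have hfin : ∀ n, {p : I0 n | ε ≤ ν (ev (φ n p.1.2.2) F - ev (φ n p.1.2.1) F)}.Finite := by
      intro n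
      have := iOT n
      have := iC n
      exact finite_index (hφ n) (hS1 n) hν F hε
    have hA : (⋃ n ∈ Finset.range n0, (fun p : I0 n => (⟨n, p⟩ : Σ n, I0 n)) ''
        {p : I0 n | ε ≤ ν (ev (φ n p.1.2.2) F - ev (φ n p.1.2.1) F)}).Finite :=
      (Finset.range n0).finite_toSet.biUnion fun n _ => (hfin n).image _
    have hB : ((Finset.range n0 ×ˢ Finset.range n0 : Finset (ℕ × ℕ)) : Set (ℕ × ℕ)).Finite :=
      Finset.finite_toSet _
    refine ((finite_singleton (none : Option ((Σ n, I0 n) ⊕ (ℕ × ℕ)))).union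
      (((hA.image Sum.inl).union (hB.image Sum.inr)).image some)).subset ?_
    rintro (_ | p | q) hp
    · exact Or.inl rfl
    · right
      refine ⟨Sum.inl p, Or.inl ⟨p, ?_, rfl⟩, rfl⟩
      obtain ⟨n, p⟩ := p
      have hp : ε ≤ ν (w n • (ev (φ n p.1.2.2) F - ev (φ n p.1.2.1) F)) := hp
      rw [hν.smul_nonneg (hw0 n).le] at hp
      have h1 := hdiff (φ n p.1.2.2) (φ n p.1.2.1) F
      have h2 := hν.nonneg (ev (φ n p.1.2.2) F - ev (φ n p.1.2.1) F)
      have h3 := hw0 n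
      have h4 := hw1 n
      refine mem_iUnion₂.2 ⟨n, ?_, p, ?_, rfl⟩
      · rw [Finset.mem_range]
        by_contra hcon
        have h5 := hn1 n (not_lt.1 hcon)
        have h6 := mul_le_mul_of_nonneg_left h1 h3.le
        linarith
      · change ε ≤ ν (ev (φ n p.1.2.2) F - ev (φ n p.1.2.1) F)
        nlinarith
    · right
      refine ⟨Sum.inr q, Or.inr ⟨q, ?_, rfl⟩, rfl⟩
      obtain ⟨n, m⟩ := q
      have hp : ε ≤ ν ((w n * w m) • (ev (x m) F - ev (x n) F)) := hp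
      rw [hν.smul_nonneg (by positivity)] at hp
      have h1 := hdiff (x m) (x n) F
      have h3 := hw0 n
      have h3' := hw0 m
      have h4 := hw1 n
      have h4' := hw1 m
      have h6 := mul_le_mul_of_nonneg_left h1 (mul_pos h3 h3').le
      rw [Finset.mem_coe, Finset.mem_product, Finset.mem_range, Finset.mem_range]
      constructor
      · by_contra hcon
        have h5 := hn1 n (not_lt.1 hcon)
        have h7 : w n * w m * (2 * PP (K := K) ν F) ≤ w n * (2 * PP (K := K) ν F) := by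
          gcongr
          nlinarith
        linarith
      · by_contra hcon
        have h5 := hn1 m (not_lt.1 hcon)
        have h7 : w n * w m * (2 * PP (K := K) ν F) ≤ w m * (2 * PP (K := K) ν F) := by
          gcongr
          nlinarith
        linarith
  · intro F hF
    have hQ : ∀ n (l : L n), Q n := fun n l => ⟨l⟩
    -- a member on which the maximum is attained and `F` is not constant gives a catch
    have key : ∀ n, (∃ l, ν (ev (φ n l) F) = PP (K := K) ν F) →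
        (∃ l l', ev (φ n l) F ≠ ev (φ n l') F) → ∃ i, ν (e i F) = PP (K := K) ν F ∧ t i F ≠ 0 := by
      intro n h1 h2
      obtain ⟨l, hl⟩ := h1
      obtain ⟨s, u, g1, g2, y, hy, hy2⟩ := (hS2 n (hQ n l)).2 F ⟨l, hl⟩ h2
      refine ⟨some (Sum.inl ⟨n, ⟨(y, s, u), g1, hy⟩⟩), hy2, ?_⟩
      change w n • (ev (φ n u) F - ev (φ n s) F) ≠ 0
      exact smul_ne_zero (hw0 n).ne' g2
    obtain ⟨z, hz⟩ := exists_PP hν F
    obtain ⟨n, l, rfl⟩ := hcov z
    by_cases hn : ∃ l l', ev (φ n l) F ≠ ev (φ n l') F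
    · exact key n ⟨l, hz⟩ hn
    · push Not at hn
      obtain ⟨⟨ln, hln⟩, -⟩ := hS2 n (hQ n l)
      have hxn : ν (ev (x n) F) = PP (K := K) ν F := by
        rw [← hln, hn ln l]; exact hz
      by_cases hm : ∃ m, Q m ∧ ev (x m) F ≠ ev (x n) F
      · obtain ⟨m, -, hm⟩ := hm
        refine ⟨some (Sum.inr (n, m)), hxn, ?_⟩
        change (w n * w m) • (ev (x m) F - ev (x n) F) ≠ 0
        exact smul_ne_zero (mul_pos (hw0 n) (hw0 m)).ne' (sub_ne_zero.2 hm)
      · push Not at hm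
        by_cases hc : ∃ m, ∃ l l', ev (φ m l) F ≠ ev (φ m l') F
        · obtain ⟨m, l1, l2, h12⟩ := hc
          obtain ⟨⟨lm, hlm⟩, -⟩ := hS2 m (hQ m l1)
          refine key m ⟨lm, ?_⟩ ⟨l1, l2, h12⟩
          rw [hlm, hm m (hQ m l1)]
          exact hxn
        · push Not at hc
          -- `F` does not depend on the first variable
          have hall : ∀ y, ev y F = ev (x n) F := by
            intro y
            obtain ⟨m, l1, rfl⟩ := hcov y
            obtain ⟨⟨lm, hlm⟩, -⟩ := hS2 m (hQ m l1)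
            rw [hc m l1 lm, hlm, hm m (hQ m l1)]
          refine ⟨none, ?_, fun h0 => hF ?_⟩
          · change ν (ev x0 F) = _
            rw [hall x0]; exact hxn
          · ext ⟨y, z⟩
            have h0 : ev x0 F = 0 := h0
            rw [← ev_apply, hall y, ← hall x0, h0]
            rfl

theorem hasC1_prod [Nonempty K] (hK : Scattered K) (hO : OrdImages K) (h : HasC1 C(Z, ℝ)) :
    HasC1 C(K × Z, ℝ) := by
  obtain ⟨ν, hν, hν1⟩ := h
  obtain ⟨I, ⟨T⟩⟩ := exists_TSys (Z := Z) hK hO hν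
  exact T.hasC1 hν hν1 (eqNorm_PP hν)

theorem hasPoly_prod [Nonempty K] (hK : Scattered K) (hO : OrdImages K) (h : HasPoly C(Z, ℝ)) :
    HasPoly C(K × Z, ℝ) := by
  obtain ⟨ν, hν, hν1⟩ := h
  obtain ⟨I, ⟨T⟩⟩ := exists_TSys (Z := Z) hK hO hν
  exact T.hasPoly hν hν1 (eqNorm_PP hν)

end Pool.Agent.helper26.CK
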