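import Pool.Agent.helper26.CK.Wt
import Pool.Agent.helper26.CK.Prod

/-!
# CK-Layer: the weighted norm of a layered space
-/

set_option autoImplicit false

open Set Topology Filter

namespace Pool.Agent.helper26.CK

/-- layers: closed sets `B n` and families of closed sets `C n j`, locally finite off `B n` -/
structure Lay (K : Type) [TopologicalSpace K] where
  /-- the exceptional closed sets -/
  B : ℕ → Set K
  /-- the index types -/
  J : ℕ → Type
  /-- the closed sets -/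
  C : ∀ n, J n → Set K
  hB : ∀ n, IsClosed (B n)
  hC : ∀ n j, IsClosed (C n j)
  lf : ∀ n, ∀ x ∉ B n, ∃ U ∈ 𝓝 x, {j | (C n j ∩ U).Nonempty}.Finite
  cov : ∀ x, ∃ n, x ∉ B n ∧ ∃ j, x ∈ C n j

variable {K Z : Type} [TopologicalSpace K] [CompactSpace K] [TopologicalSpace Z] [CompactSpace Z]

namespace Lay

variable (Λ : Lay K)

/-- the intersection of the exceptional sets of a class -/
def D (q : Cl) : Set K := {x | ∀ m ∈ q.G, x ∈ Λ.B m}

/-- the pieces -/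
def pc (q : Cl) (j : Λ.J q.n) : Set K := Λ.C q.n j ∩ Λ.D q

theorem isClosed_D (q : Cl) : IsClosed (Λ.D q) := by
  have : Λ.D q = ⋂ m ∈ q.G, Λ.B m := by
    ext x
    simp [D]
  rw [this]
  exact isClosed_biInter fun m _ => Λ.hB m

theorem isClosed_pc (q : Cl) (j : Λ.J q.n) : IsClosed (Λ.pc q j) :=
  (Λ.hC _ _).inter (Λ.isClosed_D q)

/-- the values -/
def Val (ν : C(Z, ℝ) → ℝ) (F : C(K × Z, ℝ)) : Set ℝ :=
  {r | ∃ (q : Cl) (j : Λ.J q.n), ∃ y ∈ Λ.pc q j, r = cc q * ν (ev y F)}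

/-- the weighted norm -/
noncomputable def P (ν : C(Z, ℝ) → ℝ) (F : C(K × Z, ℝ)) : ℝ := sSup (Λ.Val ν F)

/-- every point has a class at every late stage -/
theorem exists_cl (x : K) (k0 : ℕ) : ∃ (q : Cl) (j : Λ.J q.n), k0 ≤ q.k ∧ x ∈ Λ.pc q j ∧
    ∀ m, m < q.k → x ∈ Λ.B m → m ∈ q.G := by
  classical
  obtain ⟨n, hn, j, hj⟩ := Λ.cov x
  let k := max k0 (n + 1)
  have hk : n < k := lt_of_lt_of_le (Nat.lt_succ_self n) (le_max_right _ _)
  refine ⟨⟨(k, n, (Finset.range k).filter (fun m => x ∈ Λ.B m)), hk, Finset.filter_subset _ _,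
    fun h => hn (Finset.mem_filter.1 h).2⟩, j, le_max_left _ _, ⟨hj, ?_⟩, ?_⟩
  · intro m hm
    exact (Finset.mem_filter.1 hm).2
  · intro m hm hx
    exact Finset.mem_filter.2 ⟨Finset.mem_range.2 hm, hx⟩

variable {ν : C(Z, ℝ) → ℝ}

theorem Val_bdd (hν : EqNorm C(Z, ℝ) ν) (F : C(K × Z, ℝ)) : BddAbove (Λ.Val ν F) := by
  refine ⟨2 * PP (K := K) ν F, ?_⟩
  rintro _ ⟨q, j, y, -, rfl⟩
  have h1 := cc_le q
  have h2 := le_PP hν y F
  have h3 := hν.nonneg (ev y F)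
  have h4 := one_le_cc q
  nlinarith

theorem Val_nonempty [Nonempty K] (F : C(K × Z, ℝ)) : (Λ.Val ν F).Nonempty := by
  obtain ⟨x⟩ := (inferInstance : Nonempty K)
  obtain ⟨q, j, -, hx, -⟩ := Λ.exists_cl x 0
  exact ⟨_, q, j, x, hx, rfl⟩

theorem le_P (hν : EqNorm C(Z, ℝ) ν) (F : C(K × Z, ℝ)) (q : Cl) (j : Λ.J q.n) {y : K}
    (hy : y ∈ Λ.pc q j) : cc q * ν (ev y F) ≤ Λ.P ν F :=
  le_csSup (Λ.Val_bdd hν F) ⟨q, j, y, hy, rfl⟩

theorem nu_le_P (hν : EqNorm C(Z, ℝ) ν) (F : C(K × Z, ℝ)) (x : K) : ν (ev x F) ≤ Λ.P ν F := by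
  obtain ⟨q, j, -, hx, -⟩ := Λ.exists_cl x 0
  have h1 := Λ.le_P hν F q j hx
  have h2 := one_le_cc q
  have h3 := hν.nonneg (ev x F)
  nlinarith

theorem P_le [Nonempty K] (F : C(K × Z, ℝ)) {M : ℝ}
    (h : ∀ (q : Cl) (j : Λ.J q.n), ∀ y ∈ Λ.pc q j, cc q * ν (ev y F) ≤ M) : Λ.P ν F ≤ M := by
  refine csSup_le (Λ.Val_nonempty F) ?_
  rintro _ ⟨q, j, y, hy, rfl⟩
  exact h q j y hy

theorem P_smul_le [Nonempty K] (hν : EqNorm C(Z, ℝ) ν) (a : ℝ) (F : C(K × Z, ℝ)) :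
    Λ.P ν (a • F) ≤ |a| * Λ.P ν F := by
  refine Λ.P_le _ fun q j y hy => ?_
  rw [map_smul, hν.smul]
  have h1 := Λ.le_P hν F q j hy
  have := mul_le_mul_of_nonneg_left h1 (abs_nonneg a)
  linarith

theorem eqNorm_P [Nonempty K] (hν : EqNorm C(Z, ℝ) ν) : EqNorm C(K × Z, ℝ) (Λ.P ν) where
  add_le := by
    intro F G
    refine Λ.P_le _ fun q j y hy => ?_
    rw [map_add]
    have h1 := Λ.le_P hν F q j hy
    have h2 := Λ.le_P hν G q j hy
    have h3 := hν.add_le (ev y F) (ev y G)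
    have h4 := one_le_cc q
    nlinarith
  smul := by
    intro a F
    refine le_antisymm (Λ.P_smul_le hν a F) ?_
    by_cases ha : a = 0
    · obtain ⟨x⟩ := (inferInstance : Nonempty K)
      rw [ha, abs_zero, zero_mul]
      exact (hν.nonneg _).trans (Λ.nu_le_P hν _ x)
    · have h1 := Λ.P_smul_le hν a⁻¹ (a • F)
      rw [smul_smul, inv_mul_cancel₀ ha, one_smul, abs_inv] at h1
      have h2 : 0 < |a| := abs_pos.2 ha
      calc |a| * Λ.P ν F ≤ |a| * (|a|⁻¹ * Λ.P ν (a • F)) := by gcongr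
        _ = Λ.P ν (a • F) := by rw [← mul_assoc, mul_inv_cancel₀ h2.ne', one_mul]
  eq_zero := by
    intro F hF
    refine (eqNorm_PP (K := K) hν).eq_zero F (le_antisymm ?_ ((eqNorm_PP hν).nonneg F))
    rw [← hF]
    exact ciSup_le fun x => Λ.nu_le_P hν F x
  equiv := by
    obtain ⟨c, C, hc, hC, h⟩ := (eqNorm_PP (K := K) hν).equiv
    refine ⟨c, 2 * C, hc, by positivity, fun F => ⟨(h F).1.trans ?_, ?_⟩⟩
    · exact ciSup_le fun x => Λ.nu_le_P hν F x
    · refine Λ.P_le _ fun q j y _ => ?_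
      have h1 := cc_le q
      have h2 := le_PP hν y F
      have h3 := hν.nonneg (ev y F)
      have h4 := one_le_cc q
      have h5 := (h F).2
      nlinarith

/-- in every class, only finitely many pieces carry large values -/
theorem fin_class (hν : EqNorm C(Z, ℝ) ν) (F : C(K × Z, ℝ)) (hF : 0 < Λ.P ν F) (q : Cl) :
    {j | ∃ y ∈ Λ.pc q j, (1 - w q.n / 4) * Λ.P ν F ≤ cc q * ν (ev y F)}.Finite := by
  classical
  have key := (isCompact_univ (X := K)).induction_on (p := fun s =>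
    {j | ∃ y ∈ Λ.pc q j ∩ s, (1 - w q.n / 4) * Λ.P ν F ≤ cc q * ν (ev y F)}.Finite) ?_ ?_ ?_ ?_
  · refine key.subset ?_
    rintro j ⟨y, hy, h⟩
    exact ⟨y, ⟨hy, mem_univ _⟩, h⟩
  · refine (finite_empty).subset ?_
    rintro j ⟨y, ⟨-, hy⟩, -⟩
    exact hy
  · intro s t hst ht
    refine ht.subset ?_
    rintro j ⟨y, hy, h⟩
    exact ⟨y, ⟨hy.1, hst hy.2⟩, h⟩
  · intro s t hs ht
    refine (hs.union ht).subset ?_
    rintro j ⟨y, ⟨hy, hy' | hy'⟩, h⟩
    · exact Or.inl ⟨y, ⟨hy, hy'⟩, h⟩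
    · exact Or.inr ⟨y, ⟨hy, hy'⟩, h⟩
  · intro x _
    rw [nhdsWithin_univ]
    by_cases hx : x ∈ Λ.B q.n
    swap
    · obtain ⟨U, hU, hfin⟩ := Λ.lf q.n x hx
      refine ⟨U, hU, hfin.subset ?_⟩
      rintro j ⟨y, ⟨hy, hyU⟩, -⟩
      exact ⟨y, hy.1, hyU⟩
    by_cases hxG : ∀ m ∈ q.G, x ∈ Λ.B m
    swap
    · push Not at hxG
      obtain ⟨m, hm, hxm⟩ := hxG
      refine ⟨(Λ.B m)ᶜ, (Λ.hB m).isOpen_compl.mem_nhds hxm, (finite_empty).subset ?_⟩
      rintro j ⟨y, ⟨hy, hyU⟩, -⟩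
      exact hyU (hy.2 m hm)
    have hstrict : cc q * ν (ev x F) < (1 - w q.n / 4) * Λ.P ν F := by
      obtain ⟨q', j', hk, hx', hG⟩ := Λ.exists_cl x q.k
      have h1 := cc_gap q q' (by
        intro m hm
        rcases Finset.mem_insert.1 hm with h | h
        · rw [h]; exact hG _ (q.hn.trans_le hk) hx
        · exact hG _ ((Finset.mem_range.1 (q.hG h)).trans_le hk) (hxG m h))
      have h2 := Λ.le_P hν F q' j' hx'
      have h3 := hν.nonneg (ev x F)
      have h4 := w_pos q.n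
      have h5 := w_le q.n
      have h6 : (1 - w q.n / 4) * (cc q' * ν (ev x F)) ≤ (1 - w q.n / 4) * Λ.P ν F :=
        mul_le_mul_of_nonneg_left h2 (by linarith)
      rcases eq_or_lt_of_le h3 with h7 | h7
      · rw [← h7, mul_zero]
        have : 0 < 1 - w q.n / 4 := by linarith
        positivity
      · nlinarith
    refine ⟨{y | cc q * ν (ev y F) < (1 - w q.n / 4) * Λ.P ν F}, ?_, (finite_empty).subset ?_⟩
    · refine (isOpen_lt ?_ continuous_const).mem_nhds hstrict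
      exact continuous_const.mul (hν.continuous.comp (continuous_ev F))
    · rintro j ⟨y, ⟨-, hyU⟩, h⟩
      exact absurd hyU (not_lt.2 h)

/-- late stages do not carry large values -/
theorem fin_stage (hν : EqNorm C(Z, ℝ) ν) (F : C(K × Z, ℝ)) (hF : 0 < Λ.P ν F) :
    ∃ (k0 : ℕ) (δ : ℝ), 0 < δ ∧ ∀ q : Cl, k0 < q.k → ∀ (j : Λ.J q.n), ∀ y ∈ Λ.pc q j,
      cc q * ν (ev y F) ≤ Λ.P ν F - δ := by
  classical
  have key := (isCompact_univ (X := K)).induction_on (p := fun s =>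
    ∃ (k0 : ℕ) (δ : ℝ), 0 < δ ∧ ∀ q : Cl, k0 < q.k → ∀ (j : Λ.J q.n), ∀ y ∈ Λ.pc q j ∩ s,
      cc q * ν (ev y F) ≤ Λ.P ν F - δ) ?_ ?_ ?_ ?_
  · obtain ⟨k0, δ, hδ, h⟩ := key
    exact ⟨k0, δ, hδ, fun q hq j y hy => h q hq j y ⟨hy, mem_univ _⟩⟩
  · exact ⟨0, 1, one_pos, fun q _ j y hy => hy.2.elim⟩
  · rintro s t hst ⟨k0, δ, hδ, h⟩
    exact ⟨k0, δ, hδ, fun q hq j y hy => h q hq j y ⟨hy.1, hst hy.2⟩⟩
  · rintro s t ⟨k0, δ, hδ, h⟩ ⟨k0', δ', hδ', h'⟩
    refine ⟨max k0 k0', min δ δ', lt_min hδ hδ', ?_⟩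
    rintro q hq j y ⟨hy, hy' | hy'⟩
    · have := h q ((le_max_left _ _).trans_lt hq) j y ⟨hy, hy'⟩
      have := min_le_left δ δ'
      linarith
    · have := h' q ((le_max_right _ _).trans_lt hq) j y ⟨hy, hy'⟩
      have := min_le_right δ δ'
      linarith
  · intro x _
    rw [nhdsWithin_univ]
    obtain ⟨q', j', -, hx', hG⟩ := Λ.exists_cl x 0
    let g : K → ℝ := fun y => (cc q' - 8 * w q'.k) * ν (ev y F)
    have hg : Continuous g := continuous_const.mul (hν.continuous.comp (continuous_ev F))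
    have h2 := Λ.le_P hν F q' j' hx'
    have hgx : g x < Λ.P ν F := by
      have h3 := hν.nonneg (ev x F)
      have h4 := w_pos q'.k
      rcases eq_or_lt_of_le h3 with h7 | h7
      · simp only [g]
        rw [← h7, mul_zero]
        exact hF
      · simp only [g]
        nlinarith
    refine ⟨(⋂ m ∈ (Finset.range q'.k).filter (fun m => x ∉ Λ.B m), (Λ.B m)ᶜ) ∩
      {y | g y < g x + (Λ.P ν F - g x) / 2}, ?_, q'.k, (Λ.P ν F - g x) / 2, by linarith, ?_⟩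
    · refine inter_mem ?_ ((isOpen_lt hg continuous_const).mem_nhds (by
        simp only [mem_ofPred_eq]; linarith))
      rw [Filter.biInter_finset_mem]
      intro m hm
      rw [Finset.mem_filter] at hm
      exact (Λ.hB m).isOpen_compl.mem_nhds hm.2
    · rintro q hq j y ⟨hy, hyU, hyg⟩
      have h1 := cc_dom q q' hq (by
        intro m hm hmk
        refine hG m hmk ?_
        by_contra hcon
        have h3 := mem_iInter₂.1 hyU m (Finset.mem_filter.2 ⟨Finset.mem_range.2 hmk, hcon⟩)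
        exact h3 (hy.2 m hm))
      have h3 := hν.nonneg (ev y F)
      have h4 : cc q * ν (ev y F) ≤ g y := by
        simp only [g]
        gcongr
        linarith
      have hyg : g y < g x + (Λ.P ν F - g x) / 2 := hyg
      linarith

theorem exists_bound {ι : Type*} {s : Set ι} (hs : s.Finite) (a : ℝ) (p : ι → ℝ → Prop)
    (mono : ∀ i M M', M ≤ M' → p i M → p i M') (h : ∀ i ∈ s, ∃ M < a, p i M) :
    ∃ M < a, ∀ i ∈ s, p i M := by
  induction s, hs using Set.Finite.induction_on with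
  | empty => exact ⟨a - 1, by linarith, fun i hi => hi.elim⟩
  | @insert i s _ _ ih =>
    obtain ⟨M, hM, h1⟩ := ih fun i hi => h i (mem_insert_of_mem _ hi)
    obtain ⟨M', hM', h2⟩ := h i (mem_insert _ _)
    refine ⟨max M M', max_lt hM hM', ?_⟩
    rintro i' (rfl | hi')
    · exact mono _ _ _ (le_max_right _ _) h2
    · exact mono _ _ _ (le_max_left _ _) (h1 i' hi')

/-- the weighted norm is attained -/
theorem attained [Nonempty K] (hν : EqNorm C(Z, ℝ) ν) (F : C(K × Z, ℝ)) (hF : 0 < Λ.P ν F) :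
    ∃ (q : Cl) (j : Λ.J q.n), ∃ y ∈ Λ.pc q j, cc q * ν (ev y F) = Λ.P ν F := by
  classical
  by_contra hcon
  push Not at hcon
  have hlt : ∀ (q : Cl) (j : Λ.J q.n), ∀ y ∈ Λ.pc q j, cc q * ν (ev y F) < Λ.P ν F :=
    fun q j y hy => lt_of_le_of_ne (Λ.le_P hν F q j hy) (hcon q j y hy)
  have hpiece : ∀ (q : Cl) (j : Λ.J q.n), ∃ M < Λ.P ν F, ∀ y ∈ Λ.pc q j,
      cc q * ν (ev y F) ≤ M := by
    intro q j
    by_cases hne : (Λ.pc q j).Nonempty
    · obtain ⟨y, hy, hmax⟩ := (Λ.isClosed_pc q j).isCompact.exists_isMaxOn hne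
        (f := fun y => cc q * ν (ev y F))
        (continuous_const.mul (hν.continuous.comp (continuous_ev F))).continuousOn
      exact ⟨_, hlt q j y hy, fun z hz => hmax hz⟩
    · exact ⟨Λ.P ν F - 1, by linarith, fun y hy => absurd ⟨y, hy⟩ hne⟩
  have hclass : ∀ q : Cl, ∃ M < Λ.P ν F, ∀ (j : Λ.J q.n), ∀ y ∈ Λ.pc q j,
      cc q * ν (ev y F) ≤ M := by
    intro q
    obtain ⟨M, hM, h⟩ := exists_bound (Λ.fin_class hν F hF q) (Λ.P ν F)
      (fun j M => ∀ y ∈ Λ.pc q j, cc q * ν (ev y F) ≤ M)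
      (fun j M M' hMM h y hy => (h y hy).trans hMM) (fun j _ => hpiece q j)
    have h4 := w_pos q.n
    refine ⟨max M ((1 - w q.n / 4) * Λ.P ν F), max_lt hM (by nlinarith), fun j y hy => ?_⟩
    by_cases hj : (1 - w q.n / 4) * Λ.P ν F ≤ cc q * ν (ev y F)
    · exact (h j ⟨y, hy, hj⟩ y hy).trans (le_max_left _ _)
    · exact (not_le.1 hj).le.trans (le_max_right _ _)
  obtain ⟨k0, δ, hδ, hst⟩ := Λ.fin_stage hν F hF
  obtain ⟨M, hM, h⟩ := exists_bound (finite_stage k0) (Λ.P ν F)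
    (fun q M => ∀ (j : Λ.J q.n), ∀ y ∈ Λ.pc q j, cc q * ν (ev y F) ≤ M)
    (fun q M M' hMM h j y hy => (h j y hy).trans hMM) (fun q _ => hclass q)
  have hle : Λ.P ν F ≤ max M (Λ.P ν F - δ) := by
    refine Λ.P_le F fun q j y hy => ?_
    by_cases hq : q.k ≤ k0
    · exact (h q hq j y hy).trans (le_max_left _ _)
    · exact (hst q (not_le.1 hq) j y hy).trans (le_max_right _ _)
  have : max M (Λ.P ν F - δ) < Λ.P ν F := max_lt hM (by linarith)
  linarith

end Lay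

end Pool.Agent.helper26.CK
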