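import Pool.Agent.helper26.CK.LayerSys

/-!
# CK-LayerEx: examples and closure properties of the class of layered spaces
-/

set_option autoImplicit false

open Set Topology Filter

namespace Pool.Agent.helper26.CK

/-- `K` is sigma-discrete: a countable union of relatively discrete subsets. -/
def SigmaDiscrete (K : Type) [TopologicalSpace K] : Prop :=
  ∃ D : ℕ → Set K, (∀ n, ∀ x ∈ D n, ∃ U : Set K, IsOpen U ∧ U ∩ D n = {x}) ∧ ∀ x, ∃ n, x ∈ D n

/-- countable unions of images of compact ordered spaces are layered -/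
theorem OrdImages.layered {K : Type} [TopologicalSpace K] (h : OrdImages K) : Layered K := by
  obtain ⟨L, iO, iT, φ, iOT, iC, hφ, hcov⟩ := h
  refine ⟨fun _ => ∅, fun _ => Unit, fun n _ => L n, fun n _ => iO n, fun n _ => iT n,
    fun n _ => φ n, fun _ => isClosed_empty, fun n _ => iOT n, fun n _ => iC n, fun n _ => hφ n,
    fun n x _ => ⟨univ, univ_mem, toFinite _⟩, fun x => ?_⟩
  obtain ⟨n, l, h⟩ := hcov x
  exact ⟨n, fun h => h, (), l, h⟩

/-- sigma-discrete spaces are layered -/
theorem SigmaDiscrete.layered {K : Type} [TopologicalSpace K] [T1Space K]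
    (h : SigmaDiscrete K) : Layered K := by
  classical
  obtain ⟨D, hD, hcov⟩ := h
  -- a neighbourhood which isolates `x` in `D n` isolates it in the closure
  have key : ∀ n, ∀ x ∈ D n, ∃ U : Set K, IsOpen U ∧ x ∈ U ∧ U ∩ closure (D n) = {x} := by
    intro n x hx
    obtain ⟨U, hU, hUD⟩ := hD n x hx
    have hxU : x ∈ U := by
      have : x ∈ U ∩ D n := by rw [hUD]; rfl
      exact this.1
    refine ⟨U, hU, hxU, ?_⟩
    refine subset_antisymm ?_ ?_
    · rintro y ⟨hyU, hy⟩
      by_contra hne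
      have hy2 : y ∈ closure (D n) := hy
      rw [mem_closure_iff] at hy2
      obtain ⟨z, ⟨hz1, hz2⟩, hz3⟩ := hy2 (U ∩ {x}ᶜ) (hU.inter isOpen_compl_singleton) ⟨hyU, hne⟩
      have : z ∈ U ∩ D n := ⟨hz1, hz3⟩
      rw [hUD] at this
      exact hz2 this
    · rintro y rfl
      exact ⟨hxU, subset_closure hx⟩
  have hclosed : ∀ n, IsClosed (closure (D n) \ D n) := by
    intro n
    have : closure (D n) \ D n = closure (D n) ∩ (⋃ U ∈ {U : Set K | IsOpen U ∧
        ∃ x ∈ D n, x ∈ U ∧ U ∩ closure (D n) = {x}}, U)ᶜ := by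
      ext y
      constructor
      · rintro ⟨h1, h2⟩
        refine ⟨h1, fun h => ?_⟩
        obtain ⟨U, ⟨-, x, hx, -, hUx⟩, hyU⟩ := mem_iUnion₂.1 h
        have : y ∈ U ∩ closure (D n) := ⟨hyU, h1⟩
        rw [hUx] at this
        rw [mem_singleton_iff.1 this] at h2
        exact h2 hx
      · rintro ⟨h1, h2⟩
        refine ⟨h1, fun h => h2 ?_⟩
        obtain ⟨U, hU, hyU, hUy⟩ := key n y h
        exact mem_iUnion₂.2 ⟨U, ⟨hU, y, h, hyU, hUy⟩, hyU⟩
    rw [this]
    refine isClosed_closure.inter (isOpen_biUnion fun U hU => ?_).isClosed_compl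
    exact hU.1
  refine ⟨fun n => closure (D n) \ D n, fun n => D n, fun _ _ => Unit, fun _ _ => inferInstance,
    fun _ _ => inferInstance, fun n x _ => x.1, hclosed, ?_, fun _ _ => inferInstance,
    fun _ _ => continuous_const, ?_, ?_⟩
  · intro n j
    exact ⟨Subsingleton.elim _ _⟩
  · intro n x hx
    by_cases hxD : x ∈ D n
    · obtain ⟨U, hU, hxU, hUx⟩ := key n x hxD
      refine ⟨U, hU.mem_nhds hxU, (finite_singleton (⟨x, hxD⟩ : D n)).subset ?_⟩
      rintro ⟨y, hy⟩ ⟨_, hyU⟩
      have : y ∈ U ∩ closure (D n) := ⟨hyU, subset_closure hy⟩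
      rw [hUx] at this
      exact Subtype.ext this
    · have hx2 : x ∉ closure (D n) := fun h => hx ⟨h, hxD⟩
      refine ⟨(closure (D n))ᶜ, isClosed_closure.isOpen_compl.mem_nhds hx2,
        finite_empty.subset ?_⟩
      rintro ⟨y, hy⟩ ⟨_, hyU⟩
      exact hyU (subset_closure hy)
  · intro x
    obtain ⟨n, hn⟩ := hcov x
    exact ⟨n, fun h => h.2 hn, ⟨x, hn⟩, (), rfl⟩

/-- continuous images of layered compact spaces are layered -/
theorem Layered.image {K K' : Type} [TopologicalSpace K] [CompactSpace K] [TopologicalSpace K']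
    [T2Space K'] (h : Layered K) (π : K → K') (hπ : Continuous π)
    (hs : Function.Surjective π) : Layered K' := by
  classical
  obtain ⟨B, J, L, iO, iT, φ, hB, iOT, iC, hφ, hlf, hcov⟩ := h
  obtain ⟨Q, hQ⟩ : ∃ Q : ℕ → Finset ℕ × ℕ, Function.Surjective Q := exists_surjective_nat _
  let D : Finset ℕ → Set K := fun G => {x | ∀ m ∈ G, x ∈ B m}
  have hD : ∀ G, IsClosed (D G) := by
    intro G
    have : D G = ⋂ m ∈ G, B m := by
      ext x
      simp [D]
    rw [this]
    exact isClosed_biInter fun m _ => hB m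
  have hπc : IsClosedMap π := hπ.isClosedMap
  refine ⟨fun c => π '' (D (Q c).1 ∩ B (Q c).2), fun c => J (Q c).2,
    fun c j => (φ (Q c).2 j ⁻¹' D (Q c).1 : Set (L (Q c).2 j)), fun c j => inferInstance,
    fun c j => inferInstance, fun c j l => π (φ (Q c).2 j l.1), ?_, ?_, ?_, ?_, ?_, ?_⟩
  · intro c
    exact hπc _ ((hD _).inter (hB _))
  · intro c j
    have := iOT (Q c).2 j
    have := iC (Q c).2 j
    exact orderTopology_subtype _ ((hD _).preimage (hφ _ _))
  · intro c j
    have := iC (Q c).2 j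
    exact isCompact_iff_compactSpace.1 ((hD _).preimage (hφ _ _)).isCompact
  · intro c j
    exact hπ.comp ((hφ _ _).comp continuous_subtype_val)
  · intro c x hx
    -- the part of the fibre of `x` in `D` is compact and disjoint from `B`
    let F : Set K := π ⁻¹' {x} ∩ D (Q c).1
    have hF : IsCompact F := ((isClosed_singleton.preimage hπ).inter (hD _)).isCompact
    have hFB : ∀ y ∈ F, y ∉ B (Q c).2 := fun y hy hB => hx ⟨y, ⟨hy.2, hB⟩, hy.1⟩
    obtain ⟨V, hV, hFV, hVf⟩ : ∃ V : Set K, IsOpen V ∧ F ⊆ V ∧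
        {j | ∃ l, φ (Q c).2 j l ∈ V}.Finite := by
      refine hF.induction_on (p := fun s => ∃ V : Set K, IsOpen V ∧ s ⊆ V ∧
        {j | ∃ l, φ (Q c).2 j l ∈ V}.Finite) ?_ ?_ ?_ ?_
      · refine ⟨∅, isOpen_empty, subset_rfl, finite_empty.subset ?_⟩
        rintro j ⟨_, hl⟩
        exact hl
      · rintro s t hst ⟨V, h1, h2, h3⟩
        exact ⟨V, h1, hst.trans h2, h3⟩
      · rintro s t ⟨V, h1, h2, h3⟩ ⟨V', h1', h2', h3'⟩
        refine ⟨V ∪ V', h1.union h1', union_subset_union h2 h2', (h3.union h3').subset ?_⟩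
        rintro j ⟨l, hl | hl⟩
        · exact Or.inl ⟨l, hl⟩
        · exact Or.inr ⟨l, hl⟩
      · intro y hy
        obtain ⟨U, hU, hUf⟩ := hlf (Q c).2 y (hFB y hy)
        obtain ⟨W, hWU, hW, hyW⟩ := mem_nhds_iff.1 hU
        refine ⟨W, mem_nhdsWithin_of_mem_nhds (hW.mem_nhds hyW), W, hW, subset_rfl,
          hUf.subset ?_⟩
        rintro j ⟨l, hl⟩
        exact ⟨l, hWU hl⟩
    have hT : IsClosed (π '' (D (Q c).1 ∩ Vᶜ)) := hπc _ ((hD _).inter hV.isClosed_compl)
    refine ⟨(π '' (D (Q c).1 ∩ Vᶜ))ᶜ, hT.isOpen_compl.mem_nhds ?_, hVf.subset ?_⟩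
    · rintro ⟨y, ⟨hy1, hy2⟩, hy3⟩
      exact hy2 (hFV ⟨hy3, hy1⟩)
    · rintro j ⟨⟨l, hl⟩, hl2⟩
      refine ⟨l, ?_⟩
      by_contra hV2
      exact hl2 ⟨_, ⟨hl, hV2⟩, rfl⟩
  · intro x
    -- exhaust the fibre, always with the minimal index
    let F : Set K := π ⁻¹' {x}
    have hFc : IsCompact F := (isClosed_singleton.preimage hπ).isCompact
    have hFcl : IsClosed F := isClosed_singleton.preimage hπ
    have hFne : F.Nonempty := by
      obtain ⟨y, hy⟩ := hs x
      exact ⟨y, hy⟩
    have key : ∃ q : Finset ℕ × ℕ, x ∉ π '' (D q.1 ∩ B q.2) ∧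
        ∃ j, ∃ l : (φ q.2 j ⁻¹' D q.1 : Set (L q.2 j)), π (φ q.2 j l.1) = x := by
      by_contra hcon
      let A : Finset ℕ → ℕ → Prop := fun G n => ∃ y ∈ F ∩ D G, y ∉ B n ∧ ∃ j l, φ n j l = y
      have hA : ∀ G, (F ∩ D G).Nonempty → ∃ n, A G n := by
        rintro G ⟨y, hy⟩
        obtain ⟨n, h1, h2⟩ := hcov y
        exact ⟨n, y, hy, h1, h2⟩
      have hstop : ∀ G n, A G n → (F ∩ D (insert n G)).Nonempty := by
        rintro G n ⟨y, hy, hyB, j, l, rfl⟩
        by_contra hne
        rw [not_nonempty_iff_eq_empty] at hne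
        refine hcon ⟨(G, n), ?_, j, ⟨l, hy.2⟩, hy.1⟩
        rintro ⟨z, ⟨hz1, hz2⟩, hz3⟩
        have : z ∈ F ∩ D (insert n G) := by
          refine ⟨hz3, fun m hm => ?_⟩
          rcases Finset.mem_insert.1 hm with rfl | hm
          · exact hz2
          · exact hz1 m hm
        rw [hne] at this
        exact this
      let nx : Finset ℕ → ℕ := fun G => if h : ∃ n, A G n then Nat.find h else 0
      have hnx : ∀ G, (F ∩ D G).Nonempty → A G (nx G) ∧ ∀ n, A G n → nx G ≤ n := by
        intro G hG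
        have h := hA G hG
        simp only [nx, dif_pos h]
        exact ⟨Nat.find_spec h, fun n hn => Nat.find_min' h hn⟩
      let Gs : ℕ → Finset ℕ := fun k => Nat.rec ∅ (fun _ G => insert (nx G) G) k
      have hGs : ∀ k, Gs (k + 1) = insert (nx (Gs k)) (Gs k) := fun k => rfl
      have hne : ∀ k, (F ∩ D (Gs k)).Nonempty := by
        intro k
        induction k with
        | zero =>
          obtain ⟨y, hy⟩ := hFne
          exact ⟨y, hy, fun m hm => absurd hm (Finset.notMem_empty m)⟩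
        | succ k ih =>
          rw [hGs]
          exact hstop _ _ (hnx _ ih).1
      have hmono : ∀ k l, k ≤ l → Gs k ⊆ Gs l := by
        intro k l hkl
        induction hkl with
        | refl => exact subset_rfl
        | step _ ih => exact ih.trans (by rw [hGs]; exact Finset.subset_insert _ _)
      have hcap : (⋂ k, F ∩ D (Gs k)).Nonempty := by
        refine IsCompact.nonempty_iInter_of_sequence_nonempty_isCompact_isClosed _ ?_ hne ?_ ?_
        · intro k y hy
          refine ⟨hy.1, fun m hm => hy.2 m ?_⟩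
          exact hmono k (k + 1) (Nat.le_succ k) hm
        · exact hFc.inter_right (hD _)
        · exact fun k => hFcl.inter (hD _)
      obtain ⟨y, hy⟩ := hcap
      rw [mem_iInter] at hy
      obtain ⟨n, h1, h2⟩ := hcov y
      have hle : ∀ k, nx (Gs k) ≤ n := fun k => (hnx _ (hne k)).2 n ⟨y, hy k, h1, h2⟩
      have hinj : Function.Injective fun k => nx (Gs k) := by
        intro k l hkl
        wlog hlt : k < l generalizing k l with H
        · rcases lt_trichotomy k l with h | h | h
          · exact H hkl h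
          · exact h
          · exact (H hkl.symm h).symm
        exfalso
        obtain ⟨z, hz, hzB, -⟩ := (hnx _ (hne l)).1
        refine hzB (hz.2 _ ?_)
        have hkl' : nx (Gs k) = nx (Gs l) := hkl
        rw [← hkl']
        refine hmono (k + 1) l hlt ?_
        rw [hGs]
        exact Finset.mem_insert_self _ _
      exact (Set.infinite_of_injective_forall_mem hinj (s := Iic n) hle) (finite_Iic n)
    obtain ⟨q, h⟩ := key
    obtain ⟨c, rfl⟩ := hQ q
    exact ⟨c, h⟩

/-- closed subspaces of layered compact spaces are layered -/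
theorem Layered.closed {K : Type} [TopologicalSpace K] (h : Layered K) [CompactSpace K]
    [T2Space K] (F : Set K) (hF : IsClosed F) : Layered F := by
  obtain ⟨B, J, L, iO, iT, φ, hB, iOT, iC, hφ, hlf, hcov⟩ := h
  refine ⟨fun n => Subtype.val ⁻¹' B n, J, fun n j => (φ n j ⁻¹' F : Set (L n j)),
    fun n j => inferInstance, fun n j => inferInstance, fun n j l => ⟨φ n j l.1, l.2⟩,
    fun n => (hB n).preimage continuous_subtype_val, ?_, ?_, ?_, ?_, ?_⟩
  · intro n j
    have := iOT n j
    have := iC n j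
    exact orderTopology_subtype _ (hF.preimage (hφ _ _))
  · intro n j
    have := iC n j
    exact isCompact_iff_compactSpace.1 (hF.preimage (hφ _ _)).isCompact
  · intro n j
    exact ((hφ _ _).comp continuous_subtype_val).subtype_mk _
  · intro n x hx
    obtain ⟨U, hU, hUf⟩ := hlf n x hx
    refine ⟨Subtype.val ⁻¹' U, continuous_subtype_val.continuousAt.preimage_mem_nhds hU,
      hUf.subset ?_⟩
    rintro j ⟨l, hl⟩
    exact ⟨l.1, hl⟩
  · intro x
    obtain ⟨n, h1, j, l, h2⟩ := hcov x
    exact ⟨n, h1, j, ⟨l, by rw [mem_preimage, h2]; exact x.2⟩, Subtype.ext h2⟩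

end Pool.Agent.helper26.CK
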