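import Pool.Agent.helper26.CK.Defs

/-!
# CK-Restr: C¹ and polyhedral norms pass to isometric subspaces
-/

set_option autoImplicit false

open Set Topology Filter

namespace Pool.Agent.helper26.CK

section restr
variable {X Y : Type*} [NormedAddCommGroup Y] [NormedSpace ℝ Y] [NormedAddCommGroup X]
    [NormedSpace ℝ X]

theorem EqNorm.comp {N : Y → ℝ} (hN : EqNorm Y N) (ι : X →ₗᵢ[ℝ] Y) :
    EqNorm X fun x => N (ι x) where
  add_le := fun f g => by rw [map_add]; exact hN.add_le _ _
  smul := fun a f => by rw [map_smul]; exact hN.smul _ _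
  eq_zero := fun f hf => by
    have := hN.eq_zero _ hf
    exact (map_eq_zero_iff ι ι.injective).1 this
  equiv := by
    obtain ⟨c, C, hc, hC, h⟩ := hN.equiv
    refine ⟨c, C, hc, hC, fun f => ?_⟩
    have := h (ι f)
    rw [ι.norm_map] at this
    exact this

theorem HasC1.comp (h : HasC1 Y) (ι : X →ₗᵢ[ℝ] Y) : HasC1 X := by
  obtain ⟨N, hN, h1⟩ := h
  refine ⟨fun x => N (ι x), hN.comp ι, ?_⟩
  refine h1.comp ι.toContinuousLinearMap.contDiff.contDiffOn ?_
  intro x hx h0
  exact hx ((map_eq_zero_iff ι ι.injective).1 h0)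

theorem HasPoly.comp (h : HasPoly Y) (ι : X →ₗᵢ[ℝ] Y) : HasPoly X := by
  classical
  obtain ⟨N, hN, h1⟩ := h
  refine ⟨fun x => N (ι x), hN.comp ι, fun E hE => ?_⟩
  haveI := hE
  obtain ⟨S, hS⟩ := h1 (E.map (ι.toLinearMap)) inferInstance
  have hsub : (S : Set Y) ⊆ range ι := by
    intro y hy
    have : y ∈ {f | f ∈ E.map ι.toLinearMap ∧ N f ≤ 1} := by
      rw [hS]; exact subset_convexHull ℝ _ hy
    obtain ⟨x, -, hx⟩ := this.1
    exact ⟨x, hx⟩
  refine ⟨S.preimage ι ι.injective.injOn, ?_⟩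
  have himg : ι '' (S.preimage ι ι.injective.injOn : Set X) = S := by
    rw [Finset.coe_preimage, image_preimage_eq_inter_range, inter_eq_left.2 hsub]
  have h2 : ι '' {f | f ∈ E ∧ N (ι f) ≤ 1} = ι '' convexHull ℝ
      (S.preimage ι ι.injective.injOn : Set X) := by
    have h3 : ι '' convexHull ℝ (S.preimage ι ι.injective.injOn : Set X) =
        convexHull ℝ (ι '' (S.preimage ι ι.injective.injOn : Set X)) :=
      ι.toLinearMap.image_convexHull _
    rw [h3, himg, ← hS]
    ext y
    constructor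
    · rintro ⟨x, ⟨hx1, hx2⟩, rfl⟩
      exact ⟨⟨x, hx1, rfl⟩, hx2⟩
    · rintro ⟨⟨x, hx1, rfl⟩, hx2⟩
      exact ⟨x, ⟨hx1, hx2⟩, rfl⟩
  exact ι.injective.image_injective h2

end restr

variable {K Z : Type} [TopologicalSpace K] [CompactSpace K] [TopologicalSpace Z] [CompactSpace Z]

/-- functions of the second variable -/
noncomputable def sndIso (K Z : Type) [TopologicalSpace K] [CompactSpace K] [TopologicalSpace Z]
    [CompactSpace Z] [Nonempty K] : C(Z, ℝ) →ₗᵢ[ℝ] C(K × Z, ℝ) where
  toFun := fun f => f.comp ⟨Prod.snd, continuous_snd⟩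
  map_add' := fun f g => by ext z; rfl
  map_smul' := fun a f => by ext z; rfl
  norm_map' := fun f => by
    refine le_antisymm ?_ ?_
    · refine (ContinuousMap.norm_le _ (norm_nonneg _)).2 fun p => ?_
      exact f.norm_coe_le_norm p.2
    · refine (ContinuousMap.norm_le _ (norm_nonneg _)).2 fun z => ?_
      obtain ⟨x⟩ := (inferInstance : Nonempty K)
      exact (f.comp (⟨Prod.snd, continuous_snd⟩ : C(K × Z, Z))).norm_coe_le_norm (x, z)

/-- functions of the first variable -/
noncomputable def fstIso (K Z : Type) [TopologicalSpace K] [CompactSpace K] [TopologicalSpace Z]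
    [CompactSpace Z] [Nonempty Z] : C(K, ℝ) →ₗᵢ[ℝ] C(K × Z, ℝ) where
  toFun := fun f => f.comp ⟨Prod.fst, continuous_fst⟩
  map_add' := fun f g => by ext z; rfl
  map_smul' := fun a f => by ext z; rfl
  norm_map' := fun f => by
    refine le_antisymm ?_ ?_
    · refine (ContinuousMap.norm_le _ (norm_nonneg _)).2 fun p => ?_
      exact f.norm_coe_le_norm p.1
    · refine (ContinuousMap.norm_le _ (norm_nonneg _)).2 fun x => ?_
      obtain ⟨z⟩ := (inferInstance : Nonempty Z)
      exact (f.comp (⟨Prod.fst, continuous_fst⟩ : C(K × Z, K))).norm_coe_le_norm (x, z)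

end Pool.Agent.helper26.CK
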