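import Pool.Agent.helper26.CK.BumpDef

/-!
# CK-RoughS: a separable closed subspace with bumps

PROOF: choose by `hb` for every `f : C(W, ℝ)`, `m, n : ℕ` bumps `e f m n : Fin m → C(W, ℝ)` for `η = 1/(n+1)`.
Let `D` be the least set of functions containing `0`, closed under addition and under multiplication by
rational numbers, and containing `e f m n j` for every `f ∈ D` and all `m, n, j`.  `D` is countable: it is
the union of `D 0 = {0}`, `D (k+1) = D k ∪ (D k + D k) ∪ ℚ • D k ∪ {e f m n j | f ∈ D k}` (or: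
`Countable` is preserved by one step `Set.Countable.image2`, `Set.countable_iUnion`, and
`D = ⋃ k, D k` is increasing).  `Y = closure D` is a closed real subspace (`closure` of a `ℚ`-subspace;
or take `Y = (Submodule.span ℝ D).topologicalClosure` and show that `D` is dense in it).  It is separable
(`IsSeparable` of the countable set `D`, or `Submodule.span` separable:
`TopologicalSpace.IsSeparable.span`, `IsSeparable.closure`, `IsSeparable.separableSpace`).
Bumps: for `f ∈ Y` and `η` take `f' ∈ D` with `‖f - f'‖ < η / 4` and the bumps of `f'` for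
`1/(n+1) < η / 4`: `|f x| - η ≤ |f' x| + η / 4 - η ≤ σ * f' (t j) + η / 4 + η / 4 - η ≤ σ * f (t j)`
(`|f w - f' w| ≤ ‖f - f'‖`).
If `Y` is the closure of the span of `D`: `D` is dense in the span as the rationals are dense (with the
`ℚ`-closure of `D`), or avoid this by making `D` closed under `ℚ`-multiples and sums as above.
-/

set_option autoImplicit false

open Set Topology Filter

namespace Pool.Agent.helper26.CK

variable {W : Type} [TopologicalSpace W] [CompactSpace W]

/-- one step of the countable closure process -/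
def roughStep (e : C(W, ℝ) → (n m : ℕ) → Fin m → C(W, ℝ)) (D : Set C(W, ℝ)) : Set C(W, ℝ) :=
  D ∪ image2 (fun f g => f + g) D D ∪ image2 (fun (q : ℚ) f => (q : ℝ) • f) univ D ∪
    ⋃ n : ℕ, ⋃ m : ℕ, ⋃ j : Fin m, (fun f => e f n m j) '' D

/-- the countable sets -/
def roughD (e : C(W, ℝ) → (n m : ℕ) → Fin m → C(W, ℝ)) : ℕ → Set C(W, ℝ)
  | 0 => {0}
  | k + 1 => roughStep e (roughD e k)

theorem roughD_countable (e : C(W, ℝ) → (n m : ℕ) → Fin m → C(W, ℝ)) (k : ℕ) :
    (roughD e k).Countable := by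
  induction k with
  | zero => exact Set.countable_singleton _
  | succ k ih =>
    unfold roughD roughStep
    refine ((ih.union (ih.image2 ih _)).union (Set.countable_univ.image2 ih _)).union ?_
    refine Set.countable_iUnion fun n => Set.countable_iUnion fun m =>
      Set.countable_iUnion fun j => ih.image _

theorem roughD_mono (e : C(W, ℝ) → (n m : ℕ) → Fin m → C(W, ℝ)) : Monotone (roughD e) := by
  refine monotone_nat_of_le_succ fun k => ?_
  intro f hf
  exact Or.inl (Or.inl (Or.inl hf))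

theorem exists_sep {A : Set W}
    (hb : ∀ (f : C(W, ℝ)) (η : ℝ) (m : ℕ), 0 < η → Bumps A univ f η m) :
    ∃ Y : Submodule ℝ C(W, ℝ), IsClosed (Y : Set C(W, ℝ)) ∧ TopologicalSpace.SeparableSpace Y ∧
      ∀ f ∈ Y, ∀ (η : ℝ) (m : ℕ), 0 < η → Bumps A Y f η m := by
  have hb' : ∀ (f : C(W, ℝ)) (n m : ℕ), ∃ (e : Fin m → C(W, ℝ)) (t : Fin m → W) (σ : ℝ),
      (σ = 1 ∨ σ = -1) ∧ (∀ j, e j ∈ (univ : Set C(W, ℝ))) ∧
      (∀ j, t j ∈ A) ∧ (∀ j w, 0 ≤ e j w ∧ e j w ≤ 1) ∧ (∀ j, e j (t j) = 1) ∧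
      (∀ j k, j ≠ k → ∀ w, e j w * e k w = 0) ∧
      ∀ j, ∀ x ∈ A, |f x| - 1 / ((n : ℝ) + 1) ≤ σ * f (t j) :=
    fun f n m => hb f (1 / ((n : ℝ) + 1)) m (by positivity)
  choose e t σ h1 _ h3 h4 h5 h6 h7 using hb'
  set D : Set C(W, ℝ) := ⋃ k, roughD e k with hD
  have hDc : D.Countable := Set.countable_iUnion (roughD_countable e)
  have hD0 : (0 : C(W, ℝ)) ∈ D := Set.mem_iUnion.2 ⟨0, rfl⟩
  have hDadd : ∀ f ∈ D, ∀ g ∈ D, f + g ∈ D := by
    intro f hf g hg
    obtain ⟨k, hk⟩ := Set.mem_iUnion.1 hf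
    obtain ⟨l, hl⟩ := Set.mem_iUnion.1 hg
    have hk' := roughD_mono e (le_max_left k l) hk
    have hl' := roughD_mono e (le_max_right k l) hl
    exact Set.mem_iUnion.2 ⟨max k l + 1, Or.inl (Or.inl (Or.inr ⟨f, hk', g, hl', rfl⟩))⟩
  have hDsmul : ∀ (q : ℚ), ∀ f ∈ D, (q : ℝ) • f ∈ D := by
    intro q f hf
    obtain ⟨k, hk⟩ := Set.mem_iUnion.1 hf
    exact Set.mem_iUnion.2 ⟨k + 1, Or.inl (Or.inr ⟨q, Set.mem_univ _, f, hk, rfl⟩)⟩
  have hDe : ∀ f ∈ D, ∀ n m (j : Fin m), e f n m j ∈ D := by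
    intro f hf n m j
    obtain ⟨k, hk⟩ := Set.mem_iUnion.1 hf
    refine Set.mem_iUnion.2 ⟨k + 1, Or.inr ?_⟩
    exact Set.mem_iUnion.2 ⟨n, Set.mem_iUnion.2 ⟨m, Set.mem_iUnion.2 ⟨j, f, hk, rfl⟩⟩⟩
  let Y : Submodule ℝ C(W, ℝ) :=
    { carrier := closure D
      add_mem' := fun {f g} hf hg => map_mem_closure₂ continuous_add hf hg hDadd
      zero_mem' := subset_closure hD0
      smul_mem' := by
        intro c f hf
        have hc : c ∈ closure (Set.range ((↑) : ℚ → ℝ)) := by
          rw [Rat.denseRange_cast.closure_range]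
          exact Set.mem_univ _
        refine map_mem_closure₂ continuous_smul hc hf ?_
        rintro _ ⟨q, rfl⟩ g hg
        exact hDsmul q g hg }
  have hYD : (Y : Set C(W, ℝ)) = closure D := rfl
  refine ⟨Y, ?_, ?_, ?_⟩
  · rw [hYD]
    exact isClosed_closure
  · have hs : TopologicalSpace.IsSeparable (Y : Set C(W, ℝ)) := by
      rw [hYD]
      exact hDc.isSeparable.closure
    exact hs.separableSpace
  · intro f hf η m hη
    obtain ⟨n, hn⟩ := exists_nat_one_div_lt (show (0 : ℝ) < η / 4 by positivity)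
    have hf' : f ∈ closure D := hf
    obtain ⟨f', hf'D, hdist⟩ := Metric.mem_closure_iff.1 hf' (η / 4) (by positivity)
    have hpt : ∀ w, |f w - f' w| ≤ η / 4 := by
      intro w
      have h8 := (f - f').norm_coe_le_norm w
      rw [dist_eq_norm] at hdist
      rw [ContinuousMap.sub_apply, Real.norm_eq_abs] at h8
      linarith
    refine ⟨e f' n m, t f' n m, σ f' n m, h1 f' n m, fun j => subset_closure (hDe f' hf'D n m j),
      h3 f' n m, h4 f' n m, h5 f' n m, h6 f' n m, ?_⟩
    intro j x hx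
    have h8 := h7 f' n m j x hx
    have h9 := hpt x
    have h10 := hpt (t f' n m j)
    have h11 : |f x| ≤ |f' x| + η / 4 := by
      have h12 := abs_sub_abs_le_abs_sub (f x) (f' x)
      linarith
    have h13 : σ f' n m * f' (t f' n m j) ≤ σ f' n m * f (t f' n m j) + η / 4 := by
      rw [abs_le] at h10
      rcases h1 f' n m with h14 | h14
      · rw [h14]
        linarith
      · rw [h14]
        linarith
    linarith

end Pool.Agent.helper26.CK
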