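import Pool.Agent.helper26.CK.RoughC
import Pool.Agent.helper26.CK.RoughS
import Pool.Agent.helper26.CK.Flat2
import Pool.Agent.helper26.CK.Bd2
import Pool.Agent.helper26.CK.Poly1
import Pool.Agent.helper26.CK.Restr

/-!
# CK-RoughM: C(W) has neither a C¹ nor a polyhedral norm if W is not scattered
-/

set_option autoImplicit false

open Set Topology Filter

namespace Pool.Agent.helper26.CK

theorem not_hasC1_of_rough {Y : Type*} [NormedAddCommGroup Y] [NormedSpace ℝ Y] [CompleteSpace Y]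
    {q : Y → ℝ} (hq : Rough Y q) : ¬ HasC1 Y := by
  classical
  rintro ⟨N, hN, h1⟩
  refine no_flat hq hN fun δ hδ x hx => ?_
  have hd : HasFDerivAt N (fderiv ℝ N x) x :=
    (((h1 x hx).contDiffAt (isOpen_ne.mem_nhds hx)).differentiableAt (by norm_num)).hasFDerivAt
  have h2 := (hasFDerivAt_iff_isLittleO_nhds_zero.1 hd).def hδ
  obtain ⟨ε, hε, h3⟩ := Metric.eventually_nhds_iff.1 h2
  refine ⟨ε, hε, {fderiv ℝ N x}, fun h hh hg => ?_⟩
  have h4 := h3 (y := h) (by simpa using hh)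
  rw [hg _ (Finset.mem_singleton_self _), sub_zero, Real.norm_eq_abs] at h4
  linarith [le_abs_self (N (x + h) - N x)]

/-- a polyhedral norm is piecewise linear -/
theorem piecewise_of_polyhedral {Y : Type*} [NormedAddCommGroup Y] [NormedSpace ℝ Y]
    {N : Y → ℝ} (hN : EqNorm Y N) (hp : Polyhedral Y N) (x y : Y) :
    ∃ ε > 0, ∃ c : ℝ, ∀ t ∈ Icc (0 : ℝ) ε, N (x + t • y) = N x + t * c := by
  classical
  let E : Submodule ℝ Y := Submodule.span ℝ {x, y}
  haveI : FiniteDimensional ℝ E := FiniteDimensional.span_of_finite ℝ (toFinite _)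
  obtain ⟨S, hS⟩ := hp E inferInstance
  obtain ⟨Φ, hΦ⟩ := finMax_of_poly hN E S hS
  let x' : E := ⟨x, Submodule.subset_span (by simp)⟩
  let y' : E := ⟨y, Submodule.subset_span (by simp)⟩
  -- the active functionals at x
  let A := Φ.filter fun φ => φ x' = N x
  have hA : A.Nonempty := by
    obtain ⟨φ, hφ, h⟩ := (hΦ x').2
    exact ⟨φ, Finset.mem_filter.2 ⟨hφ, h⟩⟩
  obtain ⟨φ0, hφ0, hmax⟩ := A.exists_max_image (fun φ => φ y') hA
  -- the inactive ones are small near x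
  have hsmall : ∀ φ ∈ Φ, φ ∉ A → ∃ ε > 0, ∀ t ∈ Icc (0 : ℝ) ε, φ x' + t * φ y' ≤ φ0 x' + t * φ0 y' := by
    intro φ hφ hφA
    have h1 : φ x' < φ0 x' := by
      have h2 : φ x' ≤ N x := (hΦ x').1 φ hφ
      have h3 : φ0 x' = N x := (Finset.mem_filter.1 hφ0).2
      rw [h3]
      exact lt_of_le_of_ne h2 fun h => hφA (Finset.mem_filter.2 ⟨hφ, h⟩)
    refine ⟨(φ0 x' - φ x') / (|φ y' - φ0 y'| + 1), div_pos (by linarith) (by positivity), ?_⟩
    rintro t ⟨ht0, ht⟩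
    rw [le_div_iff₀ (by positivity)] at ht
    have h4 : t * (φ y' - φ0 y') ≤ t * (|φ y' - φ0 y'| + 1) := by
      gcongr
      linarith [le_abs_self (φ y' - φ0 y')]
    linarith
  have hall : ∀ φ, ∃ ε > 0, φ ∈ Φ → ∀ t ∈ Icc (0 : ℝ) ε,
      φ x' + t * φ y' ≤ φ0 x' + t * φ0 y' := by
    intro φ
    by_cases hφ : φ ∈ Φ
    · by_cases hφA : φ ∈ A
      · refine ⟨1, one_pos, fun _ t ht => ?_⟩
        have h1 : φ y' ≤ φ0 y' := hmax φ hφA
        have h2 : φ x' = N x := (Finset.mem_filter.1 hφA).2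
        have h3 : φ0 x' = N x := (Finset.mem_filter.1 hφ0).2
        rw [h2, h3]
        have := mul_le_mul_of_nonneg_left h1 ht.1
        linarith
      · obtain ⟨ε, hε, h⟩ := hsmall φ hφ hφA
        exact ⟨ε, hε, fun _ => h⟩
    · exact ⟨1, one_pos, fun h => absurd h hφ⟩
  choose ε hε h using hall
  have hΦne : Φ.Nonempty := by
    obtain ⟨φ, hφ, -⟩ := (hΦ x').2
    exact ⟨φ, hφ⟩
  obtain ⟨φ1, hφ1, hmin⟩ := Φ.exists_min_image ε hΦne
  refine ⟨ε φ1, hε φ1, φ0 y', fun t ht => ?_⟩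
  have hcoe : ((x' + t • y' : E) : Y) = x + t • y := rfl
  have h3 : φ0 x' = N x := (Finset.mem_filter.1 hφ0).2
  refine le_antisymm ?_ ?_
  · obtain ⟨φ, hφ, h1⟩ := (hΦ (x' + t • y')).2
    rw [hcoe] at h1
    rw [← h1, map_add, map_smul, smul_eq_mul, ← h3]
    exact h φ hφ t ⟨ht.1, ht.2.trans (hmin φ hφ)⟩
  · have h1 := (hΦ (x' + t • y')).1 φ0 (Finset.mem_filter.1 hφ0).1
    rw [hcoe, map_add, map_smul, smul_eq_mul, h3] at h1
    exact h1

theorem not_hasPoly_of_rough {Y : Type*} [NormedAddCommGroup Y] [NormedSpace ℝ Y] [CompleteSpace Y]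
    [TopologicalSpace.SeparableSpace Y] {q : Y → ℝ} (hq : Rough Y q) : ¬ HasPoly Y := by
  rintro ⟨N, hN, hp⟩
  obtain ⟨f, hf1, hf2⟩ := exists_boundary hN (piecewise_of_polyhedral hN hp)
  obtain ⟨N', hN', hflat⟩ := exists_flat hN f hf1 hf2
  refine no_flat hq hN' fun δ hδ x hx => ?_
  obtain ⟨ε, hε, J, hJ⟩ := hflat x hx
  refine ⟨ε, hε, J, fun h h1 h2 => (hJ h h1 h2).trans ?_⟩
  have := mul_nonneg hδ.le (norm_nonneg h)
  linarith

variable {W : Type} [TopologicalSpace W] [CompactSpace W] [T2Space W]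

theorem not_hasC1 (hW : ¬ Scattered W) : ¬ HasC1 C(W, ℝ) := by
  obtain ⟨A, hA, hA2⟩ := exists_perfect hW
  refine not_hasC1_of_rough (rough_of_bumps hA (LinearIsometry.id (R := ℝ)) fun f η m hη => ?_)
  have h := exists_bumps hA hA2 f hη m
  have hr : range (LinearIsometry.id (R := ℝ) (E := C(W, ℝ))) = univ := by
    ext x; simp
  rw [hr]
  exact h

theorem not_hasPoly (hW : ¬ Scattered W) : ¬ HasPoly C(W, ℝ) := by
  obtain ⟨A, hA, hA2⟩ := exists_perfect hW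
  obtain ⟨Y, hYc, hYs, hY⟩ := exists_sep (A := A) fun f η m hη => exists_bumps hA hA2 f hη m
  haveI : CompleteSpace Y := hYc.completeSpace_coe
  haveI := hYs
  intro h
  have h' : HasPoly Y := HasPoly.comp (X := Y) h Y.subtypeₗᵢ
  refine not_hasPoly_of_rough (rough_of_bumps hA Y.subtypeₗᵢ fun f η m hη => ?_) h'
  have hr : range Y.subtypeₗᵢ = (Y : Set C(W, ℝ)) := by
    ext x; simp
  rw [hr]
  exact hY f f.2 η m hη

end Pool.Agent.helper26.CK
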