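import Pool.Agent.helper26.CK.Prod
import Pool.Agent.helper26.CK.RoughM

/-!
# CK-Point: C(K) itself
-/

set_option autoImplicit false

open Set Topology Filter

namespace Pool.Agent.helper26.CK

theorem eqNorm_unit : EqNorm C(Unit, ℝ) fun f => |f ()| where
  add_le := fun f g => abs_add_le _ _
  smul := fun a f => abs_mul _ _
  eq_zero := fun f hf => by
    ext w
    exact abs_eq_zero.1 hf
  equiv := by
    refine ⟨1, 1, one_pos, one_pos, fun f => ?_⟩
    have h1 : ‖f‖ = |f ()| := by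
      refine le_antisymm ((ContinuousMap.norm_le _ (abs_nonneg _)).2 fun w => ?_)
        (f.norm_coe_le_norm ())
      exact le_rfl
    rw [h1]; simp

theorem hasC1_unit : HasC1 C(Unit, ℝ) := by
  refine ⟨_, eqNorm_unit, fun f hf => ?_⟩
  have hfz : f () ≠ 0 := by
    intro h0
    apply hf
    ext w
    exact h0
  have h1 : ContDiffAt ℝ 1 (fun f : C(Unit, ℝ) => f ()) f :=
    (ContinuousMap.evalCLM ℝ () : C(Unit, ℝ) →L[ℝ] ℝ).contDiff.contDiffAt
  exact ((contDiffAt_abs hfz).comp f h1).contDiffWithinAt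

theorem hasPoly_unit : HasPoly C(Unit, ℝ) := by
  classical
  refine ⟨_, eqNorm_unit, fun E hE => ?_⟩
  let φ : E →ₗ[ℝ] ℝ := (ContinuousMap.evalCLM ℝ () : C(Unit, ℝ) →L[ℝ] ℝ).toLinearMap ∘ₗ E.subtype
  refine poly_of_finMax eqNorm_unit E ⟨{φ, -φ}, fun x => ⟨?_, ?_⟩⟩
  · intro ψ hψ
    rcases Finset.mem_insert.1 hψ with rfl | hψ
    · exact le_abs_self _
    · rw [Finset.mem_singleton.1 hψ]
      exact neg_le_abs _
  · rcases abs_choice ((x : C(Unit, ℝ)) ()) with h | h
    · exact ⟨φ, Finset.mem_insert_self _ _, h.symm⟩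
    · exact ⟨-φ, Finset.mem_insert_of_mem (Finset.mem_singleton_self _), h.symm⟩

variable {K Z : Type} [TopologicalSpace K] [CompactSpace K] [T2Space K] [TopologicalSpace Z]
  [CompactSpace Z]

theorem hasC1_iff [Nonempty K] (hO : OrdImages K) : HasC1 C(K, ℝ) ↔ Scattered K := by
  constructor
  · intro h
    by_contra hK
    exact not_hasC1 hK h
  · intro hK
    exact (hasC1_prod hK hO hasC1_unit).comp (fstIso K Unit)

theorem hasPoly_iff [Nonempty K] (hO : OrdImages K) : HasPoly C(K, ℝ) ↔ Scattered K := by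
  constructor
  · intro h
    by_contra hK
    exact not_hasPoly hK h
  · intro hK
    exact (hasPoly_prod hK hO hasPoly_unit).comp (fstIso K Unit)

theorem hasC1_prod_iff [Nonempty K] [Nonempty Z] (hO : OrdImages K) :
    HasC1 C(K × Z, ℝ) ↔ Scattered K ∧ HasC1 C(Z, ℝ) := by
  constructor
  · intro h
    refine ⟨?_, h.comp (sndIso K Z)⟩
    by_contra hK
    exact not_hasC1 hK (h.comp (fstIso K Z))
  · rintro ⟨hK, h⟩
    exact hasC1_prod hK hO h

theorem hasPoly_prod_iff [Nonempty K] [Nonempty Z] (hO : OrdImages K) :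
    HasPoly C(K × Z, ℝ) ↔ Scattered K ∧ HasPoly C(Z, ℝ) := by
  constructor
  · intro h
    refine ⟨?_, h.comp (sndIso K Z)⟩
    by_contra hK
    exact not_hasPoly hK (h.comp (fstIso K Z))
  · rintro ⟨hK, h⟩
    exact hasPoly_prod hK hO h

end Pool.Agent.helper26.CK
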