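import Pool.Agent.helper26.CK.Prod

/-!
# CK-SubOrd: closed subsets of compact ordered spaces, and the jumps of a piece
-/

set_option autoImplicit false

open Set Topology Filter

namespace Pool.Agent.helper26.CK

theorem orderTopology_subtype {L : Type} [LinearOrder L] [TopologicalSpace L] [OrderTopology L]
    [CompactSpace L] (F : Set L) (hF : IsClosed F) : OrderTopology F := by
  have hc : CompactSpace F := isCompact_iff_compactSpace.1 hF.isCompact
  have ho1 : ∀ a : F, IsOpen (Ioi a) := fun a =>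
    (isOpen_Ioi (a := (a : L))).preimage continuous_subtype_val
  have ho2 : ∀ a : F, IsOpen (Iio a) := fun a =>
    (isOpen_Iio (a := (a : L))).preimage continuous_subtype_val
  let t1 : TopologicalSpace F := instTopologicalSpaceSubtype
  let t2 : TopologicalSpace F := Preorder.topology F
  have hle : t1 ≤ t2 := by
    refine le_generateFrom ?_
    rintro s ⟨a, rfl | rfl⟩
    · exact ho1 a
    · exact ho2 a
  have h2 : @OrderTopology F t2 _ := @OrderTopology.mk F t2 _ rfl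
  have h3 : @T2Space F t2 := by
    letI := t2
    infer_instance
  have hcm : @IsClosedMap F F t1 t2 id :=
    @Continuous.isClosedMap F F t1 t2 hc h3 id (continuous_id_iff_le.2 hle)
  have hge : t2 ≤ t1 := by
    rw [← continuous_id_iff_le]
    refine @continuous_iff_isClosed F F t2 t1 id |>.2 ?_
    intro s hs
    have := hcm s hs
    simpa using this
  have heq : t1 = t2 := le_antisymm hle hge
  exact @OrderTopology.mk F t1 _ heq

theorem scattered_subtype {K : Type} [TopologicalSpace K] (hK : Scattered K) (C : Set K) :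
    Scattered C := by
  intro A hA
  obtain ⟨x, ⟨x', hx', rfl⟩, U, hU, hUA⟩ := hK (Subtype.val '' A) (hA.image _)
  refine ⟨x', hx', Subtype.val ⁻¹' U, hU.preimage continuous_subtype_val, ?_⟩
  ext z
  constructor
  · rintro ⟨hz1, hz2⟩
    have : (z : K) ∈ U ∩ Subtype.val '' A := ⟨hz1, z, hz2, rfl⟩
    rw [hUA] at this
    exact Subtype.ext this
  · intro hz
    rw [mem_singleton_iff.1 hz]
    have : (x' : K) ∈ U ∩ Subtype.val '' A := by rw [hUA]; exact rfl
    exact ⟨this.1, hx'⟩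

variable {L K Z : Type} [LinearOrder L] [TopologicalSpace L] [OrderTopology L] [CompactSpace L]
  [TopologicalSpace K] [CompactSpace K] [T2Space K] [TopologicalSpace Z] [CompactSpace Z]

theorem exists_piece (hK : Scattered K) {φ : L → K} (hφ : Continuous φ) {D : Set K}
    (hD : IsClosed D) (hne : (range φ ∩ D).Nonempty) {ν : C(Z, ℝ) → ℝ} (hν : EqNorm C(Z, ℝ) ν) :
    ∃ (I : Type) (y a b : I → K), (∀ i, y i ∈ range φ ∩ D) ∧
      (∀ (F : C(K × Z, ℝ)) (ε : ℝ), 0 < ε → {i | ε ≤ ν (ev (b i) F - ev (a i) F)}.Finite) ∧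
      ∀ (F : C(K × Z, ℝ)) (M : ℝ), (∀ x ∈ range φ ∩ D, ν (ev x F) ≤ M) →
        (∃ x ∈ range φ ∩ D, ν (ev x F) = M) →
        (∃ x ∈ range φ ∩ D, ∃ x' ∈ range φ ∩ D, ev x F ≠ ev x' F) →
        ∃ i, ν (ev (y i) F) = M ∧ ev (b i) F - ev (a i) F ≠ 0 := by
  classical
  have hG : IsClosed (φ ⁻¹' D) := hD.preimage hφ
  have hC : IsClosed (range φ ∩ D) := (isCompact_range hφ).isClosed.inter hD
  have i1 : OrderTopology (φ ⁻¹' D) := orderTopology_subtype _ hG
  have i2 : CompactSpace (φ ⁻¹' D) := isCompact_iff_compactSpace.1 hG.isCompact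
  have i3 : CompactSpace (range φ ∩ D : Set K) := isCompact_iff_compactSpace.1 hC.isCompact
  have i4 : Nonempty (φ ⁻¹' D) := by
    obtain ⟨_, ⟨l, rfl⟩, hl⟩ := hne
    exact ⟨⟨l, hl⟩⟩
  have i5 : Nonempty (range φ ∩ D : Set K) := hne.to_subtype
  let φ' : (φ ⁻¹' D) → (range φ ∩ D : Set K) := fun l => ⟨φ l, ⟨l, rfl⟩, l.2⟩
  have hφ' : Continuous φ' := (hφ.comp continuous_subtype_val).subtype_mk _
  have hs' : Function.Surjective φ' := by
    rintro ⟨_, ⟨l, rfl⟩, hl⟩
    exact ⟨⟨l, hl⟩, rfl⟩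
  have hK' : Scattered (range φ ∩ D : Set K) := scattered_subtype hK _
  obtain ⟨S, l0, hS1, hS2, hS3⟩ := exists_catch hK' hφ'
  let res : C(K × Z, ℝ) → C((range φ ∩ D : Set K) × Z, ℝ) := fun F =>
    F.comp ⟨fun p => ((p.1 : K), p.2), by fun_prop⟩
  have hres : ∀ (F : C(K × Z, ℝ)) (x : (range φ ∩ D : Set K)), ev x (res F) = ev (x : K) F :=
    fun F x => by ext z; rfl
  refine ⟨{p : (range φ ∩ D : Set K) × (φ ⁻¹' D) × (φ ⁻¹' D) // p.2.1 ⋖ p.2.2 ∧
      p.1 ∈ S p.2.1 p.2.2}, fun p => (p.1.1 : K), fun p => (φ' p.1.2.1 : K),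
      fun p => (φ' p.1.2.2 : K), fun p => p.1.1.2, ?_, ?_⟩
  · intro F ε hε
    have := finite_index hφ' hS1 hν (res F) hε
    simp only [hres] at this
    exact this
  · intro F M hM ⟨x, hx, hxM⟩ ⟨x1, hx1, x2, hx2, hne12⟩
    have hPP : PP (K := (range φ ∩ D : Set K)) ν (res F) = M := by
      refine le_antisymm (ciSup_le fun z => ?_) ?_
      · rw [hres]; exact hM z z.2
      · rw [← hxM, ← hres F ⟨x, hx⟩]
        exact le_PP hν _ _
    obtain ⟨lx, hlx⟩ := hs' ⟨x, hx⟩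
    obtain ⟨l1, hl1⟩ := hs' ⟨x1, hx1⟩
    obtain ⟨l2, hl2⟩ := hs' ⟨x2, hx2⟩
    obtain ⟨s, t, g1, g2, y, hy, hy2⟩ := catch_one hK' hφ' hS2 hS3 hν (res F)
      ⟨lx, by rw [hlx, hres, hPP]; exact hxM⟩ ⟨l1, l2, by rw [hl1, hl2, hres, hres]; exact hne12⟩
    refine ⟨⟨(y, s, t), g1, hy⟩, ?_, ?_⟩
    · rw [hres, hPP] at hy2
      exact hy2
    · rw [hres, hres] at g2
      exact g2

end Pool.Agent.helper26.CK
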