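import Pool.Agent.helper26.CK.Layer
import Pool.Agent.helper26.CK.SubOrd
import Pool.Agent.helper26.CK.GSysP
import Pool.Agent.helper26.CK.Point

/-!
# CK-LayerSys: the Talagrand system of a layered scattered space
-/

set_option autoImplicit false

open Set Topology Filter

namespace Pool.Agent.helper26.CK

/-- `K` is covered by countably many families of continuous images of compact linearly ordered
spaces; the `n`-th family is locally finite at the points outside of a closed set `B n`, and every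
point of `K` belongs, for some `n`, to a member of the `n`-th family but not to `B n`. -/
def Layered (K : Type) [TopologicalSpace K] : Prop :=
  ∃ (B : ℕ → Set K) (J : ℕ → Type) (L : ∀ n, J n → Type) (_ : ∀ n j, LinearOrder (L n j))
    (_ : ∀ n j, TopologicalSpace (L n j)) (φ : ∀ n j, L n j → K),
    (∀ n, IsClosed (B n)) ∧ (∀ n j, OrderTopology (L n j)) ∧ (∀ n j, CompactSpace (L n j)) ∧
    (∀ n j, Continuous (φ n j)) ∧
    (∀ n, ∀ x ∉ B n, ∃ U ∈ 𝓝 x, {j | ∃ l, φ n j l ∈ U}.Finite) ∧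
    ∀ x, ∃ n, x ∉ B n ∧ ∃ j l, φ n j l = x

variable {K Z : Type} [TopologicalSpace K] [CompactSpace K] [T2Space K] [TopologicalSpace Z]
  [CompactSpace Z]

/-- the Talagrand system -/
theorem exists_GSys [Nonempty K] (hK : Scattered K) (hL : Layered K) {ν : C(Z, ℝ) → ℝ}
    (hν : EqNorm C(Z, ℝ) ν) : ∃ (I : Type) (P : C(K × Z, ℝ) → ℝ), EqNorm C(K × Z, ℝ) P ∧
      Nonempty (GSys C(K × Z, ℝ) C(Z, ℝ) I ν P) := by
  classical
  obtain ⟨B, J, L, iO, iT, φ, hB, iOT, iC, hφ, hlf, hcov⟩ := hL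
  let Λ : Lay K :=
    { B := B
      J := J
      C := fun n j => range (φ n j)
      hB := hB
      hC := fun n j => by
        have := iC n j
        exact (isCompact_range (hφ n j)).isClosed
      lf := by
        intro n x hx
        obtain ⟨U, hU, h⟩ := hlf n x hx
        refine ⟨U, hU, h.subset ?_⟩
        rintro j ⟨_, ⟨l, rfl⟩, hl⟩
        exact ⟨l, hl⟩
      cov := by
        intro x
        obtain ⟨n, hn, j, l, h⟩ := hcov x
        exact ⟨n, hn, j, l, h⟩ }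
  have hP := Λ.eqNorm_P hν
  -- the systems of the pieces
  have hsys : ∀ (q : Cl) (j : Λ.J q.n), ∃ (I : Type) (y a b : I → K), (Λ.pc q j).Nonempty →
      (∀ i, y i ∈ Λ.pc q j) ∧
      (∀ (F : C(K × Z, ℝ)) (ε : ℝ), 0 < ε → {i | ε ≤ ν (ev (b i) F - ev (a i) F)}.Finite) ∧
      ∀ (F : C(K × Z, ℝ)) (M : ℝ), (∀ x ∈ Λ.pc q j, ν (ev x F) ≤ M) →
        (∃ x ∈ Λ.pc q j, ν (ev x F) = M) →
        (∃ x ∈ Λ.pc q j, ∃ x' ∈ Λ.pc q j, ev x F ≠ ev x' F) →
        ∃ i, ν (ev (y i) F) = M ∧ ev (b i) F - ev (a i) F ≠ 0 := by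
    intro q j
    by_cases hne : (Λ.pc q j).Nonempty
    · have := iOT q.n j
      have := iC q.n j
      obtain ⟨I, y, a, b, h1, h2, h3⟩ := exists_piece hK (hφ q.n j) (Λ.isClosed_D q) hne hν
      exact ⟨I, y, a, b, fun _ => ⟨h1, h2, h3⟩⟩
    · exact ⟨Empty, Empty.elim, Empty.elim, Empty.elim, fun h => absurd h hne⟩
  choose I0 y0 a0 b0 hsys using hsys
  -- the distinguished points
  have hpt : ∀ (q : Cl) (j : {j : Λ.J q.n // (Λ.pc q j).Nonempty}), ∃ p, p ∈ Λ.pc q j.1 :=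
    fun q j => j.2
  choose p0 hp0 using hpt
  let I := Σ (q : Cl) (j : {j : Λ.J q.n // (Λ.pc q j).Nonempty}), Option (I0 q j.1)
  let e : I → C(K × Z, ℝ) →L[ℝ] C(Z, ℝ) := fun i =>
    match i with
    | ⟨q, j, none⟩ => cc q • ev (p0 q j)
    | ⟨q, j, some i⟩ => cc q • ev (y0 q j.1 i)
  let t : I → C(K × Z, ℝ) →L[ℝ] C(Z, ℝ) := fun i =>
    match i with
    | ⟨q, j, none⟩ => cc q • ev (p0 q j)
    | ⟨q, j, some i⟩ => ev (b0 q j.1 i) - ev (a0 q j.1 i)
  let τ : ℕ → ℝ := fun c =>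
    match (Encodable.decode c : Option Cl) with
    | none => 1
    | some q => w q.n / 4
  have hτ : ∀ q : Cl, τ (Encodable.encode q) = w q.n / 4 := by
    intro q
    simp only [τ, Encodable.encodek]
  have hcc : ∀ (q : Cl) (F : C(K × Z, ℝ)) (x : K), ν ((cc q • ev x) F) = cc q * ν (ev x F) := by
    intro q F x
    have : (cc q • ev x) F = cc q • (ev x F) := rfl
    rw [this, hν.smul_nonneg (zero_le_one.trans (one_le_cc q))]
  have he : ∀ (i : I) (F : C(K × Z, ℝ)), ν (e i F) ≤ Λ.P ν F := by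
    rintro ⟨q, j, _ | i⟩ F
    · change ν ((cc q • ev (p0 q j)) F) ≤ _
      rw [hcc]
      exact Λ.le_P hν F q j.1 (hp0 q j)
    · change ν ((cc q • ev (y0 q j.1 i)) F) ≤ _
      rw [hcc]
      exact Λ.le_P hν F q j.1 ((hsys q j.1 j.2).1 i)
  refine ⟨I, Λ.P ν, hP, ⟨⟨fun i => Encodable.encode i.1, τ, ?_, ?_, e, t, he, ?_, ?_, ?_⟩⟩⟩
  · intro c
    simp only [τ]
    split
    · exact one_pos
    · rename_i q _
      have := w_pos q.n
      positivity
  · intro c
    simp only [τ]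
    split
    · exact le_rfl
    · rename_i q _
      have := w_le q.n
      linarith
  · rintro ⟨q, j, _ | i⟩ F
    · have h1 := he ⟨q, j, none⟩ F
      have h2 := hP.nonneg F
      change ν (e ⟨q, j, none⟩ F) ≤ _
      linarith
    · change ν (ev (b0 q j.1 i) F - ev (a0 q j.1 i) F) ≤ _
      have h1 := Λ.nu_le_P hν F (b0 q j.1 i)
      have h2 := Λ.nu_le_P hν F (a0 q j.1 i)
      have h3 := hν.add_le (ev (b0 q j.1 i) F) (-ev (a0 q j.1 i) F)
      rw [hν.map_neg, ← sub_eq_add_neg] at h3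
      linarith
  · intro c F ε hε
    by_cases hF : F = 0
    · refine finite_empty.subset ?_
      rintro i ⟨-, -, h⟩
      rw [hF, map_zero, hν.map_zero] at h
      exact absurd h (not_le.2 hε)
    have hPF := hP.pos hF
    by_cases hc : ∃ q : Cl, Encodable.encode q = c
    swap
    · refine finite_empty.subset ?_
      rintro i ⟨h, -, -⟩
      exact hc ⟨i.1, h⟩
    obtain ⟨q, rfl⟩ := hc
    rw [hτ]
    have hfin1 := (Λ.fin_class hν F hPF q).preimage
      (f := (Subtype.val : {j : Λ.J q.n // (Λ.pc q j).Nonempty} → Λ.J q.n))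
      Subtype.val_injective.injOn
    have hfin2 : ∀ j : {j : Λ.J q.n // (Λ.pc q j).Nonempty},
        ({none} ∪ some '' {i | ε ≤ ν (ev (b0 q j.1 i) F - ev (a0 q j.1 i) F)} :
          Set (Option (I0 q j.1))).Finite := fun j =>
      (finite_singleton _).union (((hsys q j.1 j.2).2.1 F ε hε).image _)
    have hfin3 := hfin1.biUnion (t := fun j => (fun o : Option (I0 q j.1) => (⟨q, j, o⟩ : I)) ''
      ({none} ∪ some '' {i | ε ≤ ν (ev (b0 q j.1 i) F - ev (a0 q j.1 i) F)}))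
      fun j _ => (hfin2 j).image _
    refine hfin3.subset ?_
    rintro ⟨q', j, o⟩ ⟨h1, h2, h3⟩
    have hq : q' = q := Encodable.encode_injective h1
    subst hq
    refine mem_iUnion₂.2 ⟨j, ?_, o, ?_, rfl⟩
    · rcases o with _ | i
      · refine ⟨p0 q' j, hp0 q' j, ?_⟩
        rw [← hcc]
        exact h2
      · refine ⟨y0 q' j.1 i, (hsys q' j.1 j.2).1 i, ?_⟩
        rw [← hcc]
        exact h2
    · rcases o with _ | i
      · exact Or.inl rfl
      · exact Or.inr ⟨i, h3, rfl⟩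
  · intro F hF
    have hPF := hP.pos hF
    obtain ⟨q, j, y, hy, hyP⟩ := Λ.attained hν F hPF
    have hc0 : 0 < cc q := zero_lt_one.trans_le (one_le_cc q)
    have hM : ∀ x ∈ Λ.pc q j, ν (ev x F) ≤ ν (ev y F) := by
      intro x hx
      have h1 := Λ.le_P hν F q j hx
      rw [← hyP] at h1
      exact le_of_mul_le_mul_left h1 hc0
    by_cases hcon : ∃ x ∈ Λ.pc q j, ∃ x' ∈ Λ.pc q j, ev x F ≠ ev x' F
    · obtain ⟨i, hi1, hi2⟩ := (hsys q j ⟨y, hy⟩).2.2 F _ hM ⟨y, hy, rfl⟩ hcon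
      refine ⟨⟨q, ⟨j, ⟨y, hy⟩⟩, some i⟩, ?_, hi2⟩
      change ν ((cc q • ev (y0 q j i)) F) = _
      rw [hcc, hi1, hyP]
    · push Not at hcon
      have h1 := hcon _ (hp0 q ⟨j, ⟨y, hy⟩⟩) y hy
      have h2 : ν ((cc q • ev (p0 q ⟨j, ⟨y, hy⟩⟩)) F) = Λ.P ν F := by
        rw [hcc, h1, hyP]
      refine ⟨⟨q, ⟨j, ⟨y, hy⟩⟩, none⟩, h2, fun h0 => ?_⟩
      have h0 : (cc q • ev (p0 q ⟨j, ⟨y, hy⟩⟩)) F = 0 := h0
      rw [h0, hν.map_zero] at h2
      exact hPF.ne h2

theorem Layered.hasC1_prod [Nonempty K] (hL : Layered K) (hK : Scattered K)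
    (h : HasC1 C(Z, ℝ)) : HasC1 C(K × Z, ℝ) := by
  obtain ⟨ν, hν, hν1⟩ := h
  obtain ⟨I, P, hP, ⟨T⟩⟩ := exists_GSys (Z := Z) hK hL hν
  exact T.hasC1 hν hν1 hP

theorem Layered.hasPoly_prod [Nonempty K] (hL : Layered K) (hK : Scattered K)
    (h : HasPoly C(Z, ℝ)) : HasPoly C(K × Z, ℝ) := by
  obtain ⟨ν, hν, hν1⟩ := h
  obtain ⟨I, P, hP, ⟨T⟩⟩ := exists_GSys (Z := Z) hK hL hν
  exact T.hasPoly hν hν1 hP

theorem Layered.hasC1_iff [Nonempty K] (hL : Layered K) : HasC1 C(K, ℝ) ↔ Scattered K := by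
  constructor
  · intro h
    by_contra hK
    exact not_hasC1 hK h
  · intro hK
    exact (hL.hasC1_prod hK hasC1_unit).comp (fstIso K Unit)

theorem Layered.hasPoly_iff [Nonempty K] (hL : Layered K) : HasPoly C(K, ℝ) ↔ Scattered K := by
  constructor
  · intro h
    by_contra hK
    exact not_hasPoly hK h
  · intro hK
    exact (hL.hasPoly_prod hK hasPoly_unit).comp (fstIso K Unit)

theorem Layered.hasC1_prod_iff [Nonempty K] [Nonempty Z] (hL : Layered K) :
    HasC1 C(K × Z, ℝ) ↔ Scattered K ∧ HasC1 C(Z, ℝ) := by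
  constructor
  · intro h
    refine ⟨?_, h.comp (sndIso K Z)⟩
    by_contra hK
    exact not_hasC1 hK (h.comp (fstIso K Z))
  · rintro ⟨hK, h⟩
    exact hL.hasC1_prod hK h

theorem Layered.hasPoly_prod_iff [Nonempty K] [Nonempty Z] (hL : Layered K) :
    HasPoly C(K × Z, ℝ) ↔ Scattered K ∧ HasPoly C(Z, ℝ) := by
  constructor
  · intro h
    refine ⟨?_, h.comp (sndIso K Z)⟩
    by_contra hK
    exact not_hasPoly hK (h.comp (fstIso K Z))
  · rintro ⟨hK, h⟩
    exact hL.hasPoly_prod hK h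

end Pool.Agent.helper26.CK
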