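import Pool.Agent.helper26.CK.BumpDef

/-!
# CK-RoughC: bumps exist, and they give rough functions

PROOF of `exists_bumps`: `q = sup {|f x| : x ∈ A}` (`f` is bounded); take `x ∈ A` with `|f x| > q - η / 2`,
`σ` the sign of `f x`, `U = {w | |f w - f x| < η / 2}`; `U ∩ A` is infinite (no isolated points, `W` is `T1`),
so it has `m` different points `t j`; they have pairwise disjoint open neighbourhoods (`T2`, finite:
`Set.Finite.t2_separation` or `Function.Injective.exists_pairwise_disjoint...`); Urysohn functions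
(`exists_continuous_zero_one_of_isClosed`), equal to `1` at `t j` and vanishing outside of the
neighbourhood of `t j`.

PROOF of `rough_of_bumps`: `q f = sSup ((fun x => |ι f x|) '' A)` is `1`-Lipschitz and `q f ≤ ‖f‖`; `q > 0`
somewhere: `Bumps` for `f = 0`, `m = 1`.  For `f : E`, `δ, r > 0` and `J` take `m > card J`, bumps
`e 0, …, e (2m-1)` (or an index type `Fin m × Bool`) for `η = δ * r`, and `b j = e (2j) - e (2j+1)`, lifted to
`E`.  There is `c : Fin m → ℝ`, `c ≠ 0`, with `g (∑ c j • b j) = 0` for all `g ∈ J` (`m > card J`: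
`LinearMap.exists_ne_zero_of_finrank_lt`-like, kernel of a map `(Fin m → ℝ) → (J → ℝ)`,
`LinearMap.ker_ne_bot_of_finrank_lt`); scale so that `max |c j| = r`.  `h = ∑ c j • b j` has norm `r`
(disjoint supports, `ι` isometric) and takes both values `r` and `-r` at some points `t k`; at the point
where `σ * h (t k) = r`: `|f (t k) + h (t k)| ≥ σ * f (t k) + r ≥ |f x| - η + r` for all `x ∈ A`, so
`q (f + h) ≥ q f - η + r = q f + (1 - δ) * r`.
-/

set_option autoImplicit false

open Set Topology Filter

namespace Pool.Agent.helper26.CK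

variable {W : Type} [TopologicalSpace W] [CompactSpace W]

theorem exists_bumps [T2Space W] {A : Set W} (hA : A.Nonempty)
    (hA2 : ∀ x ∈ A, ∀ U : Set W, IsOpen U → x ∈ U → ∃ y ∈ U ∩ A, y ≠ x)
    (f : C(W, ℝ)) {η : ℝ} (hη : 0 < η) (m : ℕ) : Bumps A univ f η m := by
  classical
  have hbdd : BddAbove ((fun x => |f x|) '' A) :=
    ⟨‖f‖, by rintro _ ⟨x, _, rfl⟩; exact f.norm_coe_le_norm x⟩
  have hne : ((fun x => |f x|) '' A).Nonempty := hA.image _
  obtain ⟨_, ⟨x0, hx0, rfl⟩, hx0'⟩ := exists_lt_of_lt_csSup hne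
    (show sSup ((fun x => |f x|) '' A) - η / 2 < sSup ((fun x => |f x|) '' A) by linarith)
  obtain ⟨σ, hσ, hσf⟩ : ∃ σ : ℝ, (σ = 1 ∨ σ = -1) ∧ σ * f x0 = |f x0| := by
    rcases le_total 0 (f x0) with h | h
    · exact ⟨1, Or.inl rfl, by rw [abs_of_nonneg h, one_mul]⟩
    · exact ⟨-1, Or.inr rfl, by rw [abs_of_nonpos h]; ring⟩
  have hσabs : |σ| = 1 := by rcases hσ with rfl | rfl <;> simp
  set U : Set W := {w | |f w - f x0| < η / 2} with hUdef
  have hU : IsOpen U := by
    have : Continuous fun w => |f w - f x0| := by fun_prop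
    exact isOpen_lt this continuous_const
  have hx0U : x0 ∈ U := by simp only [hUdef, mem_setOf_eq, sub_self, abs_zero]; linarith
  have hinf : (U ∩ A).Infinite := by
    intro hfin
    have hc : IsClosed ((U ∩ A) \ {x0}) := (hfin.subset diff_subset).isClosed
    obtain ⟨y, ⟨⟨hyU, hy2⟩, hyA⟩, hyne⟩ := hA2 x0 hx0 (U \ ((U ∩ A) \ {x0})) (hU.sdiff hc)
      ⟨hx0U, fun h => h.2 rfl⟩
    exact hy2 ⟨⟨hyU, hyA⟩, hyne⟩
  obtain ⟨t, ht, htU⟩ : ∃ t : Fin m → W, Function.Injective t ∧ ∀ j, t j ∈ U ∩ A := by
    refine ⟨fun j => (hinf.natEmbedding _ (j : ℕ) : W), ?_, fun j => (hinf.natEmbedding _ (j : ℕ)).2⟩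
    intro i j hij
    exact Fin.ext ((hinf.natEmbedding _).injective (Subtype.ext hij))
  obtain ⟨V, hV, hVd⟩ := (Set.finite_range t).t2_separation
  have hury : ∀ j : Fin m, ∃ e : C(W, ℝ), EqOn e 0 (V (t j))ᶜ ∧ EqOn e 1 {t j} ∧
      ∀ x, e x ∈ Icc (0 : ℝ) 1 := by
    intro j
    refine exists_continuous_zero_one_of_isClosed (hV (t j)).2.isClosed_compl isClosed_singleton ?_
    rw [Set.disjoint_singleton_right]
    exact fun h => h (hV (t j)).1
  choose e he0 he1 he2 using hury
  refine ⟨e, t, σ, hσ, fun _ => mem_univ _, fun j => (htU j).2, fun j w => ⟨(he2 j w).1, (he2 j w).2⟩,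
    fun j => he1 j rfl, ?_, ?_⟩
  · intro j k hjk w
    have hd : Disjoint (V (t j)) (V (t k)) :=
      hVd (mem_range_self j) (mem_range_self k) (fun h => hjk (ht h))
    by_cases hw : w ∈ V (t j)
    · have hw2 : w ∈ (V (t k))ᶜ := fun h => Set.disjoint_left.mp hd hw h
      rw [show e k w = 0 from he0 k hw2, mul_zero]
    · rw [show e j w = 0 from he0 j hw, zero_mul]
  · intro j x hx
    have h1 : |f x| ≤ sSup ((fun x => |f x|) '' A) := le_csSup hbdd ⟨x, hx, rfl⟩
    have h2 : |f (t j) - f x0| < η / 2 := (htU j).1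
    have h3 : |σ * (f (t j) - f x0)| < η / 2 := by rw [abs_mul, hσabs, one_mul]; exact h2
    have h4 := (abs_lt.mp h3).1
    have h5 : σ * (f (t j) - f x0) = σ * f (t j) - σ * f x0 := by ring
    rw [h5, hσf] at h4
    have h6 : sSup ((fun x => |f x|) '' A) - η / 2 < |f x0| := hx0'
    linarith

theorem rough_of_bumps {A : Set W} (hA : A.Nonempty) {E : Type*} [NormedAddCommGroup E]
    [NormedSpace ℝ E] (ι : E →ₗᵢ[ℝ] C(W, ℝ))
    (hb : ∀ (f : E) (η : ℝ) (m : ℕ), 0 < η → Bumps A (range ι) (ι f) η m) :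
    Rough E (fun f => sSup ((fun x => |ι f x|) '' A)) := by
  classical
  have hpt : ∀ (f : E) (x : W), |ι f x| ≤ ‖f‖ := fun f x => by
    rw [← ι.norm_map f]
    exact (ι f).norm_coe_le_norm x
  have hbdd : ∀ f : E, BddAbove ((fun x => |ι f x|) '' A) := fun f =>
    ⟨‖f‖, by rintro _ ⟨x, _, rfl⟩; exact hpt f x⟩
  have hne : ∀ f : E, ((fun x => |ι f x|) '' A).Nonempty := fun f => hA.image _
  have hle : ∀ (f : E) (x : W), x ∈ A → |ι f x| ≤ sSup ((fun x => |ι f x|) '' A) :=
    fun f x hx => le_csSup (hbdd f) ⟨x, hx, rfl⟩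
  have hsup : ∀ (f : E) (B : ℝ), (∀ x ∈ A, |ι f x| ≤ B) → sSup ((fun x => |ι f x|) '' A) ≤ B := by
    intro f B hB
    refine csSup_le (hne f) ?_
    rintro _ ⟨x, hx, rfl⟩
    exact hB x hx
  refine ⟨?_, ?_, ?_, ?_⟩
  · refine (LipschitzWith.of_le_add (f := fun f : E => sSup ((fun x => |ι f x|) '' A)) ?_).continuous
    intro f g
    refine hsup f _ fun x hx => ?_
    have h1 : |ι f x| ≤ |ι g x| + |ι (f - g) x| := by
      have : ι f x = ι g x + ι (f - g) x := by rw [map_sub]; simp
      rw [this]; exact abs_add_le _ _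
    have h2 := hle g x hx
    have h3 := hpt (f - g) x
    rw [dist_eq_norm]
    linarith
  · exact fun f => hsup f _ fun x _ => hpt f x
  · obtain ⟨e, t, σ, -, he, htA, -, he1, -, -⟩ := hb 0 1 1 one_pos
    obtain ⟨g, hg⟩ := he 0
    refine ⟨g, ?_⟩
    have h1 := hle g (t 0) (htA 0)
    rw [hg, he1 0, abs_one] at h1
    show 0 < sSup ((fun x => |ι g x|) '' A)
    rw [hg]
    linarith
  · intro f δ r J hδ hr
    set m : ℕ := J.card + 1 with hm
    obtain ⟨e, t, σ, hσ, he, htA, he01, he1, hdisj, hmax⟩ := hb f (δ * r) (m + m) (mul_pos hδ hr)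
    choose e' he' using he
    -- a nonzero vector in the kernel
    let b : Fin m → E := fun j => e' (Fin.castAdd m j) - e' (Fin.natAdd m j)
    let L : (Fin m → ℝ) →ₗ[ℝ] ({x // x ∈ J} → ℝ) :=
      { toFun := fun c g => g.1 (∑ j, c j • b j)
        map_add' := by
          intro c d
          funext g
          simp [add_smul, Finset.sum_add_distrib]
        map_smul' := by
          intro a c
          funext g
          simp [Finset.mul_sum, mul_assoc] }
    obtain ⟨c0, hc0, hLc0⟩ : ∃ c0 : Fin m → ℝ, c0 ≠ 0 ∧ L c0 = 0 := by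
      have hlt : Module.finrank ℝ ({x // x ∈ J} → ℝ) < Module.finrank ℝ (Fin m → ℝ) := by
        rw [Module.finrank_fintype_fun_eq_card, Module.finrank_fintype_fun_eq_card, Fintype.card_fin]
        simp [hm]
      have hk := LinearMap.ker_ne_bot_of_finrank_lt (f := L) hlt
      obtain ⟨c0, hc0, hne0⟩ := Submodule.exists_mem_ne_zero_of_ne_bot hk
      exact ⟨c0, hne0, hc0⟩
    haveI : Nonempty (Fin m) := ⟨⟨0, by omega⟩⟩
    obtain ⟨k, hk⟩ := Finite.exists_max (fun j => |c0 j|)
    have hMpos : 0 < |c0 k| := by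
      obtain ⟨j, hj⟩ := Function.ne_iff.mp hc0
      exact lt_of_lt_of_le (abs_pos.mpr hj) (hk j)
    set c : Fin m → ℝ := (r / |c0 k|) • c0 with hc
    have hLc : L c = 0 := by rw [hc, map_smul, hLc0, smul_zero]
    have hck : |c k| = r := by
      simp only [hc, Pi.smul_apply, smul_eq_mul, abs_mul, abs_div, abs_abs]
      rw [abs_of_pos hr]
      field_simp
    have hcj : ∀ j, |c j| ≤ r := by
      intro j
      simp only [hc, Pi.smul_apply, smul_eq_mul, abs_mul, abs_div, abs_abs]
      rw [abs_of_pos hr, div_mul_eq_mul_div, div_le_iff₀ hMpos]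
      exact mul_le_mul_of_nonneg_left (hk j) hr.le
    set h : E := ∑ j, c j • b j with hh
    have hιh : ∀ w, ι h w = ∑ j, c j * (e (Fin.castAdd m j) w - e (Fin.natAdd m j) w) := by
      intro w
      rw [hh, map_sum]
      simp only [b, map_smul, map_sub, he', ContinuousMap.coe_sum, Finset.sum_apply,
        ContinuousMap.coe_smul, Pi.smul_apply, ContinuousMap.coe_sub, Pi.sub_apply, smul_eq_mul]
    -- the sum of all bumps is at most one
    have hS1 : ∀ w, ∑ i, e i w ≤ 1 := by
      intro w
      by_cases hw : ∃ i, e i w ≠ 0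
      · obtain ⟨i, hi⟩ := hw
        rw [Finset.sum_eq_single i]
        · exact (he01 i w).2
        · intro j _ hji
          have := hdisj j i hji w
          exact (mul_eq_zero.mp this).resolve_right hi
        · intro h; exact absurd (Finset.mem_univ i) h
      · push Not at hw
        rw [Finset.sum_eq_zero (fun i _ => hw i)]
        exact zero_le_one
    have hval : ∀ w, |ι h w| ≤ r := by
      intro w
      rw [hιh w]
      calc |∑ j, c j * (e (Fin.castAdd m j) w - e (Fin.natAdd m j) w)|
          ≤ ∑ j, |c j * (e (Fin.castAdd m j) w - e (Fin.natAdd m j) w)| :=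
            Finset.abs_sum_le_sum_abs _ _
        _ ≤ ∑ j, r * (e (Fin.castAdd m j) w + e (Fin.natAdd m j) w) := by
            refine Finset.sum_le_sum fun j _ => ?_
            rw [abs_mul]
            refine mul_le_mul (hcj j) ?_ (abs_nonneg _) hr.le
            have h1 := (he01 (Fin.castAdd m j) w).1
            have h2 := (he01 (Fin.natAdd m j) w).1
            rw [abs_le]
            constructor <;> linarith
        _ = r * ∑ i, e i w := by
            rw [← Finset.mul_sum, Finset.sum_add_distrib, ← Fin.sum_univ_add (fun i => e i w)]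
        _ ≤ r * 1 := mul_le_mul_of_nonneg_left (hS1 w) hr.le
        _ = r := mul_one r
    have hzero : ∀ i j : Fin (m + m), i ≠ j → e i (t j) = 0 := by
      intro i j hij
      have := hdisj i j hij (t j)
      rw [he1 j, mul_one] at this
      exact this
    have hplus : ι h (t (Fin.castAdd m k)) = c k := by
      rw [hιh, Finset.sum_eq_single k]
      · rw [he1, hzero (Fin.natAdd m k) (Fin.castAdd m k)]
        · ring
        · intro h; have := congrArg Fin.val h; simp only [Fin.val_castAdd, Fin.val_natAdd] at this; omega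
      · intro j _ hj
        rw [hzero (Fin.castAdd m j) (Fin.castAdd m k), hzero (Fin.natAdd m j) (Fin.castAdd m k)]
        · ring
        · intro h; have := congrArg Fin.val h; simp only [Fin.val_castAdd, Fin.val_natAdd] at this; omega
        · intro h; exact hj (Fin.castAdd_injective _ _ h)
      · intro h; exact absurd (Finset.mem_univ k) h
    have hminus : ι h (t (Fin.natAdd m k)) = - c k := by
      rw [hιh, Finset.sum_eq_single k]
      · rw [he1, hzero (Fin.castAdd m k) (Fin.natAdd m k)]
        · ring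
        · intro h; have := congrArg Fin.val h; simp only [Fin.val_castAdd, Fin.val_natAdd] at this; omega
      · intro j _ hj
        rw [hzero (Fin.castAdd m j) (Fin.natAdd m k), hzero (Fin.natAdd m j) (Fin.natAdd m k)]
        · ring
        · intro h; exact hj (Fin.natAdd_injective _ _ h)
        · intro h; have := congrArg Fin.val h; simp only [Fin.val_castAdd, Fin.val_natAdd] at this; omega
      · intro h; exact absurd (Finset.mem_univ k) h
    -- the point
    obtain ⟨i, hi⟩ : ∃ i, σ * ι h (t i) = r := by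
      rcases abs_choice (c k) with h1 | h1 <;> rcases hσ with rfl | rfl
      · exact ⟨Fin.castAdd m k, by rw [hplus, one_mul, ← h1, hck]⟩
      · exact ⟨Fin.natAdd m k, by rw [hminus]; rw [hck] at h1; linarith⟩
      · exact ⟨Fin.natAdd m k, by rw [hminus]; rw [hck] at h1; linarith⟩
      · exact ⟨Fin.castAdd m k, by rw [hplus]; rw [hck] at h1; linarith⟩
    refine ⟨h, ?_, ?_, ?_⟩
    · refine le_antisymm ?_ ?_
      · rw [← ι.norm_map h]
        exact (ContinuousMap.norm_le _ hr.le).mpr hval
      · have h1 := hpt h (t (Fin.castAdd m k))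
        rw [hplus, hck] at h1
        exact h1
    · intro g hg
      have := congrFun hLc ⟨g, hg⟩
      exact this
    · have h1 : σ * ι (f + h) (t i) ≤ |ι (f + h) (t i)| := by
        have h2 : |σ * ι (f + h) (t i)| = |ι (f + h) (t i)| := by
          rw [abs_mul]
          rcases hσ with rfl | rfl <;> simp
        rw [← h2]
        exact le_abs_self _
      have h3 : |ι (f + h) (t i)| ≤ sSup ((fun x => |ι (f + h) x|) '' A) := hle (f + h) (t i) (htA i)
      have h4 : σ * ι (f + h) (t i) = σ * ι f (t i) + r := by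
        rw [map_add, ContinuousMap.add_apply, mul_add, hi]
      have h5 : sSup ((fun x => |ι f x|) '' A) ≤ sSup ((fun x => |ι (f + h) x|) '' A) - r + δ * r := by
        refine hsup f _ fun x hx => ?_
        have h6 := hmax i x hx
        linarith
      show sSup ((fun x => |ι f x|) '' A) + (1 - δ) * r ≤ sSup ((fun x => |ι (f + h) x|) '' A)
      linarith

end Pool.Agent.helper26.CK
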