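import Pool.Agent.helper26.CK.Gauge

/-!
# CK-TSys: abstract Talagrand systems give C¹ norms
-/

set_option autoImplicit false

open Set Topology Filter

namespace Pool.Agent.helper26.CK

/-- an abstract Talagrand system -/
structure TSys (Y X : Type*) [NormedAddCommGroup Y] [NormedSpace ℝ Y] [NormedAddCommGroup X]
    [NormedSpace ℝ X] (I : Type*) (ν : X → ℝ) (P : Y → ℝ) where
  /-- evaluations -/
  e : I → Y →L[ℝ] X
  /-- jumps -/
  t : I → Y →L[ℝ] X
  he : ∀ i y, ν (e i y) ≤ P y
  ht : ∀ i y, ν (t i y) ≤ 2 * P y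
  fin : ∀ (y : Y) (ε : ℝ), 0 < ε → {i | ε ≤ ν (t i y)}.Finite
  catch_ : ∀ y, y ≠ 0 → ∃ i, ν (e i y) = P y ∧ t i y ≠ 0

theorem sp_nonneg (s : ℝ) : 0 ≤ sp s := sq_nonneg _

theorem sp_zero_of {s : ℝ} (hs : s ≤ 0) : sp s = 0 := by
  rw [sp, max_eq_right hs]; simp

theorem sp_of_nonneg {s : ℝ} (hs : 0 ≤ s) : sp s = s ^ 2 := by
  rw [sp, max_eq_left hs]

variable {Y X : Type*} [NormedAddCommGroup Y] [NormedSpace ℝ Y] [NormedAddCommGroup X]
    [NormedSpace ℝ X] {I : Type*} {ν : X → ℝ} {P : Y → ℝ}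

/-- the weights -/
noncomputable def dl (n : ℕ) : ℝ := (1 / 2) ^ n

/-- the weights -/
noncomputable def kp (n : ℕ) : ℝ := (1 / 2) ^ (n + 3)

theorem dl_pos (n : ℕ) : 0 < dl n := by unfold dl; positivity
theorem kp_pos (n : ℕ) : 0 < kp n := by unfold kp; positivity
theorem kp_le (n : ℕ) : kp n ≤ 1 / 8 := by
  unfold kp
  calc ((1 : ℝ) / 2) ^ (n + 3) ≤ (1 / 2) ^ 3 :=
        pow_le_pow_of_le_one (by norm_num) (by norm_num) (by omega)
    _ = 1 / 8 := by norm_num

/-- the argument of one term -/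
noncomputable def TSys.arg (T : TSys Y X I ν P) (p : ℕ × I) (y : Y) : ℝ :=
  (ν (T.e p.2 y) + kp p.1 * sp (ν (T.t p.2 y) - dl p.1) - 1) / (kp p.1 * dl p.1 ^ 2)

/-- one term -/
noncomputable def TSys.term (T : TSys Y X I ν P) (p : ℕ × I) (y : Y) : ℝ := sp (T.arg p y)

/-- the function -/
noncomputable def TSys.F (T : TSys Y X I ν P) (y : Y) : ℝ := ∑' p, T.term p y

theorem cd_sp {ν : X → ℝ} (hν : EqNorm X ν) (hν1 : ContDiffOn ℝ 1 ν {f | f ≠ 0}) {δ : ℝ}
    (hδ : 0 < δ) : ContDiff ℝ 1 fun x => sp (ν x - δ) := by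
  rw [contDiff_iff_contDiffAt]
  intro x
  by_cases hx : x = 0
  · have h1 : ∀ᶠ z in 𝓝 x, ν z < δ := by
      have : Tendsto ν (𝓝 x) (𝓝 (ν x)) := hν.continuous.continuousAt
      refine this.eventually_lt_const ?_
      rw [hx, hν.map_zero]; exact hδ
    have h2 : (fun x => sp (ν x - δ)) =ᶠ[𝓝 x] fun _ => 0 := by
      filter_upwards [h1] with z hz
      exact sp_zero_of (by linarith)
    exact contDiffAt_const.congr_of_eventuallyEq h2
  · have h1 : ContDiffAt ℝ 1 ν x :=
      (hν1 x hx).contDiffAt (isOpen_ne.mem_nhds hx)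
    exact contDiff_sp.contDiffAt.comp x (h1.sub contDiffAt_const)

namespace TSys

variable (T : TSys Y X I ν P)

theorem term_nonneg (p : ℕ × I) (y : Y) : 0 ≤ T.term p y := sp_nonneg _

theorem term_zero_of {p : ℕ × I} {y : Y}
    (h : ν (T.e p.2 y) + kp p.1 * sp (ν (T.t p.2 y) - dl p.1) ≤ 1) : T.term p y = 0 := by
  apply sp_zero_of
  apply div_nonpos_of_nonpos_of_nonneg
  · linarith
  · have := kp_pos p.1
    have := dl_pos p.1
    positivity

theorem sp_le (p : ℕ × I) (y : Y) (hy : P y ≤ 1) :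
    sp (ν (T.t p.2 y) - dl p.1) ≤ 4 := by
  have h1 := T.ht p.2 y
  have h2 := dl_pos p.1
  calc sp (ν (T.t p.2 y) - dl p.1) ≤ sp 2 := monotone_sp (by linarith)
    _ = 4 := by rw [sp_of_nonneg (by norm_num)]; norm_num

/-- local finiteness -/
theorem loc_fin (hν : EqNorm X ν) (hP : EqNorm Y P) {y0 : Y} (hy0 : P y0 < 1) :
    ∃ A : Finset (ℕ × I), ∀ᶠ y in 𝓝 y0, ∀ p, p ∉ A → T.term p y = 0 := by
  classical
  set a := (1 - P y0) / 2 with ha
  have ha0 : 0 < a := by rw [ha]; linarith
  obtain ⟨n0, hn0⟩ := exists_pow_lt_of_lt_one ha0 (by norm_num : (1 / 2 : ℝ) < 1)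
  have hn1 : ∀ n, n0 ≤ n → kp n * 4 ≤ a := by
    intro n hn
    unfold kp
    have h1 : ((1 : ℝ) / 2) ^ (n + 3) ≤ (1 / 2) ^ (n0 + 3) :=
      pow_le_pow_of_le_one (by norm_num) (by norm_num) (by omega)
    have h2 : ((1 : ℝ) / 2) ^ (n0 + 3) = (1 / 2) ^ n0 / 8 := by rw [pow_add]; ring
    rw [h2] at h1
    have h3 : (0 : ℝ) < (1 / 2) ^ n0 := by positivity
    linarith
  have hfin := T.fin y0 (dl n0 / 2) (half_pos (dl_pos n0))
  refine ⟨(Finset.range n0) ×ˢ hfin.toFinset, ?_⟩
  have e1 : ∀ᶠ y in 𝓝 y0, P y < 1 - a := by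
    have : Tendsto P (𝓝 y0) (𝓝 (P y0)) := hP.continuous.continuousAt
    exact this.eventually_lt_const (by rw [ha]; linarith)
  have e2 : ∀ᶠ y in 𝓝 y0, P (y - y0) < dl n0 / 4 := by
    have : Tendsto (fun y => P (y - y0)) (𝓝 y0) (𝓝 (P (y0 - y0))) :=
      (hP.continuous.comp (continuous_id.sub continuous_const)).continuousAt
    refine this.eventually_lt_const ?_
    rw [sub_self, hP.map_zero]
    have := dl_pos n0
    linarith
  filter_upwards [e1, e2] with y hy1 hy2
  rintro ⟨n, i⟩ hp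
  apply T.term_zero_of
  simp only
  by_cases hn : n < n0
  · -- the jump is small
    have hi : ν (T.t i y0) < dl n0 / 2 := by
      by_contra hcon
      exact hp (by simp only [Finset.mem_product, Finset.mem_range, Set.Finite.mem_toFinset]
                   exact ⟨hn, not_lt.1 hcon⟩)
    have h1 : ν (T.t i y) ≤ ν (T.t i y0) + ν (T.t i (y - y0)) := by
      have := hν.add_le (T.t i y0) (T.t i (y - y0))
      rw [← map_add, add_sub_cancel] at this
      exact this
    have h2 := T.ht i (y - y0)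
    have h3 : dl n0 ≤ dl n := by
      unfold dl
      exact pow_le_pow_of_le_one (by norm_num) (by norm_num) hn.le
    have h4 : sp (ν (T.t i y) - dl n) = 0 := sp_zero_of (by linarith)
    rw [h4]
    have := T.he i y
    linarith
  · have h1 := T.sp_le (n, i) y (by linarith)
    have h2 := hn1 n (not_lt.1 hn)
    have h3 := T.he i y
    have h4 := kp_pos n
    simp only at h1
    nlinarith

theorem summable (hν : EqNorm X ν) (hP : EqNorm Y P) {y : Y} (hy : P y < 1) :
    Summable fun p => T.term p y := by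
  obtain ⟨A, hA⟩ := T.loc_fin hν hP hy
  have h1 := hA.self_of_nhds
  exact summable_of_ne_finset_zero (s := A) fun p hp => h1 p hp

theorem convexOn_term (hν : EqNorm X ν) (p : ℕ × I) : ConvexOn ℝ univ (T.term p) := by
  have hsp : ∀ g : Y → ℝ, ConvexOn ℝ univ g → ConvexOn ℝ univ fun y => sp (g y) := by
    intro g hg
    refine ⟨convex_univ, fun x hx y hy a b ha hb hab => ?_⟩
    calc sp (g (a • x + b • y)) ≤ sp (a • g x + b • g y) := monotone_sp (hg.2 hx hy ha hb hab)
      _ ≤ a • sp (g x) + b • sp (g y) := convexOn_sp.2 (mem_univ _) (mem_univ _) ha hb hab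
  have h1 : ConvexOn ℝ univ fun y => ν (T.e p.2 y) :=
    hν.convexOn.comp_linearMap (T.e p.2 : Y →ₗ[ℝ] X)
  have h2 : ConvexOn ℝ univ fun y => ν (T.t p.2 y) :=
    hν.convexOn.comp_linearMap (T.t p.2 : Y →ₗ[ℝ] X)
  have h3 : ConvexOn ℝ univ fun y => sp (ν (T.t p.2 y) - dl p.1) :=
    hsp _ (h2.sub (concaveOn_const _ convex_univ))
  have h4 : ConvexOn ℝ univ fun y => ν (T.e p.2 y) + kp p.1 * sp (ν (T.t p.2 y) - dl p.1) - 1 :=
    (h1.add (h3.smul (kp_pos p.1).le)).sub (concaveOn_const _ convex_univ)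
  have h5 : ConvexOn ℝ univ (T.arg p) := by
    have := h4.smul (c := (kp p.1 * dl p.1 ^ 2)⁻¹)
      (by have := kp_pos p.1; have := dl_pos p.1; positivity)
    refine this.congr ?_
    intro y _
    simp only [smul_eq_mul, arg]
    rw [div_eq_inv_mul]
  exact hsp _ h5

theorem contDiffAt_term (hν : EqNorm X ν) (hν1 : ContDiffOn ℝ 1 ν {f | f ≠ 0})
    (hP : EqNorm Y P) (p : ℕ × I) {y : Y} (hy : P y < 1) : ContDiffAt ℝ 1 (T.term p) y := by
  have h0 : ContDiff ℝ 1 fun y => sp (ν (T.t p.2 y) - dl p.1) :=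
    (cd_sp hν hν1 (dl_pos p.1)).comp (T.t p.2).contDiff
  by_cases hx : T.e p.2 y = 0
  · have e1 : ∀ᶠ z in 𝓝 y, ν (T.e p.2 z) < 1 / 2 := by
      have : Tendsto (fun z => ν (T.e p.2 z)) (𝓝 y) (𝓝 (ν (T.e p.2 y))) :=
        (hν.continuous.comp (T.e p.2).continuous).continuousAt
      refine this.eventually_lt_const ?_
      rw [hx, hν.map_zero]; norm_num
    have e2 : ∀ᶠ z in 𝓝 y, P z < 1 := by
      have : Tendsto P (𝓝 y) (𝓝 (P y)) := hP.continuous.continuousAt
      exact this.eventually_lt_const hy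
    have h2 : T.term p =ᶠ[𝓝 y] fun _ => 0 := by
      filter_upwards [e1, e2] with z hz1 hz2
      apply T.term_zero_of
      have h1 := T.sp_le p z hz2.le
      have h2 := kp_le p.1
      have h3 := kp_pos p.1
      nlinarith
    exact contDiffAt_const.congr_of_eventuallyEq h2
  · have h1 : ContDiffAt ℝ 1 (fun y => ν (T.e p.2 y)) y := by
      have : ContDiffAt ℝ 1 ν (T.e p.2 y) :=
        (hν1 _ hx).contDiffAt (isOpen_ne.mem_nhds hx)
      exact this.comp y (T.e p.2).contDiff.contDiffAt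
    have h2 : ContDiffAt ℝ 1 (T.arg p) y := by
      unfold arg
      exact ((h1.add (contDiffAt_const.mul h0.contDiffAt)).sub contDiffAt_const).div_const _
    exact contDiff_sp.contDiffAt.comp y h2

include T in
theorem hasC1 (hν : EqNorm X ν) (hν1 : ContDiffOn ℝ 1 ν {f | f ≠ 0})
    (hP : EqNorm Y P) : HasC1 Y := by
  classical
  have hopen : IsOpen {y | P y < 1} := isOpen_lt hP.continuous continuous_const
  refine hasC1_of_fun P T.F hP ?_ ?_ ?_ ?_ ?_
  · refine ⟨?_, fun x hx y hy a b ha hb hab => ?_⟩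
    · have := hP.convexOn.convex_lt 1
      simpa using this
    · have hxy : P (a • x + b • y) < 1 := by
        have := (hP.convexOn.convex_lt 1)
        have h := this (x := x) ⟨mem_univ _, hx⟩ (y := y) ⟨mem_univ _, hy⟩ ha hb hab
        exact h.2
      have h1 := T.summable hν hP (y := x) hx
      have h2 := T.summable hν hP (y := y) hy
      have h3 := T.summable hν hP hxy
      calc T.F (a • x + b • y) = ∑' p, T.term p (a • x + b • y) := rfl
        _ ≤ ∑' p, (a * T.term p x + b * T.term p y) := by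
            refine h3.tsum_le_tsum (fun p => ?_) ((h1.mul_left a).add (h2.mul_left b))
            exact (T.convexOn_term hν p).2 (mem_univ _) (mem_univ _) ha hb hab
        _ = a * ∑' p, T.term p x + b * ∑' p, T.term p y := by
            rw [(h1.mul_left a).tsum_add (h2.mul_left b), tsum_mul_left, tsum_mul_left]
        _ = a • T.F x + b • T.F y := rfl
  · intro y
    unfold F
    congr 1
    ext p
    unfold term arg
    rw [map_neg, map_neg, hν.map_neg, hν.map_neg]
  · intro y hy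
    unfold F
    have : ∀ p, T.term p y = 0 := by
      intro p
      apply T.term_zero_of
      have h1 := T.he p.2 y
      have h2 := T.ht p.2 y
      have h3 : sp (ν (T.t p.2 y) - dl p.1) ≤ 1 := by
        have h2' := dl_pos p.1
        calc sp (ν (T.t p.2 y) - dl p.1) ≤ sp 1 := monotone_sp (by linarith)
          _ = 1 := by rw [sp_of_nonneg (by norm_num)]; norm_num
      have h4 := kp_le p.1
      have h5 := kp_pos p.1
      nlinarith
    simp [this]
  · intro y hy
    obtain ⟨A, hA⟩ := T.loc_fin hν hP (y0 := y) hy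
    have h1 : T.F =ᶠ[𝓝 y] fun z => ∑ p ∈ A, T.term p z := by
      filter_upwards [hA] with z hz
      exact tsum_eq_sum fun p hp => hz p hp
    have h2 : ContDiffAt ℝ 1 (fun z => ∑ p ∈ A, T.term p z) y :=
      ContDiffAt.sum fun p _ => T.contDiffAt_term hν hν1 hP p hy
    exact (h2.congr_of_eventuallyEq h1).contDiffWithinAt
  · intro y hy
    obtain ⟨i, hi1, hi2⟩ := T.catch_ y hy
    have hPy : 0 < P y := hP.pos hy
    have hb : 0 < ν (T.t i y) / P y := div_pos (hν.pos hi2) hPy
    set b := ν (T.t i y) / P y with hbdef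
    obtain ⟨n, hn⟩ := exists_pow_lt_of_lt_one (by positivity : 0 < b / 3)
      (by norm_num : (1 / 2 : ℝ) < 1)
    have hn' : 3 * dl n < b := by
      have : dl n < b / 3 := hn
      linarith
    have hk := kp_pos n
    have hd := dl_pos n
    let g : ℝ → ℝ := fun l => (l + kp n * sp (l * b - dl n) - 1) / (kp n * dl n ^ 2)
    have hg : Continuous g := by
      have : Continuous sp := contDiff_sp.continuous
      fun_prop
    have hg1 : 1 < g 1 := by
      simp only [g]
      rw [sp_of_nonneg (by linarith), lt_div_iff₀ (by positivity)]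
      have : dl n ^ 2 < (1 * b - dl n) ^ 2 := by
        apply pow_lt_pow_left₀ _ hd.le (by norm_num)
        linarith
      nlinarith
    have hev : ∀ᶠ l in 𝓝[<] (1 : ℝ), 1 < g l := by
      have : Tendsto g (𝓝[<] 1) (𝓝 (g 1)) := hg.continuousWithinAt
      exact this.eventually_const_lt hg1
    have hev2 : ∀ᶠ l in 𝓝[<] (1 : ℝ), l ∈ Ioo (0 : ℝ) 1 :=
      Ioo_mem_nhdsLT (by norm_num)
    obtain ⟨l, hl1, hl2, hl3⟩ := (hev.and hev2).exists
    refine ⟨l / P y, div_pos hl2 hPy, ?_, ?_⟩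
    · rw [hP.smul_nonneg (div_pos hl2 hPy).le, div_mul_cancel₀ _ hPy.ne']
      exact hl3
    · have hPl : P ((l / P y) • y) < 1 := by
        rw [hP.smul_nonneg (div_pos hl2 hPy).le, div_mul_cancel₀ _ hPy.ne']
        exact hl3
      have harg : T.arg (n, i) ((l / P y) • y) = g l := by
        simp only [arg, g]
        rw [map_smul, map_smul, hν.smul_nonneg (div_pos hl2 hPy).le,
          hν.smul_nonneg (div_pos hl2 hPy).le, hi1, div_mul_cancel₀ _ hPy.ne']
        have : l / P y * ν (T.t i y) = l * b := by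
          rw [hbdef]; ring
        rw [this]
      have hterm : 1 < T.term (n, i) ((l / P y) • y) := by
        unfold term
        rw [harg, sp_of_nonneg (by linarith)]
        nlinarith
      have hle : T.term (n, i) ((l / P y) • y) ≤ T.F ((l / P y) • y) :=
        (T.summable hν hP hPl).le_tsum (n, i) fun p _ => T.term_nonneg p _
      linarith

end TSys

end Pool.Agent.helper26.CK
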