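import Pool.Agent.helper26.CK.Defs

/-!
# CK-Wt: the weights of the layers
-/

set_option autoImplicit false

open Set Topology Filter

namespace Pool.Agent.helper26.CK

/-- the weight of the layer `m` -/
noncomputable def w (m : ℕ) : ℝ := (1 / 100) ^ (m + 1)

/-- the total weight -/
noncomputable def psi (G : Finset ℕ) : ℝ := 1 + ∑ m ∈ G, w m

theorem w_pos (m : ℕ) : 0 < w m := by unfold w; positivity

theorem w_succ (m : ℕ) : w (m + 1) = w m / 100 := by unfold w; rw [pow_succ]; ring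

theorem w_anti {m n : ℕ} (h : m ≤ n) : w n ≤ w m :=
  pow_le_pow_of_le_one (by norm_num) (by norm_num) (by omega)

theorem w_le (m : ℕ) : w m ≤ 1 / 100 := by
  have := w_anti (Nat.zero_le m)
  have h0 : w 0 = 1 / 100 := by unfold w; norm_num
  linarith

theorem sum_Ico_w (k d : ℕ) : ∑ m ∈ Finset.Ico k (k + d), w m = 100 / 99 * (w k - w (k + d)) := by
  induction d with
  | zero => simp
  | succ d ih =>
    rw [← add_assoc, Finset.sum_Ico_succ_top (by omega), ih, w_succ]
    ring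

theorem sum_w_le (k : ℕ) (G : Finset ℕ) (hG : ∀ m ∈ G, k ≤ m) : ∑ m ∈ G, w m ≤ 100 / 99 * w k := by
  have hsub : G ⊆ Finset.Ico k (k + (G.sup id + 1)) := by
    intro m hm
    rw [Finset.mem_Ico]
    have : m ≤ G.sup id := Finset.le_sup (f := id) hm
    exact ⟨hG m hm, by omega⟩
  calc ∑ m ∈ G, w m ≤ ∑ m ∈ Finset.Ico k (k + (G.sup id + 1)), w m :=
        Finset.sum_le_sum_of_subset_of_nonneg hsub fun m _ _ => (w_pos m).le
    _ = 100 / 99 * (w k - w (k + (G.sup id + 1))) := sum_Ico_w _ _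
    _ ≤ 100 / 99 * w k := by
        have := w_pos (k + (G.sup id + 1))
        linarith

theorem one_le_psi (G : Finset ℕ) : 1 ≤ psi G := by
  have : 0 ≤ ∑ m ∈ G, w m := Finset.sum_nonneg fun m _ => (w_pos m).le
  unfold psi; linarith

theorem psi_le (G : Finset ℕ) : psi G ≤ 102 / 100 := by
  have h1 := sum_w_le 0 G fun m _ => Nat.zero_le m
  have h2 := w_le 0
  unfold psi; linarith

/-- the classes `(k, n, G)` -/
def Cl : Type := {q : ℕ × ℕ × Finset ℕ // q.2.1 < q.1 ∧ q.2.2 ⊆ Finset.range q.1 ∧ q.2.1 ∉ q.2.2}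

noncomputable instance : Encodable Cl := inferInstanceAs (Encodable
  {q : ℕ × ℕ × Finset ℕ // q.2.1 < q.1 ∧ q.2.2 ⊆ Finset.range q.1 ∧ q.2.1 ∉ q.2.2})

/-- the stage of a class -/
def Cl.k (q : Cl) : ℕ := q.1.1
/-- the layer of a class -/
def Cl.n (q : Cl) : ℕ := q.1.2.1
/-- the type of a class -/
def Cl.G (q : Cl) : Finset ℕ := q.1.2.2

theorem Cl.hn (q : Cl) : q.n < q.k := q.2.1
theorem Cl.hG (q : Cl) : q.G ⊆ Finset.range q.k := q.2.2.1
theorem Cl.hnG (q : Cl) : q.n ∉ q.G := q.2.2.2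

/-- the weight of a class -/
noncomputable def cc (q : Cl) : ℝ := (1 + 10 * w q.k) * psi q.G

theorem one_le_cc (q : Cl) : 1 ≤ cc q := by
  have h1 := one_le_psi q.G
  have h2 := w_pos q.k
  unfold cc; nlinarith

theorem cc_le (q : Cl) : cc q ≤ 2 := by
  have h1 := one_le_psi q.G
  have h2 := w_pos q.k
  have h3 := psi_le q.G
  have h4 := w_le q.k
  unfold cc; nlinarith

/-- later stages are dominated -/
theorem cc_dom (q q' : Cl) (hk : q'.k < q.k) (hG : ∀ m ∈ q.G, m < q'.k → m ∈ q'.G) :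
    cc q + 8 * w q'.k ≤ cc q' := by
  have h1 : psi q.G ≤ psi q'.G + 100 / 99 * w q'.k := by
    unfold psi
    have e1 : ∑ m ∈ q.G, w m = ∑ m ∈ q.G.filter (fun m => m < q'.k), w m +
        ∑ m ∈ q.G.filter (fun m => ¬ m < q'.k), w m :=
      (Finset.sum_filter_add_sum_filter_not _ _ _).symm
    have e2 : ∑ m ∈ q.G.filter (fun m => m < q'.k), w m ≤ ∑ m ∈ q'.G, w m := by
      refine Finset.sum_le_sum_of_subset_of_nonneg ?_ fun m _ _ => (w_pos m).le
      intro m hm
      rw [Finset.mem_filter] at hm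
      exact hG m hm.1 hm.2
    have e3 : ∑ m ∈ q.G.filter (fun m => ¬ m < q'.k), w m ≤ 100 / 99 * w q'.k := by
      refine sum_w_le _ _ fun m hm => ?_
      rw [Finset.mem_filter] at hm
      omega
    linarith
  have h2 : w q.k ≤ w q'.k / 100 := by
    rw [← w_succ]
    exact w_anti hk
  have h3 := one_le_psi q'.G
  have h4 := psi_le q'.G
  have h5 := w_pos q'.k
  have h6 := w_le q'.k
  have h7 := w_pos q.k
  have h8 := one_le_psi q.G
  have h9 : cc q ≤ (1 + w q'.k / 10) * (psi q'.G + 100 / 99 * w q'.k) := by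
    unfold cc
    have : 10 * w q.k ≤ w q'.k / 10 := by linarith
    gcongr
  have h10 : cc q' = psi q'.G + 10 * w q'.k * psi q'.G := by unfold cc; ring
  have h11 : w q'.k * psi q'.G ≤ w q'.k * (102 / 100) := by gcongr
  have h12 : w q'.k * 1 ≤ w q'.k * psi q'.G := by gcongr
  have h13 : w q'.k * w q'.k ≤ w q'.k * (1 / 100) := by gcongr
  have h14 : (1 + w q'.k / 10) * (psi q'.G + 100 / 99 * w q'.k) = psi q'.G + 100 / 99 * w q'.k +
      (w q'.k * psi q'.G) / 10 + 10 / 99 * (w q'.k * w q'.k) := by ring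
  rw [h14] at h9
  rw [h10]
  nlinarith

/-- points of `B n` have larger weights -/
theorem cc_gap (q q' : Cl) (hG : insert q.n q.G ⊆ q'.G) :
    cc q + w q.n / 2 ≤ (1 - w q.n / 4) * cc q' := by
  have h1 : psi q.G + w q.n ≤ psi q'.G := by
    unfold psi
    have e1 : ∑ m ∈ insert q.n q.G, w m = w q.n + ∑ m ∈ q.G, w m := Finset.sum_insert q.hnG
    have e2 : ∑ m ∈ insert q.n q.G, w m ≤ ∑ m ∈ q'.G, w m :=
      Finset.sum_le_sum_of_subset_of_nonneg hG fun m _ _ => (w_pos m).le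
    linarith
  have h2 : w q.k ≤ w q.n / 100 := by
    rw [← w_succ]
    exact w_anti q.hn
  have h3 := one_le_psi q.G
  have h4 := psi_le q.G
  have h5 := w_pos q.n
  have h6 := w_le q.n
  have h7 := w_pos q.k
  have h8 := w_pos q'.k
  have h9 := one_le_psi q'.G
  have h10 : psi q'.G ≤ cc q' := by
    unfold cc
    nlinarith
  have h11 : cc q ≤ psi q.G + w q.n / 10 * (102 / 100) := by
    unfold cc
    have : 10 * w q.k ≤ w q.n / 10 := by linarith
    nlinarith
  have h12 : (1 - w q.n / 4) * (psi q.G + w q.n) ≤ (1 - w q.n / 4) * cc q' := by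
    have : 0 ≤ 1 - w q.n / 4 := by linarith
    exact mul_le_mul_of_nonneg_left (h1.trans h10) this
  nlinarith

theorem finite_stage (k0 : ℕ) : {q : Cl | q.k ≤ k0}.Finite := by
  have h := ((Finset.range (k0 + 1)) ×ˢ ((Finset.range (k0 + 1)) ×ˢ
      (Finset.range (k0 + 1)).powerset) : Finset (ℕ × ℕ × Finset ℕ)).finite_toSet.preimage
      (f := (Subtype.val : Cl → ℕ × ℕ × Finset ℕ)) Subtype.val_injective.injOn
  refine h.subset ?_
  intro (q : Cl) hq
  have hq : Cl.k q ≤ k0 := hq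
  have h1 := Cl.hn q
  have h2 := Cl.hG q
  rw [mem_preimage, Finset.mem_coe, Finset.mem_product, Finset.mem_product, Finset.mem_range,
    Finset.mem_range, Finset.mem_powerset]
  refine ⟨?_, ?_, ?_⟩
  · change Cl.k q < k0 + 1
    omega
  · change Cl.n q < k0 + 1
    omega
  · change Cl.G q ⊆ _
    refine h2.trans fun m hm => ?_
    rw [Finset.mem_range] at hm ⊢
    omega

end Pool.Agent.helper26.CK
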